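import Mathlib
import Pool.Agent.TH202.FlRes
import Pool.Agent.TH202.Cen
import Pool.Agent.TH755.C8_SEQ

/-!
# Generation of `K` by `y_{k+1}, y_k, c` and a cube root (job FL-GEN of MP_aa0b3f_ag)
-/

set_option autoImplicit false
namespace Pool.Agent.TH286.FL_GEN
open Pool.Agent.H436R3.Fol Pool.Agent.TH202 MvPolynomial Pool.Agent.TH755.C8_SEQ

variable {K : Type} [Field K] [Algebra ℂ K]

theorem addf_mem {S : Type} [SetLike S K] [SubfieldClass S K] {F : S} {A : K} {p q : K × K}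
    (hA : A ∈ F) (h1 : p.1 ∈ F) (h2 : p.2 ∈ F) (h3 : q.1 ∈ F) (h4 : q.2 ∈ F) :
    (addf A p q).1 ∈ F ∧ (addf A p q).2 ∈ F := by
  have hs : sl p q ∈ F := div_mem (sub_mem h2 h4) (sub_mem h1 h3)
  have hu : (addf A p q).1 ∈ F :=
    sub_mem (sub_mem (div_mem (pow_mem hs 2) hA) h1) h3
  exact ⟨hu, neg_mem (add_mem (mul_mem hs (sub_mem hu h1)) h2)⟩

theorem sq_mem {S : Type} [SetLike S K] [SubfieldClass S K] {F : S} (d : Dat K)
    (ha : d.a ∈ F) (hb : d.b ∈ F) (hr : d.r ∈ F) (k : ℕ) :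
    (sq d k).1 ∈ F ∧ (sq d k).2 ∈ F := by
  have hA : cA d ∈ F := div_mem (sub_mem (one_mem _) (pow_mem ha 2)) (pow_mem ha 2)
  have key : ∀ k : ℕ, ((sq d (k + 1)).1 ∈ F ∧ (sq d (k + 1)).2 ∈ F) ∧
      ((sq d (k + 2)).1 ∈ F ∧ (sq d (k + 2)).2 ∈ F) := by
    intro k
    induction k with
    | zero =>
      rw [sq_one, sq_two]
      exact ⟨⟨hr, inv_mem hb⟩, ⟨one_mem _, inv_mem ha⟩⟩
    | succ k ih =>
      refine ⟨ih.2, ?_⟩
      rw [sq_add]
      exact addf_mem hA ih.2.1 ih.2.2 ih.1.1 ih.1.2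
  cases k with
  | zero =>
    rw [sq_zero]
    have h := key 0
    exact addf_mem hA h.2.1 h.2.2 h.1.1 (neg_mem h.1.2)
  | succ k => exact (key k).1

theorem y_mem (d : Dat K) (k : ℕ) : (sq d k).2 ∈ Fc d := by
  have ha : d.a ∈ Fc d :=
    Pool.Agent.TH189.C8_VS.mem_kap_of_k0 d (Pool.Agent.TH189.C8_VS.a_mem_k0 d)
  have hb : d.b ∈ Fc d :=
    Pool.Agent.TH189.C8_VS.mem_kap_of_k0 d (Pool.Agent.TH189.C8_VS.b_mem_k0 d)
  have hr : d.r ∈ Fc d := Pool.Agent.TH189.C8_VS.r_mem_kap d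
  exact (sq_mem d ha hb hr k).2

/-- the coordinates `y` are transcendental -/
theorem y2_ne (d : Dat K) (k : ℕ) : (sq d (k + 1)).2 ^ 2 ≠ 1 := by
  intro h
  have hi := (good d k).ind.transcendental 1
  apply hi
  have h1 : tr d (k + 1) 1 = (sq d (k + 1)).2⁻¹ := rfl
  rw [h1]
  apply IsAlgebraic.of_pow two_pos
  rw [inv_pow, h, inv_one]
  exact isAlgebraic_one

theorem u_ne (d : Dat K) (k : ℕ) : (sq d (k + 1)).1 ≠ 0 := by
  intro h
  have h1 := on_all d (k + 1)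
  rw [On, h] at h1
  apply y2_ne d k
  rw [h1]
  ring

/-- the cube root -/
noncomputable def rt (d : Dat K) (k : ℕ) : K := (sq d k).1 / (sq d (k + 1)).1

theorem rt_cube (d : Dat K) (k : ℕ) :
    rt d k ^ 3 * ((sq d (k + 1)).2 ^ 2 - 1) = (sq d k).2 ^ 2 - 1 := by
  have h0 := on_all d k
  have h1 := on_all d (k + 1)
  have h2 := u_ne d k
  unfold On at h0 h1
  rw [h0, h1, rt]
  field_simp
  ring

theorem all_mem (d : Dat K) (k : ℕ) (L : IntermediateField ℂ K) (h0 : (sq d (k + 1)).2 ∈ L)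
    (h1 : (sq d (k + 2)).2 ∈ L) (hc : d.c ∈ L) (hr : rt d (k + 1) ∈ L) : ∀ f : K, f ∈ L := by
  induction k with
  | zero =>
    rw [sq_one] at h0
    rw [sq_two] at h1
    have hr' : d.r ∈ L := by
      rw [rt, sq_one, sq_two] at hr
      simpa using hr
    have ha : d.a ∈ L := by
      have := inv_mem h1
      simpa using this
    have hb : d.b ∈ L := by
      have := inv_mem h0
      simpa using this
    have hle : IntermediateField.adjoin ℂ ({d.a, d.b, d.c} : Set K) ≤ L := by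
      rw [IntermediateField.adjoin_le_iff]
      rintro x (rfl | rfl | rfl)
      · exact ha
      · exact hb
      · exact hc
    intro f
    obtain ⟨g0, h0, g1, h1, g2, h2, rfl⟩ := d.gen f
    exact add_mem (add_mem (hle h0) (mul_mem (hle h1) hr')) (mul_mem (hle h2) (pow_mem hr' 2))
  | succ k ih =>
    -- the points
    have hA := cA_ne d
    have hu1 := u_ne d (k + 1)
    have hu2 := u_ne d (k + 2)
    have hne : (sq d (k + 3)).1 ≠ (sq d (k + 2)).1 := ne_all d (k + 1)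
    have hon := on_all d (k + 2)
    unfold On at hon
    have hback := back_all d (k + 1)
    change (sq d (k + 2)).2 ∈ L at h0
    change (sq d (k + 3)).2 ∈ L at h1
    change (sq d (k + 2)).1 / (sq d (k + 3)).1 ∈ L at hr
    change sq d (k + 1) = addf (cA d) (sq d (k + 3)) (ngp (sq d (k + 2))) at hback
    change (sq d (k + 2)).1 ≠ 0 at hu1
    change (sq d (k + 3)).1 ≠ 0 at hu2
    have e1 := congrArg Prod.fst hback
    have e2 := congrArg Prod.snd hback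
    simp only [addf, sl, ngp] at e1 e2
    rw [sub_neg_eq_add] at e1 e2
    rw [← e1] at e2
    generalize hρ : (sq d (k + 3)).1 / (sq d (k + 2)).1 = ρ
    have hρL : ρ ∈ L := by
      rw [← hρ, ← inv_div]
      exact inv_mem hr
    have hρ1 : ρ - 1 ≠ 0 := by
      rw [← hρ]
      intro h
      apply hne
      rw [sub_eq_zero, div_eq_one_iff_eq hu1] at h
      exact h
    have hu3 : (sq d (k + 3)).1 = ρ * (sq d (k + 2)).1 := by rw [← hρ]; field_simp
    have hy1 : cA d * (sq d (k + 2)).1 ^ 3 = (sq d (k + 2)).2 ^ 2 - 1 := by rw [hon]; ring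
    have hy1' : (sq d (k + 2)).2 ^ 2 - 1 ≠ 0 := sub_ne_zero.2 (y2_ne d (k + 1))
    rw [hu3] at e1 e2
    have hd : ρ * (sq d (k + 2)).1 - (sq d (k + 2)).1 = (ρ - 1) * (sq d (k + 2)).1 := by ring
    rw [hd] at e1 e2
    have f1 : rt d (k + 1) = ((sq d (k + 3)).2 + (sq d (k + 2)).2) ^ 2 /
        (((sq d (k + 2)).2 ^ 2 - 1) * (ρ - 1) ^ 2) - ρ - 1 := by
      rw [rt]
      change (sq d (k + 1)).1 / (sq d (k + 2)).1 = _
      rw [e1, ← hy1]
      field_simp
    have hrt : rt d (k + 1) ∈ L := by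
      rw [f1]
      exact sub_mem (sub_mem (div_mem (pow_mem (add_mem h1 h0) 2)
        (mul_mem (sub_mem (pow_mem h0 2) (one_mem _)) (pow_mem (sub_mem hρL (one_mem _)) 2)))
        hρL) (one_mem _)
    have f2 : (sq d (k + 1)).2 = -(((sq d (k + 3)).2 + (sq d (k + 2)).2) / (ρ - 1) *
        (rt d (k + 1) - ρ) + (sq d (k + 3)).2) := by
      have hrt' : (sq d (k + 1)).1 = rt d (k + 1) * (sq d (k + 2)).1 := by
        rw [rt]
        change _ = (sq d (k + 1)).1 / (sq d (k + 2)).1 * _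
        field_simp
      rw [e2, hrt']
      field_simp
    have hy : (sq d (k + 1)).2 ∈ L := by
      rw [f2]
      exact neg_mem (add_mem (mul_mem (div_mem (add_mem h1 h0) (sub_mem hρL (one_mem _)))
        (sub_mem hrt hρL)) h1)
    exact ih hy h0 hrt

theorem cube_span {B : IntermediateField ℂ K} {r : K} (hr3 : r ^ 3 ∈ B) {f : K}
    (hadj : f ∈ Algebra.adjoin B {r}) :
    ∃ g0 ∈ B, ∃ g1 ∈ B, ∃ g2 ∈ B, f = g0 + g1 * r + g2 * r ^ 2 := by
  refine Algebra.adjoin_induction (p := fun f _ => ∃ g0 ∈ B, ∃ g1 ∈ B, ∃ g2 ∈ B,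
    f = g0 + g1 * r + g2 * r ^ 2) ?_ ?_ ?_ ?_ hadj
  · intro x hx
    rw [Set.mem_singleton_iff] at hx
    exact ⟨0, zero_mem _, 1, one_mem _, 0, zero_mem _, by rw [hx]; ring⟩
  · intro x
    refine ⟨x, x.2, 0, zero_mem _, 0, zero_mem _, ?_⟩
    change (x : K) = _
    ring
  · rintro _ _ _ _ ⟨a0, ha0, a1, ha1, a2, ha2, rfl⟩ ⟨b0, hb0, b1, hb1, b2, hb2, rfl⟩
    exact ⟨a0 + b0, add_mem ha0 hb0, a1 + b1, add_mem ha1 hb1, a2 + b2, add_mem ha2 hb2, by ring⟩
  · rintro _ _ _ _ ⟨a0, ha0, a1, ha1, a2, ha2, rfl⟩ ⟨b0, hb0, b1, hb1, b2, hb2, rfl⟩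
    refine ⟨a0 * b0 + (a1 * b2 + a2 * b1) * r ^ 3, ?_, a0 * b1 + a1 * b0 + a2 * b2 * r ^ 3, ?_,
      a0 * b2 + a1 * b1 + a2 * b0, ?_, by ring⟩
    · exact add_mem (mul_mem ha0 hb0) (mul_mem (add_mem (mul_mem ha1 hb2) (mul_mem ha2 hb1)) hr3)
    · exact add_mem (add_mem (mul_mem ha0 hb1) (mul_mem ha1 hb0))
        (mul_mem (mul_mem ha2 hb2) hr3)
    · exact add_mem (add_mem (mul_mem ha0 hb2) (mul_mem ha1 hb1)) (mul_mem ha2 hb0)

theorem mem_adjoin_of {B : IntermediateField ℂ K} {r : K} {x : K} (hx : x ∈ B) :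
    x ∈ IntermediateField.adjoin B {r} :=
  (IntermediateField.adjoin B {r}).algebraMap_mem ⟨x, hx⟩

theorem gen_sq (d : Dat K) (k : ℕ) (hk : 1 ≤ k) :
    ∃ r : K, r ^ 3 * ((sq d (k + 1)).2 ^ 2 - 1) = (sq d k).2 ^ 2 - 1 ∧
    ∀ f : K, ∃ g0 ∈ IntermediateField.adjoin ℂ ({(sq d (k + 1)).2, (sq d k).2, d.c} : Set K),
      ∃ g1 ∈ IntermediateField.adjoin ℂ ({(sq d (k + 1)).2, (sq d k).2, d.c} : Set K),
      ∃ g2 ∈ IntermediateField.adjoin ℂ ({(sq d (k + 1)).2, (sq d k).2, d.c} : Set K),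
        f = g0 + g1 * r + g2 * r ^ 2 := by
  refine ⟨rt d k, rt_cube d k, ?_⟩
  obtain ⟨j, rfl⟩ : ∃ j, k = j + 1 := ⟨k - 1, by omega⟩
  generalize hB : IntermediateField.adjoin ℂ
    ({(sq d (j + 1 + 1)).2, (sq d (j + 1)).2, d.c} : Set K) = B
  have m1 : (sq d (j + 1 + 1)).2 ∈ B := by
    rw [← hB]; exact IntermediateField.subset_adjoin _ _ (by simp)
  have m0 : (sq d (j + 1)).2 ∈ B := by
    rw [← hB]; exact IntermediateField.subset_adjoin _ _ (by simp)
  have mc : d.c ∈ B := by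
    rw [← hB]; exact IntermediateField.subset_adjoin _ _ (by simp)
  generalize hr : rt d (j + 1) = r
  have hr3 : r ^ 3 ∈ B := by
    have h1 := rt_cube d (j + 1)
    have h2 : (sq d (j + 1 + 1)).2 ^ 2 - 1 ≠ 0 := sub_ne_zero.2 (y2_ne d (j + 1))
    rw [hr] at h1
    rw [← eq_div_iff h2] at h1
    rw [h1]
    exact div_mem (sub_mem (pow_mem m0 2) (one_mem _)) (sub_mem (pow_mem m1 2) (one_mem _))
  intro f
  have hint : IsIntegral B r := by
    apply IsIntegral.of_pow (n := 3) (by norm_num)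
    exact isIntegral_algebraMap (x := (⟨_, hr3⟩ : B))
  -- `f` is in the field generated by `r` over `B`
  obtain ⟨L, hL⟩ : ∃ L : IntermediateField ℂ K, ∀ x, x ∈ L ↔ x ∈ IntermediateField.adjoin B {r} :=
    ⟨(IntermediateField.adjoin B {r}).restrictScalars ℂ, fun x =>
      IntermediateField.mem_restrictScalars (K := ℂ)⟩
  have htop : f ∈ IntermediateField.adjoin B {r} := by
    rw [← hL]
    refine all_mem d j L ?_ ?_ ?_ ?_ f
    · rw [hL]; exact mem_adjoin_of m0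
    · rw [hL]; exact mem_adjoin_of m1
    · rw [hL]; exact mem_adjoin_of mc
    · rw [hL, hr]; exact IntermediateField.mem_adjoin_simple_self _ _
  apply cube_span hr3
  rw [← IntermediateField.adjoin_simple_toSubalgebra_of_isAlgebraic hint.isAlgebraic]
  exact htop

end Pool.Agent.TH286.FL_GEN
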