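import Pool.Agent.TH547.Arc.Ins

/-!
# Insertion of arcs into words and `List.formPerm` (job 762 of MP_e5080e_gt)
-/

set_option autoImplicit false
namespace Pool.Agent.TH286.J762
open Pool.Agent.TH547.Arc
open Finset Equiv

theorem insB_nil (t s : Sy) : insB t s [] = [] := rfl

theorem insB_cons (t s u : Sy) (x : List Sy) :
    insB t s (u :: x) = (if u = t then [s, u] else [u]) ++ insB t s x := by
  simp [insB]

theorem insB_append (t s : Sy) (x y : List Sy) :
    insB t s (x ++ y) = insB t s x ++ insB t s y := by
  simp [insB]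

theorem insB_of_notMem (t s : Sy) (x : List Sy) (h : t ∉ x) : insB t s x = x := by
  induction x with
  | nil => rfl
  | cons u x ih =>
    rw [List.mem_cons, not_or] at h
    rw [insB_cons, if_neg (fun h' => h.1 h'.symm), ih h.2]
    rfl

theorem insB_split (t s : Sy) (x y : List Sy) (hx : t ∉ x) (hy : t ∉ y) :
    insB t s (x ++ t :: y) = x ++ s :: t :: y := by
  rw [insB_append, insB_cons, if_pos rfl, insB_of_notMem t s x hx, insB_of_notMem t s y hy]
  rfl

theorem insB_nodup (t s : Sy) (x : List Sy) (hx : x.Nodup) (hs : s ∉ x) : (insB t s x).Nodup := by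
  by_cases ht : t ∈ x
  · obtain ⟨l1, l2, rfl⟩ := List.append_of_mem ht
    have h1 : t ∉ l1 := fun h => by
      have := List.disjoint_of_nodup_append hx h
      simp at this
    have h2 : t ∉ l2 := (List.nodup_cons.1 (List.Nodup.of_append_right hx)).1
    rw [insB_split t s l1 l2 h1 h2, List.perm_middle.nodup_iff, List.nodup_cons]
    exact ⟨hs, hx⟩
  · rwa [insB_of_notMem t s x ht]

theorem mem_insB (t s : Sy) (x : List Sy) (u : Sy) : u ∈ insB t s x ↔ u ∈ x ∨ (u = s ∧ t ∈ x) := by
  induction x with
  | nil => simp [insB_nil]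
  | cons v x ih =>
    rw [insB_cons, List.mem_append, ih]
    by_cases h : v = t
    · subst h
      rw [if_pos rfl]
      simp only [List.mem_cons, List.not_mem_nil, or_false]
      tauto
    · rw [if_neg h]
      simp only [List.mem_cons, List.not_mem_nil, or_false]
      have : ¬ t = v := fun h' => h h'.symm
      tauto

theorem sublist_insB (t s : Sy) (x : List Sy) : x.Sublist (insB t s x) := by
  induction x with
  | nil => exact List.Sublist.refl _
  | cons v x ih =>
    rw [insB_cons]
    have h1 : [v].Sublist (if v = t then [s, v] else [v]) := by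
      split_ifs
      · simp
      · exact List.Sublist.refl _
    exact List.Sublist.append h1 ih

theorem insB_mono (t s : Sy) {x y : List Sy} (h : x.Sublist y) :
    (insB t s x).Sublist (insB t s y) := by
  induction h with
  | slnil => exact List.Sublist.refl _
  | cons u _ ih =>
    rw [insB_cons]
    exact ih.trans (List.sublist_append_right _ _)
  | cons_cons u _ ih =>
    rw [insB_cons, insB_cons]
    exact List.Sublist.append (List.Sublist.refl _) ih

/-- cyclic permutation of a list after insertion of a symbol -/
theorem formPerm_insB (t s : Sy) (x : List Sy) (hx : x.Nodup) (ht : t ∈ x) (hs : s ∉ x) :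
    (insB t s x).formPerm = swap s t * x.formPerm := by
  have hnd := insB_nodup t s x hx hs
  obtain ⟨l1, l2, rfl⟩ := List.append_of_mem ht
  have h1 : t ∉ l1 := fun h => by
    have := List.disjoint_of_nodup_append hx h
    simp at this
  have h2 : t ∉ l2 := (List.nodup_cons.1 (List.Nodup.of_append_right hx)).1
  rw [insB_split t s l1 l2 h1 h2] at hnd ⊢
  rw [List.formPerm_eq_of_isRotated hx (List.isRotated_append (l := l1) (l' := t :: l2)),
    List.formPerm_eq_of_isRotated hnd (List.isRotated_append (l := l1) (l' := s :: t :: l2))]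
  exact List.formPerm_cons_cons s t (l2 ++ l1)

/-- face permutation after insertion of an arc (here `c = q` is allowed) -/
theorem fp_ins2 (θ : Perm Sy) (x : List Sy) (hx : x.Nodup) (c q : Sy) (b : ℕ)
    (hc : c ∈ x) (hq : q ∈ x) (h0 : en b false ∉ x) (h1 : en b true ∉ x) :
    fp θ (ins2 c q b x) = swap (en b true) q * (swap (en b false) c * fp θ x) := by
  unfold fp ins2
  rw [formPerm_insB _ _ _ (insB_nodup c _ x hx h0), formPerm_insB _ _ _ hx hc h0]
  · rw [mul_assoc, mul_assoc]
  · rw [mem_insB]; exact Or.inl hq
  · rw [mem_insB]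
    rintro (h | ⟨h, _⟩)
    · exact h1 h
    · simp at h

/-- the inserted word has the two ends in order -/
theorem ins2_pair (x : List Sy) (c q : Sy) (b : ℕ) (hq : q ∈ x)
    (hcq : c = q ∨ [c, q].Sublist x) :
    [en b false, en b true].Sublist (ins2 c q b x) := by
  have h1 : [en b false, q].Sublist (insB c (en b false) x) := by
    rcases hcq with rfl | h
    · have h2 : [c].Sublist x := List.singleton_sublist.2 hq
      have h3 := insB_mono c (en b false) h2
      rw [insB_cons, if_pos rfl, insB_nil] at h3
      exact h3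
    · have h3 := insB_mono c (en b false) h
      refine List.Sublist.trans ?_ h3
      rw [insB_cons, if_pos rfl]
      refine (List.Sublist.append (?_ : [en b false].Sublist [en b false, c])
        (sublist_insB c (en b false) [q]))
      exact List.singleton_sublist.2 (by simp)
  unfold ins2
  refine List.Sublist.trans ?_ (insB_mono q (en b true) h1)
  have e1 : [en b false, q] = [en b false] ++ [q] := rfl
  rw [e1, insB_append]
  have k1 : [en b true].Sublist (insB q (en b true) [q]) := by
    rw [insB_cons, if_pos rfl]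
    exact List.singleton_sublist.2 (by simp)
  exact List.Sublist.append (sublist_insB q (en b true) [en b false]) k1

/-- every paired word is obtained by insertion of any of its arcs, provided it ends with a symbol
which is not an end of that arc -/
theorem exists_ins2 (X : PW) (a : ℕ) (ha : a ∈ X.ord) (hl : ∃ (l : List Sy) (m : Sy), X.x = l ++ [m] ∧
    offA a m = true) : ∃ u ∈ (X.dl a).x, ∃ r ∈ (X.dl a).x, (u = r ∨ [u, r].Sublist (X.dl a).x) ∧
      X.x = ins2 u r a (X.dl a).x := by
  obtain ⟨l, m, hlm, hm⟩ := hl
  rw [offA_iff] at hm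
  have h1 := X.pair a false (PW.mem_ord.1 ha)
  have hnd := X.nd
  have hdl : (X.dl a).x = X.x.filter (offA a) := rfl
  rw [hdl]
  revert h1 hnd hlm
  generalize X.x = x
  intro hlm h1 hnd
  obtain ⟨r1, r2, hx, h2, h3⟩ := List.cons_sublist_iff.1 h1
  obtain ⟨l1, s2, rfl⟩ := List.append_of_mem h2
  obtain ⟨t1, l3, rfl⟩ := List.append_of_mem (List.singleton_sublist.1 h3)
  have hx' : x = l1 ++ en a false :: ((s2 ++ t1) ++ en a true :: l3) := by
    rw [hx]; simp
  clear hx
  generalize hl2 : s2 ++ t1 = l2 at hx'
  clear hl2 h2 h3 h1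
  subst hx'
  have hp : (l1 ++ en a false :: (l2 ++ en a true :: l3)).Perm
      (en a false :: en a true :: (l1 ++ l2 ++ l3)) := by
    refine List.perm_middle.trans (List.Perm.cons _ ?_)
    rw [← List.append_assoc]
    exact List.perm_middle
  have hnd' := hp.nodup_iff.1 hnd
  rw [List.nodup_cons, List.nodup_cons] at hnd'
  simp only [List.mem_cons, List.mem_append, not_or] at hnd'
  obtain ⟨⟨_, ⟨n1, n2⟩, n3⟩, ⟨⟨m1, m2⟩, m3⟩, hnd2⟩ := hnd'
  have hfil : (l1 ++ en a false :: (l2 ++ en a true :: l3)).filter (offA a) =
      l1 ++ (l2 ++ l3) := by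
    have hself : ∀ l' : List Sy, en a false ∉ l' → en a true ∉ l' → l'.filter (offA a) = l' := by
      intro l' k1 k2
      rw [List.filter_eq_self]
      intro s hs
      rw [offA_iff]
      exact ⟨fun h => k1 (h ▸ hs), fun h => k2 (h ▸ hs)⟩
    rw [List.filter_append, List.filter_cons_of_neg (by simp [offA]), List.filter_append,
      List.filter_cons_of_neg (by simp [offA]), hself l1 n1 m1, hself l2 n2 m2,
      hself l3 n3 m3]
  rw [hfil]
  -- the last part is not empty
  rcases l3 with _ | ⟨r, l3⟩
  · exfalso
    have h4 : (l1 ++ en a false :: (l2 ++ [en a true])) =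
      (l1 ++ en a false :: l2) ++ [en a true] := by simp
    rw [h4] at hlm
    have := List.append_inj_right' hlm rfl
    simp at this
    exact hm.2 this.symm
  have hnd3 : (l1 ++ l2 ++ r :: l3).Nodup := hnd2
  have hr := (List.perm_middle.nodup_iff.1 hnd3)
  rw [List.nodup_cons] at hr
  simp only [List.mem_append, not_or] at hr
  obtain ⟨⟨⟨hr1, hr2⟩, hr3⟩, hnd4⟩ := hr
  rcases l2 with _ | ⟨u, l2⟩
  · refine ⟨r, by simp, r, by simp, Or.inl rfl, ?_⟩
    unfold ins2
    rw [List.nil_append, List.nil_append, insB_split r (en a false) l1 l3 hr1 hr3]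
    have h5 : l1 ++ en a false :: r :: l3 = (l1 ++ [en a false]) ++ r :: l3 := by simp
    rw [h5, insB_split r (en a true) _ l3 ?_ hr3]
    · simp
    · rw [List.mem_append]
      rintro (h | h)
      · exact hr1 h
      · simp only [List.mem_cons, List.not_mem_nil, or_false] at h
        subst h
        exact n3 (by simp)
  · have hu : u ∉ l1 ++ (l2 ++ r :: l3) := by
      have h6 : (l1 ++ u :: (l2 ++ r :: l3)).Nodup := by
        have : l1 ++ u :: (l2 ++ r :: l3) = l1 ++ u :: l2 ++ r :: l3 := by simp
        rw [this]; exact hnd3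
      exact (List.nodup_cons.1 (List.perm_middle.nodup_iff.1 h6)).1
    rw [List.mem_append, not_or] at hu
    refine ⟨u, by simp, r, by simp, Or.inr ?_, ?_⟩
    · have : [u, r] = [] ++ ([u] ++ [r]) := rfl
      rw [this]
      refine List.Sublist.append (List.nil_sublist _) (List.Sublist.append ?_ ?_)
      · exact List.singleton_sublist.2 (by simp)
      · exact List.singleton_sublist.2 (by simp)
    · unfold ins2
      have h7 : l1 ++ (u :: l2 ++ r :: l3) = l1 ++ u :: (l2 ++ r :: l3) := by simp
      rw [h7, insB_split u (en a false) l1 _ hu.1 hu.2]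
      have h8 : l1 ++ en a false :: u :: (l2 ++ r :: l3) =
        (l1 ++ en a false :: u :: l2) ++ r :: l3 := by simp
      rw [h8, insB_split r (en a true) _ l3 ?_ hr3]
      · simp
      · simp only [List.mem_append, List.mem_cons, not_or] at hr2 ⊢
        refine ⟨hr1, ?_, hr2.1, hr2.2⟩
        intro h
        exact n3 (by rw [h]; simp)

end Pool.Agent.TH286.J762
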