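import Pool.Agent.TH286.J761

/-!
# Two transpositions: face count after insertion of an arc (job 768 of MP_e5080e_gt)
-/

set_option autoImplicit false
set_option linter.unusedSectionVars false
namespace Pool.Agent.TH286.J768
open Pool.Agent.TH547.Arc
open Pool.Agent.TH286.J761
open Finset Equiv

theorem ncy_eq {α : Type} [DecidableEq α] (σ : Perm α) (B : Finset α) [DecidableRel σ.SameCycle] :
    ncy σ B = (B.image (fun s => B.filter (fun t => σ.SameCycle s t))).card := by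
  unfold ncy
  congr 1
  ext D
  simp only [Finset.mem_image]
  refine exists_congr fun s => and_congr_right fun _ => ?_
  constructor
  · rintro rfl; ext t; simp
  · rintro rfl; ext t; simp

section
variable {α : Type} [DecidableEq α] (φ : Perm α) (A : Finset α) (hA : ∀ s ∈ A, φ s ∈ A)
  {b0 b1 c q : α} (h01 : b0 ≠ b1) (hb0 : b0 ∉ A) (hb1 : b1 ∉ A) (e0 : φ b0 = b1) (e1 : φ b1 = b0)
  (hc : c ∈ A) (hq : q ∈ A)

include hA e0 e1 in
theorem base_inv : ∀ s ∈ insert b0 (insert b1 A), φ s ∈ insert b0 (insert b1 A) := by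
  intro s hs
  simp only [Finset.mem_insert] at hs ⊢
  rcases hs with rfl | rfl | hs
  · exact Or.inr (Or.inl e0)
  · exact Or.inl e1
  · exact Or.inr (Or.inr (hA s hs))

include e0 in
theorem base_sc : φ.SameCycle b0 b1 := by
  have := sc_step φ b0
  rwa [e0] at this

include hA hb0 in
theorem far0 {s : α} (hs : s ∈ A) : ¬ φ.SameCycle s b0 := fun h => hb0 (sc_mem φ A hA hs h)

include hA hb0 e0 e1 hc in
/-- the first transposition -/
theorem psi_sc (s t : α) : (swap b0 c * φ).SameCycle s t ↔ φ.SameCycle s t ∨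
      ((φ.SameCycle b0 s ∨ φ.SameCycle c s) ∧ (φ.SameCycle b0 t ∨ φ.SameCycle c t)) :=
  sc_merge φ (insert b0 (insert b1 A)) (base_inv φ A hA e0 e1) (by simp) (by simp [hc])
    (fun h => far0 φ A hA hb0 hc h.symm) s t

include hA h01 hb0 hb1 e0 e1 hc hq

omit h01 hb1 hq in
theorem psi_A {s t : α} (hs : s ∈ A) (ht : t ∈ A) :
    (swap b0 c * φ).SameCycle s t ↔ φ.SameCycle s t := by
  rw [psi_sc φ A hA hb0 e0 e1 hc]
  have h1 : ¬ φ.SameCycle b0 s := fun h => far0 φ A hA hb0 hs h.symm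
  have h2 : ¬ φ.SameCycle b0 t := fun h => far0 φ A hA hb0 ht h.symm
  constructor
  · rintro (h | ⟨h3, h4⟩)
    · exact h
    · rcases h3 with h3 | h3
      · exact absurd h3 h1
      · rcases h4 with h4 | h4
        · exact absurd h4 h2
        · exact h3.symm.trans h4
  · exact Or.inl

omit h01 hb1 hq in
theorem psi_b0 {s : α} (hs : s ∈ A) :
    (swap b0 c * φ).SameCycle b0 s ↔ φ.SameCycle c s := by
  rw [psi_sc φ A hA hb0 e0 e1 hc]
  have h1 : ¬ φ.SameCycle b0 s := fun h => far0 φ A hA hb0 hs h.symm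
  have h2 : φ.SameCycle b0 b0 := Perm.SameCycle.refl _ _
  tauto

omit h01 hb1 hq in
theorem psi_b01 : (swap b0 c * φ).SameCycle b0 b1 :=
  (psi_sc φ A hA hb0 e0 e1 hc b0 b1).2 (Or.inl (base_sc φ e0))

omit h01 hb1 hq in
theorem psi_b1 {s : α} (hs : s ∈ A) :
    (swap b0 c * φ).SameCycle b1 s ↔ φ.SameCycle c s := by
  rw [← psi_b0 φ A hA hb0 e0 e1 hc hs]
  have := psi_b01 φ A hA hb0 e0 e1 hc
  exact ⟨fun h => this.trans h, fun h => this.symm.trans h⟩

omit h01 hb0 hb1 hq in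
theorem psi_inv : ∀ s ∈ insert b0 (insert b1 A),
    (swap b0 c * φ) s ∈ insert b0 (insert b1 A) :=
  swap_inv φ _ (base_inv φ A hA e0 e1) (by simp) (by simp [hc])

omit h01 hb0 hb1 in
theorem dbl_inv' : ∀ s ∈ insert b0 (insert b1 A),
    (swap b1 q * (swap b0 c * φ)) s ∈ insert b0 (insert b1 A) :=
  swap_inv _ _ (psi_inv φ A hA e0 e1 hc) (by simp) (by simp [hq])

theorem dbl_inv : ∀ s ∈ insert b0 (insert b1 A),
    (swap b1 q * (swap b0 c * φ)) s ∈ insert b0 (insert b1 A) :=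
  dbl_inv' φ A hA e0 e1 hc hq

omit hc hq in
theorem ncy_base : ncy φ (insert b0 (insert b1 A)) = ncy φ A + 1 := by
  classical
  have hmemA : ∀ s t, s ∈ A → φ.SameCycle s t → t ∈ A := fun s t hs h => sc_mem φ A hA hs h
  have hn : ∀ s, s ∈ A → b0 ≠ s ∧ b1 ≠ s := fun s hs =>
    ⟨fun h => hb0 (h ▸ hs), fun h => hb1 (h ▸ hs)⟩
  have clsA : ∀ s, s ∈ A → (insert b0 (insert b1 A)).filter (fun t => φ.SameCycle s t) =
      A.filter (fun t => φ.SameCycle s t) := by
    intro s hs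
    ext t
    rw [Finset.mem_filter, Finset.mem_filter]
    constructor
    · rintro ⟨_, h⟩; exact ⟨hmemA s t hs h, h⟩
    · rintro ⟨h1, h⟩; exact ⟨by simp [h1], h⟩
  have cls0 : (insert b0 (insert b1 A)).filter (fun t => φ.SameCycle b0 t) = {b0, b1} := by
    ext t
    rw [Finset.mem_filter]
    simp only [Finset.mem_insert, Finset.mem_singleton]
    constructor
    · rintro ⟨h | h | h, k⟩
      · exact Or.inl h
      · exact Or.inr h
      · exact absurd k.symm (far0 φ A hA hb0 h)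
    · rintro (rfl | rfl)
      · exact ⟨Or.inl rfl, Perm.SameCycle.refl _ _⟩
      · exact ⟨Or.inr (Or.inl rfl), base_sc φ e0⟩
  have cls1 : (insert b0 (insert b1 A)).filter (fun t => φ.SameCycle b1 t) = {b0, b1} := by
    rw [← cls0]
    ext t
    rw [Finset.mem_filter, Finset.mem_filter]
    exact and_congr_right fun _ => ⟨fun h => (base_sc φ e0).trans h,
      fun h => (base_sc φ e0).symm.trans h⟩
  rw [ncy_eq, ncy_eq]
  have : (insert b0 (insert b1 A)).image (fun s => (insert b0 (insert b1 A)).filter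
      (fun t => φ.SameCycle s t)) = insert {b0, b1} (A.image (fun s => A.filter
        (fun t => φ.SameCycle s t))) := by
    ext D
    simp only [Finset.mem_image, Finset.mem_insert]
    constructor
    · rintro ⟨s, rfl | rfl | hs, rfl⟩
      · exact Or.inl cls0
      · exact Or.inl cls1
      · exact Or.inr ⟨s, hs, (clsA s hs).symm⟩
    · rintro (rfl | ⟨s, hs, rfl⟩)
      · exact ⟨b0, Or.inl rfl, cls0⟩
      · exact ⟨s, Or.inr (Or.inr hs), clsA s hs⟩
  rw [this, Finset.card_insert_of_notMem]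
  intro h
  obtain ⟨s, hs, he⟩ := Finset.mem_image.1 h
  have : b0 ∈ A.filter (fun t => φ.SameCycle s t) := by rw [he]; simp
  exact hb0 (Finset.mem_filter.1 this).1

omit hq in
theorem ncy_psi : ncy (swap b0 c * φ) (insert b0 (insert b1 A)) = ncy φ A := by
  have h1 := ncy_merge φ (insert b0 (insert b1 A)) (base_inv φ A hA e0 e1) (a := b0) (b := c)
    (by simp) (by simp [hc]) (fun h => far0 φ A hA hb0 hc h.symm)
  rw [ncy_base φ A hA h01 hb0 hb1 e0 e1] at h1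
  omega

omit h01 in
theorem phi'_sc (h : ¬ φ.SameCycle c q) (s t : α) :
    (swap b1 q * (swap b0 c * φ)).SameCycle s t ↔ (swap b0 c * φ).SameCycle s t ∨
      (((swap b0 c * φ).SameCycle b1 s ∨ (swap b0 c * φ).SameCycle q s) ∧
        ((swap b0 c * φ).SameCycle b1 t ∨ (swap b0 c * φ).SameCycle q t)) := by
  have _h1 := hb1
  exact sc_merge _ (insert b0 (insert b1 A)) (psi_inv φ A hA e0 e1 hc) (by simp) (by simp [hq])
    (fun h' => h ((psi_b1 φ A hA hb0 e0 e1 hc hq).1 h')) s t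

omit h01 in
theorem phi'_not (h : φ.SameCycle c q) :
    ¬ (swap b1 q * (swap b0 c * φ)).SameCycle b1 q :=
  not_sc_split _ (insert b0 (insert b1 A)) (psi_inv φ A hA e0 e1 hc) (by simp) (by simp [hq])
    (fun h => hb1 (h ▸ hq)) ((psi_b1 φ A hA hb0 e0 e1 hc hq).2 h)

omit h01 in
/-- in the splitting case the classes of `ψ` are unions -/
theorem psi_of_phi' (h : φ.SameCycle c q) (s t : α) :
    (swap b0 c * φ).SameCycle s t ↔ (swap b1 q * (swap b0 c * φ)).SameCycle s t ∨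
      (((swap b1 q * (swap b0 c * φ)).SameCycle b1 s ∨
        (swap b1 q * (swap b0 c * φ)).SameCycle q s) ∧
        ((swap b1 q * (swap b0 c * φ)).SameCycle b1 t ∨
          (swap b1 q * (swap b0 c * φ)).SameCycle q t)) := by
  have := sc_merge (swap b1 q * (swap b0 c * φ)) (insert b0 (insert b1 A))
    (dbl_inv' φ A hA e0 e1 hc hq) (a := b1) (b := q) (by simp) (by simp [hq])
    (phi'_not φ A hA hb0 hb1 e0 e1 hc hq h) s t
  rwa [← mul_assoc, swap_mul_self, one_mul] at this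

theorem dbl_merge (h : ¬ φ.SameCycle c q) :
    ncy (swap b1 q * (swap b0 c * φ)) (insert b0 (insert b1 A)) + 1 = ncy φ A := by
  rw [← ncy_psi φ A hA h01 hb0 hb1 e0 e1 hc]
  exact ncy_merge _ (insert b0 (insert b1 A)) (psi_inv φ A hA e0 e1 hc) (by simp) (by simp [hq])
    (fun h' => h ((psi_b1 φ A hA hb0 e0 e1 hc hq).1 h'))

theorem dbl_split (h : φ.SameCycle c q) :
    ncy (swap b1 q * (swap b0 c * φ)) (insert b0 (insert b1 A)) = ncy φ A + 1 := by
  rw [← ncy_psi φ A hA h01 hb0 hb1 e0 e1 hc]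
  exact ncy_split _ (insert b0 (insert b1 A)) (psi_inv φ A hA e0 e1 hc) (by simp) (by simp [hq])
    (fun h => hb1 (h ▸ hq)) ((psi_b1 φ A hA hb0 e0 e1 hc hq).2 h)

theorem dbl_sc_merge (h : ¬ φ.SameCycle c q) {s t : α} (hs : s ∈ A) (ht : t ∈ A) :
    (swap b1 q * (swap b0 c * φ)).SameCycle s t ↔ φ.SameCycle s t ∨
      ((φ.SameCycle c s ∨ φ.SameCycle q s) ∧ (φ.SameCycle c t ∨ φ.SameCycle q t)) := by
  rw [phi'_sc φ A hA hb0 hb1 e0 e1 hc hq h, psi_A φ A hA hb0 e0 e1 hc hs ht,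
    psi_b1 φ A hA hb0 e0 e1 hc hs, psi_b1 φ A hA hb0 e0 e1 hc ht,
    psi_A φ A hA hb0 e0 e1 hc hq hs, psi_A φ A hA hb0 e0 e1 hc hq ht]

theorem dbl_sc_split (h : φ.SameCycle c q) {s t : α} (hs : s ∈ A) (ht : t ∈ A)
    (hst : (swap b1 q * (swap b0 c * φ)).SameCycle s t) : φ.SameCycle s t := by
  rw [← psi_A φ A hA hb0 e0 e1 hc hs ht, psi_of_phi' φ A hA hb0 hb1 e0 e1 hc hq h]
  exact Or.inl hst

theorem dbl_sc_far {s t : α} (hs : s ∈ A) (ht : t ∈ A) (h1 : ¬ φ.SameCycle c s)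
    (h2 : ¬ φ.SameCycle q s) :
    (swap b1 q * (swap b0 c * φ)).SameCycle s t ↔ φ.SameCycle s t := by
  by_cases h : φ.SameCycle c q
  · refine ⟨dbl_sc_split φ A hA h01 hb0 hb1 e0 e1 hc hq h hs ht, fun hst => ?_⟩
    rw [← psi_A φ A hA hb0 e0 e1 hc hs ht, psi_of_phi' φ A hA hb0 hb1 e0 e1 hc hq h] at hst
    rcases hst with hst | ⟨k | k, _⟩
    · exact hst
    · exact absurd ((psi_b1 φ A hA hb0 e0 e1 hc hs).1
        ((psi_of_phi' φ A hA hb0 hb1 e0 e1 hc hq h b1 s).2 (Or.inl k))) h1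
    · exact absurd (dbl_sc_split φ A hA h01 hb0 hb1 e0 e1 hc hq h hq hs k) h2
  · rw [dbl_sc_merge φ A hA h01 hb0 hb1 e0 e1 hc hq h hs ht]
    tauto

theorem dbl_far {s : α} (hs : s ∈ A) (h1 : ¬ φ.SameCycle c s) (h2 : ¬ φ.SameCycle q s) :
    ¬ (swap b1 q * (swap b0 c * φ)).SameCycle s b0 ∧
      ¬ (swap b1 q * (swap b0 c * φ)).SameCycle s b1 := by
  have k0 : ¬ (swap b0 c * φ).SameCycle s b0 := fun h =>
    h1 ((psi_b0 φ A hA hb0 e0 e1 hc hs).1 h.symm)
  have k1 : ¬ (swap b0 c * φ).SameCycle s b1 := fun h =>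
    h1 ((psi_b1 φ A hA hb0 e0 e1 hc hs).1 h.symm)
  have k2 : ¬ (swap b0 c * φ).SameCycle b1 s := fun h => k1 h.symm
  have k3 : ¬ (swap b0 c * φ).SameCycle q s := fun h =>
    h2 ((psi_A φ A hA hb0 e0 e1 hc hq hs).1 h)
  by_cases h : φ.SameCycle c q
  · exact ⟨fun k => k0 ((psi_of_phi' φ A hA hb0 hb1 e0 e1 hc hq h _ _).2 (Or.inl k)),
      fun k => k1 ((psi_of_phi' φ A hA hb0 hb1 e0 e1 hc hq h _ _).2 (Or.inl k))⟩
  · rw [phi'_sc φ A hA hb0 hb1 e0 e1 hc hq h, phi'_sc φ A hA hb0 hb1 e0 e1 hc hq h]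
    tauto

theorem dbl_b0 (h : ¬ φ.SameCycle c q) : (swap b1 q * (swap b0 c * φ)).SameCycle b0 b1 ∧
    (swap b1 q * (swap b0 c * φ)).SameCycle b0 c := by
  rw [phi'_sc φ A hA hb0 hb1 e0 e1 hc hq h, phi'_sc φ A hA hb0 hb1 e0 e1 hc hq h]
  exact ⟨Or.inl (psi_b01 φ A hA hb0 e0 e1 hc),
    Or.inl ((psi_b0 φ A hA hb0 e0 e1 hc hc).2 (Perm.SameCycle.refl _ _))⟩

theorem dbl_b0q : (swap b1 q * (swap b0 c * φ)).SameCycle b0 q := by
  have h1 : (swap b1 q * (swap b0 c * φ)) b0 = q := by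
    have n1 : b1 ≠ c := fun h => hb1 (h ▸ hc)
    rw [Perm.mul_apply, Perm.mul_apply, e0, swap_apply_of_ne_of_ne h01.symm n1,
      swap_apply_left]
  have := sc_step (swap b1 q * (swap b0 c * φ)) b0
  rwa [h1] at this

theorem dbl_b01 (h : φ.SameCycle c q) : ¬ (swap b1 q * (swap b0 c * φ)).SameCycle b0 b1 :=
  fun k => phi'_not φ A hA hb0 hb1 e0 e1 hc hq h
    (k.symm.trans (dbl_b0q φ A hA h01 hb0 hb1 e0 e1 hc hq))

theorem dbl_b1c (h : c ≠ q) : (swap b1 q * (swap b0 c * φ)).SameCycle b1 c := by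
  have h1 : (swap b1 q * (swap b0 c * φ)) b1 = c := by
    have n1 : c ≠ b1 := fun h => hb1 (h ▸ hc)
    rw [Perm.mul_apply, Perm.mul_apply, e1, swap_apply_left, swap_apply_of_ne_of_ne n1 h]
  have := sc_step (swap b1 q * (swap b0 c * φ)) b1
  rwa [h1] at this

end
end Pool.Agent.TH286.J768
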