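import Pool.Agent.TH547.Arc.Words

/-!
# Cycles of `swap a b * σ` on a finite invariant set (job 761 of MP_e5080e_gt)
-/

set_option autoImplicit false
namespace Pool.Agent.TH286.J761
open Pool.Agent.TH547.Arc
open Finset Equiv

/-- a finite invariant set gives a period -/
theorem exists_period {α : Type} (σ : Perm α) (A : Finset α) (hA : ∀ s ∈ A, σ s ∈ A)
    {a : α} (ha : a ∈ A) : ∃ m : ℕ, 0 < m ∧ (σ ^ m) a = a := by
  have hmem : ∀ n : ℕ, (σ ^ n) a ∈ A := by
    intro n
    induction n with
    | zero => simpa using ha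
    | succ n ih =>
      rw [pow_succ', Perm.mul_apply]
      exact hA _ ih
  obtain ⟨i, j, hij, he⟩ := Finite.exists_ne_map_eq_of_infinite
    (fun n : ℕ => (⟨(σ ^ n) a, hmem n⟩ : A))
  have he' : (σ ^ i) a = (σ ^ j) a := congrArg Subtype.val he
  have key : ∀ i j : ℕ, i < j → (σ ^ i) a = (σ ^ j) a → ∃ m : ℕ, 0 < m ∧ (σ ^ m) a = a := by
    intro i j hij he
    refine ⟨j - i, by omega, ?_⟩
    have h2 : σ ^ j = σ ^ i * σ ^ (j - i) := by
      rw [← pow_add]; congr 1; omega
    rw [h2, Perm.mul_apply] at he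
    exact ((σ ^ i).injective he).symm
  rcases lt_or_gt_of_ne hij with h | h
  · exact key i j h he'
  · exact key j i h he'.symm

theorem sc_nat {α : Type} (σ : Perm α) (A : Finset α) (hA : ∀ s ∈ A, σ s ∈ A)
    {a s : α} (ha : a ∈ A) (h : σ.SameCycle a s) : ∃ n : ℕ, (σ ^ n) a = s := by
  obtain ⟨m, hm, hma⟩ := exists_period σ A hA ha
  obtain ⟨i, hi⟩ := h
  refine ⟨(i % m).toNat, ?_⟩
  have e1 : ((i % m).toNat : ℤ) = i % m := Int.toNat_of_nonneg (Int.emod_nonneg _ (by omega))
  have e2 : ((σ ^ m) ^ (i / m)) a = a := Perm.zpow_apply_eq_self_of_apply_eq_self hma _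
  rw [← zpow_natCast, e1, ← hi]
  conv_rhs => rw [← Int.emod_add_mul_ediv i m, zpow_add, zpow_mul, Perm.mul_apply, zpow_natCast,
    e2]

theorem sc_mem {α : Type} (σ : Perm α) (A : Finset α) (hA : ∀ s ∈ A, σ s ∈ A)
    {a s : α} (ha : a ∈ A) (h : σ.SameCycle a s) : s ∈ A := by
  obtain ⟨n, rfl⟩ := sc_nat σ A hA ha h
  induction n with
  | zero => simpa using ha
  | succ n ih =>
    rw [pow_succ', Perm.mul_apply]
    exact hA _ (ih ⟨n, by simp⟩)

/-- equivalence relations containing the steps contain `SameCycle` -/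
theorem sc_le {α : Type} (σ : Perm α) (R : α → α → Prop) (hR : Equivalence R)
    (h : ∀ s, R s (σ s)) {s t : α} (hst : σ.SameCycle s t) : R s t := by
  obtain ⟨i, rfl⟩ := hst
  induction i using Int.induction_on with
  | zero => simpa using hR.refl s
  | succ k ih =>
    rw [add_comm, zpow_add, Perm.mul_apply, zpow_one]
    exact hR.trans ih (h _)
  | pred k ih =>
    refine hR.trans ih (hR.symm ?_)
    have := h ((σ ^ (-(k : ℤ) - 1)) s)
    rwa [← Perm.mul_apply, ← zpow_one_add, add_sub_cancel] at this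

theorem scEquiv {α : Type} (σ : Perm α) : Equivalence σ.SameCycle :=
  ⟨fun _ => Perm.SameCycle.refl _ _, fun h => h.symm, fun h h' => h.trans h'⟩

theorem sc_step {α : Type} (σ : Perm α) (s : α) : σ.SameCycle s (σ s) := ⟨1, by simp⟩

theorem merge_ab {α : Type} [DecidableEq α] (σ : Perm α) (A : Finset α) (hA : ∀ s ∈ A, σ s ∈ A)
    {a b : α} (ha : a ∈ A) (hab : ¬ σ.SameCycle a b) : (swap a b * σ).SameCycle a b := by
  obtain ⟨m, hm, hma⟩ := exists_period σ A hA ha
  have key : ∀ n : ℕ, (swap a b * σ).SameCycle a ((σ ^ n) a) := by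
    intro n
    induction n with
    | zero => simpa using Perm.SameCycle.refl _ _
    | succ n ih =>
      rw [pow_succ', Perm.mul_apply]
      by_cases h1 : σ ((σ ^ n) a) = a
      · rw [h1]
      · have h2 : σ ((σ ^ n) a) ≠ b := fun h => hab ⟨n + 1, by
          rw [add_comm, zpow_add, zpow_one, Perm.mul_apply, zpow_natCast, h]⟩
        have h3 : (swap a b * σ) ((σ ^ n) a) = σ ((σ ^ n) a) := by
          rw [Perm.mul_apply, swap_apply_of_ne_of_ne h1 h2]
        rw [← h3]
        exact ih.trans (sc_step _ _)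
  obtain ⟨k, rfl⟩ : ∃ k, m = k + 1 := ⟨m - 1, by omega⟩
  have h3 : (swap a b * σ) ((σ ^ k) a) = b := by
    rw [Perm.mul_apply, ← Perm.mul_apply σ, ← pow_succ', hma, swap_apply_left]
  have := (key k).trans (sc_step _ _)
  rwa [h3] at this

theorem sc_merge {α : Type} [DecidableEq α] (σ : Perm α) (A : Finset α) (hA : ∀ s ∈ A, σ s ∈ A)
    {a b : α} (ha : a ∈ A) (hb : b ∈ A) (hab : ¬ σ.SameCycle a b) (s t : α) :
    (swap a b * σ).SameCycle s t ↔ σ.SameCycle s t ∨
      ((σ.SameCycle a s ∨ σ.SameCycle b s) ∧ (σ.SameCycle a t ∨ σ.SameCycle b t)) := by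
  have _hb := hb
  have hm := merge_ab σ A hA ha hab
  constructor
  · intro h
    refine sc_le (swap a b * σ) (fun s t => σ.SameCycle s t ∨
      ((σ.SameCycle a s ∨ σ.SameCycle b s) ∧ (σ.SameCycle a t ∨ σ.SameCycle b t)))
      ⟨fun s => Or.inl (Perm.SameCycle.refl _ _), ?_, ?_⟩ ?_ h
    · rintro s t (h | ⟨h1, h2⟩)
      · exact Or.inl h.symm
      · exact Or.inr ⟨h2, h1⟩
    · rintro s t u (h | ⟨h1, h2⟩) (h' | ⟨h1', h2'⟩)
      · exact Or.inl (h.trans h')
      · exact Or.inr ⟨h1'.imp (fun k => k.trans h.symm) (fun k => k.trans h.symm), h2'⟩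
      · exact Or.inr ⟨h1, h2.imp (fun k => k.trans h') (fun k => k.trans h')⟩
      · exact Or.inr ⟨h1, h2'⟩
    · intro s
      rw [Perm.mul_apply]
      by_cases h1 : σ s = a
      · right
        refine ⟨Or.inl ?_, Or.inr ?_⟩
        · have := sc_step σ s
          rw [h1] at this; exact this.symm
        · rw [h1, swap_apply_left]
      by_cases h2 : σ s = b
      · right
        refine ⟨Or.inr ?_, Or.inl ?_⟩
        · have := sc_step σ s
          rw [h2] at this; exact this.symm
        · rw [h2, swap_apply_right]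
      rw [swap_apply_of_ne_of_ne h1 h2]
      exact Or.inl (sc_step σ s)
  · have hstep : ∀ u, (swap a b * σ).SameCycle u (σ u) := by
      intro u
      have h0 := sc_step (swap a b * σ) u
      rw [Perm.mul_apply] at h0
      by_cases h1 : σ u = a
      · rw [h1] at h0 ⊢
        rw [swap_apply_left] at h0
        exact h0.trans hm.symm
      by_cases h2 : σ u = b
      · rw [h2] at h0 ⊢
        rw [swap_apply_right] at h0
        exact h0.trans hm
      rwa [swap_apply_of_ne_of_ne h1 h2] at h0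
    have hle : ∀ {s t : α}, σ.SameCycle s t → (swap a b * σ).SameCycle s t := fun h =>
      sc_le σ _ (scEquiv _) hstep h
    rintro (h | ⟨h1, h2⟩)
    · exact hle h
    · have k1 : (swap a b * σ).SameCycle a s := by
        rcases h1 with h1 | h1
        · exact hle h1
        · exact hm.trans (hle h1)
      have k2 : (swap a b * σ).SameCycle a t := by
        rcases h2 with h1 | h1
        · exact hle h1
        · exact hm.trans (hle h1)
      exact k1.symm.trans k2

theorem swap_inv {α : Type} [DecidableEq α] (σ : Perm α) (A : Finset α)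
    (hA : ∀ s ∈ A, σ s ∈ A) {a b : α} (ha : a ∈ A) (hb : b ∈ A) :
    ∀ s ∈ A, (swap a b * σ) s ∈ A := by
  intro s hs
  rw [Perm.mul_apply]
  by_cases h1 : σ s = a
  · rw [h1, swap_apply_left]; exact hb
  by_cases h2 : σ s = b
  · rw [h2, swap_apply_right]; exact ha
  rw [swap_apply_of_ne_of_ne h1 h2]
  exact hA s hs

theorem not_sc_split {α : Type} [DecidableEq α] (σ : Perm α) (A : Finset α)
    (hA : ∀ s ∈ A, σ s ∈ A) {a b : α} (ha : a ∈ A) (hb : b ∈ A) (hne : a ≠ b)
    (hab : σ.SameCycle a b) : ¬ (swap a b * σ).SameCycle a b := by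
  classical
  have hex := sc_nat σ A hA ha hab
  obtain ⟨i, hi, hmin⟩ : ∃ i : ℕ, (σ ^ i) a = b ∧ ∀ j < i, (σ ^ j) a ≠ b :=
    ⟨Nat.find hex, Nat.find_spec hex, fun j hj => Nat.find_min hex hj⟩
  have hi0 : 0 < i := by
    rcases Nat.eq_zero_or_pos i with h | h
    · subst h
      simp at hi
      exact absurd hi hne
    · exact h
  have key : ∀ n : ℕ, ∃ j < i, ((swap a b * σ) ^ n) a = (σ ^ j) a := by
    intro n
    induction n with
    | zero => exact ⟨0, hi0, by simp⟩
    | succ n ih =>
      obtain ⟨j, hj, he⟩ := ih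
      rw [pow_succ', Perm.mul_apply, he, Perm.mul_apply, ← Perm.mul_apply σ, ← pow_succ']
      by_cases h1 : j + 1 = i
      · rw [h1, hi, swap_apply_right]
        exact ⟨0, hi0, by simp⟩
      · have h2 : (σ ^ (j + 1)) a ≠ b := hmin _ (by omega)
        by_cases h3 : (σ ^ (j + 1)) a = a
        · exfalso
          refine hmin (i - (j + 1)) (by omega) ?_
          rw [← hi]
          have : σ ^ i = σ ^ (i - (j + 1)) * σ ^ (j + 1) := by
            rw [← pow_add]; congr 1; omega
          rw [this, Perm.mul_apply, h3]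
        · rw [swap_apply_of_ne_of_ne h3 h2]
          exact ⟨j + 1, by omega, rfl⟩
  intro hsc
  obtain ⟨n, hn⟩ := sc_nat _ A (swap_inv σ A hA ha hb) ha hsc
  obtain ⟨j, hj, he⟩ := key n
  exact hmin j hj (he.symm.trans hn)

theorem ncy_merge {α : Type} [DecidableEq α] (σ : Perm α) (A : Finset α) (hA : ∀ s ∈ A, σ s ∈ A)
    {a b : α} (ha : a ∈ A) (hb : b ∈ A) (hab : ¬ σ.SameCycle a b) :
    ncy (swap a b * σ) A + 1 = ncy σ A := by
  classical
  have hm := sc_merge σ A hA ha hb hab
  set c := fun s => A.filter (fun t => σ.SameCycle s t) with hcdef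
  have mc : ∀ s t, t ∈ c s ↔ t ∈ A ∧ σ.SameCycle s t := fun s t => Finset.mem_filter
  have hceq : ∀ s s', σ.SameCycle s s' → c s = c s' := by
    intro s s' h
    ext t
    rw [mc, mc]
    exact and_congr_right fun _ => ⟨fun k => h.symm.trans k, fun k => h.trans k⟩
  have e0 : ncy σ A = (A.image c).card := by
    unfold ncy
    congr 1
    ext D
    simp only [Finset.mem_image]
    refine exists_congr fun s => and_congr_right fun _ => ?_
    constructor
    · rintro rfl; ext t; simp [hcdef]
    · rintro rfl; ext t; simp [hcdef]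
  have e1 : ncy (swap a b * σ) A = (insert (c a ∪ c b) (((A.image c).erase (c a)).erase (c b))).card
      := by
    unfold ncy
    congr 1
    ext D
    simp only [Finset.mem_image, Finset.mem_insert, Finset.mem_erase]
    have far : ∀ s, ¬ σ.SameCycle a s → ¬ σ.SameCycle b s →
        A.filter (fun t => (swap a b * σ).SameCycle s t) = c s := by
      intro s h1 h2
      ext t
      rw [mc, Finset.mem_filter, hm]
      refine and_congr_right fun _ => ?_
      tauto
    have near : ∀ s, (σ.SameCycle a s ∨ σ.SameCycle b s) →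
        A.filter (fun t => (swap a b * σ).SameCycle s t) = c a ∪ c b := by
      intro s h1
      ext t
      rw [Finset.mem_union, mc, mc, Finset.mem_filter, hm]
      constructor
      · rintro ⟨k1, k2 | ⟨k3, k4⟩⟩
        · rcases h1 with h1 | h1
          · exact Or.inl ⟨k1, h1.trans k2⟩
          · exact Or.inr ⟨k1, h1.trans k2⟩
        · tauto
      · tauto
    constructor
    · rintro ⟨s, hs, rfl⟩
      by_cases h : σ.SameCycle a s ∨ σ.SameCycle b s
      · exact Or.inl (near s h)
      · push Not at h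
        right
        rw [far s h.1 h.2]
        refine ⟨fun he => h.2 ?_, fun he => h.1 ?_, s, hs, rfl⟩
        · have : s ∈ c b := by rw [← he, mc]; exact ⟨hs, Perm.SameCycle.refl _ _⟩
          exact ((mc _ _).1 this).2
        · have : s ∈ c a := by rw [← he, mc]; exact ⟨hs, Perm.SameCycle.refl _ _⟩
          exact ((mc _ _).1 this).2
    · rintro (rfl | ⟨h1, h2, s, hs, rfl⟩)
      · exact ⟨a, ha, near a (Or.inl (Perm.SameCycle.refl _ _))⟩
      · exact ⟨s, hs, far s (fun h => h2 (hceq _ _ h).symm) (fun h => h1 (hceq _ _ h).symm)⟩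
  have hca : c a ∈ A.image c := Finset.mem_image_of_mem _ ha
  have hcb : c b ∈ (A.image c).erase (c a) := by
    refine Finset.mem_erase.2 ⟨fun he => hab ?_, Finset.mem_image_of_mem _ hb⟩
    have : b ∈ c a := by rw [← he, mc]; exact ⟨hb, Perm.SameCycle.refl _ _⟩
    exact ((mc _ _).1 this).2
  have hnot : c a ∪ c b ∉ ((A.image c).erase (c a)).erase (c b) := by
    intro h
    obtain ⟨s, hs, he⟩ := Finset.mem_image.1 (Finset.mem_of_mem_erase (Finset.mem_of_mem_erase h))
    have h1 : a ∈ c s := by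
      rw [he, Finset.mem_union, mc]
      exact Or.inl ⟨ha, Perm.SameCycle.refl _ _⟩
    have h2 : b ∈ c s := by
      rw [he, Finset.mem_union, mc, mc]
      exact Or.inr ⟨hb, Perm.SameCycle.refl _ _⟩
    exact hab (((mc _ _).1 h1).2.symm.trans ((mc _ _).1 h2).2)
  rw [e0, e1, Finset.card_insert_of_notMem hnot, Finset.card_erase_of_mem hcb,
    Finset.card_erase_of_mem hca]
  have h1 : 0 < ((A.image c).erase (c a)).card := Finset.card_pos.2 ⟨_, hcb⟩
  rw [Finset.card_erase_of_mem hca] at h1
  omega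

theorem ncy_split {α : Type} [DecidableEq α] (σ : Perm α) (A : Finset α) (hA : ∀ s ∈ A, σ s ∈ A)
    {a b : α} (ha : a ∈ A) (hb : b ∈ A) (hne : a ≠ b) (hab : σ.SameCycle a b) :
    ncy (swap a b * σ) A = ncy σ A + 1 := by
  have h := ncy_merge (swap a b * σ) A (swap_inv σ A hA ha hb) ha hb
    (not_sc_split σ A hA ha hb hne hab)
  rw [← mul_assoc, swap_mul_self, one_mul] at h
  exact h.symm

end Pool.Agent.TH286.J761
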