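import Pool.Agent.TH547.Arc.Env

/-!
# Insertion of arcs and restriction of paired words (job 846 of MP_e5080e_gt)
-/

set_option autoImplicit false
set_option linter.unusedSectionVars false
namespace Pool.Agent.TH286.J846
open Pool.Agent.TH547.Arc
open Finset Equiv

theorem mem_nmW {X : PW} {a : ℕ} (e : Bool) : a ∈ W.nm X ↔ en a e ∈ X.x :=
  Sys.mem_nm.trans (PW.mem_ord' e)

theorem notW {X : PW} {b : ℕ} (hb : b ∉ X.ord) (e : Bool) : en b e ∉ X.x :=
  fun h => hb ((PW.mem_ord' e).2 h)

section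
variable {c q : Sy} {b : ℕ} {X : PW} (hc : c ∈ X.x) (hq : q ∈ X.x)
  (h : c = q ∨ [c, q].Sublist X.x) (hb : b ∉ X.ord)
include hc hq h hb

theorem insP_mem (s : Sy) : s ∈ (insP c q b X).x ↔ s ∈ X.x ∨ s = en b false ∨ s = en b true := by
  rw [insP_x hc hq h hb]
  unfold ins2
  rw [insB_mem, insB_mem, insB_mem]
  constructor
  · rintro ((h1 | h1) | h1)
    · exact Or.inl h1
    · exact Or.inr (Or.inl h1.1)
    · exact Or.inr (Or.inr h1.1)
  · rintro (h1 | h1 | h1)
    · exact Or.inl (Or.inl h1)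
    · exact Or.inl (Or.inr ⟨h1, hc⟩)
    · exact Or.inr ⟨h1, Or.inl hq⟩

theorem insP_nm : W.nm (insP c q b X) = insert b (W.nm X) := by
  ext a
  rw [mem_nmW false, Finset.mem_insert, mem_nmW false, insP_mem hc hq h hb]
  constructor
  · rintro (h1 | h1 | h1)
    · exact Or.inr h1
    · left; simpa using h1
    · simp at h1
  · rintro (h1 | h1)
    · subst h1; exact Or.inr (Or.inl rfl)
    · exact Or.inl h1

theorem insP_length : (insP c q b X).ord.length = X.ord.length + 1 := by
  have h1 : (W.nm (insP c q b X)).card = (insP c q b X).ord.length :=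
    List.toFinset_card_of_nodup (PW.ord_nodup _)
  have h2 : (W.nm X).card = X.ord.length := List.toFinset_card_of_nodup (PW.ord_nodup _)
  rw [← h1, ← h2, insP_nm hc hq h hb, Finset.card_insert_of_notMem]
  exact fun h' => hb (Sys.mem_nm.1 h')

theorem insP_dl_self : (insP c q b X).dl b = X := by
  have h1 := PW.dl_not_mem X b hb
  rw [← h1]
  apply PW.ext
  show (insP c q b (X.dl b)).x.filter (offA b) = X.x.filter (offA b)
  rw [h1, insP_x hc hq h hb]
  unfold ins2
  rw [insB_filter_neg _ _ (by simp [offA]), insB_filter_neg _ _ (by simp [offA])]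

theorem insP_dl {a : ℕ} (hab : a ≠ b) (hac : offA a c = true) (haq : offA a q = true) :
    (insP c q b X).dl a = insP c q b (X.dl a) := by
  have hb' : b ∉ (X.dl a).ord := by
    rw [PW.ord_dl]
    exact fun h' => hb (List.mem_of_mem_erase h')
  have h' : c = q ∨ [c, q].Sublist (X.dl a).x := by
    refine h.imp id fun h2 => ?_
    have h3 := h2.filter (offA a)
    rwa [List.filter_cons_of_pos hac, List.filter_cons_of_pos haq, List.filter_nil] at h3
  have hc' : c ∈ (X.dl a).x := List.mem_filter.2 ⟨hc, hac⟩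
  have hq' : q ∈ (X.dl a).x := List.mem_filter.2 ⟨hq, haq⟩
  apply PW.ext
  rw [insP_x hc' hq' h' hb']
  show (insP c q b X).x.filter (offA a) = ins2 c q b (X.x.filter (offA a))
  rw [insP_x hc hq h hb]
  unfold ins2
  rw [insB_filter_pos _ _ haq ((offA_en a b true).2 hab.symm),
    insB_filter_pos _ _ hac ((offA_en a b false).2 hab.symm)]

theorem insP_rn (π : Perm ℕ) (hπc : rnS π c = c) (hπq : rnS π q = q) :
    (insP c q b X).rn π = insP c q (π b) (X.rn π) := by
  have hb' : π b ∉ (X.rn π).ord := by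
    rw [PW.ord_rn, List.mem_map]
    rintro ⟨a, ha, ha'⟩
    exact hb (π.injective ha' ▸ ha)
  have h' : c = q ∨ [c, q].Sublist (X.rn π).x := by
    refine h.imp id fun h2 => ?_
    have h3 := h2.map (rnS π)
    rwa [List.map_cons, List.map_cons, List.map_nil, hπc, hπq] at h3
  have hc' : c ∈ (X.rn π).x := List.mem_map.2 ⟨c, hc, hπc⟩
  have hq' : q ∈ (X.rn π).x := List.mem_map.2 ⟨q, hq, hπq⟩
  apply PW.ext
  rw [insP_x hc' hq' h' hb']
  show (insP c q b X).x.map (rnS π) = ins2 c q (π b) (X.x.map (rnS π))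
  rw [insP_x hc hq h hb]
  unfold ins2
  rw [insB_map _ (rnS π).injective, insB_map _ (rnS π).injective, hπc, hπq, rnS_en, rnS_en]

theorem rsN_insP_of_not_mem {N : Finset ℕ} (hN : b ∉ N) : rsN N (insP c q b X) = rsN N X := by
  apply PW.ext
  show (insP c q b X).x.filter (kp N) = X.x.filter (kp N)
  rw [insP_x hc hq h hb]
  unfold ins2
  rw [insB_filter_neg _ _ (by simp [hN]), insB_filter_neg _ _ (by simp [hN])]

theorem rsN_insP_of_mem {N : Finset ℕ} (hN : b ∈ N) (hc' : kp N c = true) (hq' : kp N q = true) :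
    rsN N (insP c q b X) = insP c q b (rsN N X) := by
  have hb'' : b ∉ (rsN N X).ord := fun h' =>
    notW hb false (List.mem_filter.1 ((PW.mem_ord' false).1 h')).1
  have h' : c = q ∨ [c, q].Sublist (rsN N X).x := by
    refine h.imp id fun h2 => ?_
    have h3 := h2.filter (kp N)
    rwa [List.filter_cons_of_pos hc', List.filter_cons_of_pos hq', List.filter_nil] at h3
  have hc'' : c ∈ (rsN N X).x := List.mem_filter.2 ⟨hc, hc'⟩
  have hq'' : q ∈ (rsN N X).x := List.mem_filter.2 ⟨hq, hq'⟩
  apply PW.ext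
  rw [insP_x hc'' hq'' h' hb'']
  show (insP c q b X).x.filter (kp N) = ins2 c q b (X.x.filter (kp N))
  rw [insP_x hc hq h hb]
  unfold ins2
  rw [insB_filter_pos _ _ hq' (by simp [hN]), insB_filter_pos _ _ hc' (by simp [hN])]
end

theorem rsN_x (N : Finset ℕ) (X : PW) : (rsN N X).x = X.x.filter (kp N) := rfl

theorem mem_rsN {N : Finset ℕ} {X : PW} {s : Sy} : s ∈ (rsN N X).x ↔ s ∈ X.x ∧ kp N s = true :=
  List.mem_filter

theorem nm_rsN (N : Finset ℕ) (X : PW) : W.nm (rsN N X) = W.nm X ∩ N := by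
  ext a
  rw [mem_nmW false, mem_rsN, Finset.mem_inter, mem_nmW false]
  simp

theorem ord_rsN (N : Finset ℕ) (X : PW) :
    (rsN N X).ord = X.ord.filter (fun a => decide (a ∈ N)) := by
  unfold PW.ord
  rw [rsN_x]
  generalize X.x = x
  induction x with
  | nil => rfl
  | cons s l ih =>
    rcases s with n | ⟨b, _ | _⟩
    · have h1 : fname (mr n) = none := rfl
      rw [List.filter_cons_of_pos (by simp), List.filterMap_cons_none h1,
        List.filterMap_cons_none h1, ih]
    · have h1 : fname (en b false) = some b := rfl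
      by_cases h : b ∈ N
      · rw [List.filter_cons_of_pos (by simp [h]), List.filterMap_cons_some h1,
          List.filterMap_cons_some h1, List.filter_cons_of_pos (by simpa using h), ih]
      · rw [List.filter_cons_of_neg (by simp [h]), List.filterMap_cons_some h1,
          List.filter_cons_of_neg (by simpa using h), ih]
    · have h1 : fname (en b true) = none := rfl
      by_cases h : b ∈ N
      · rw [List.filter_cons_of_pos (by simp [h]), List.filterMap_cons_none h1,
          List.filterMap_cons_none h1, ih]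
      · rw [List.filter_cons_of_neg (by simp [h]), List.filterMap_cons_none h1, ih]

theorem kp_off (N : Finset ℕ) (a : ℕ) (s : Sy) :
    (kp N s && offA a s) = kp (N.erase a) s := by
  rw [Bool.eq_iff_iff]
  rcases s with n | ⟨b, e⟩
  · simp
  · rw [Bool.and_eq_true, offA_en, kp_en, kp_en, decide_eq_true_eq, decide_eq_true_eq,
      Finset.mem_erase, and_comm]

theorem rsN_dl (N : Finset ℕ) (X : PW) (a : ℕ) : rsN N (X.dl a) = rsN (N.erase a) X := by
  apply PW.ext
  show (X.x.filter (offA a)).filter (kp N) = X.x.filter (kp (N.erase a))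
  rw [List.filter_filter]
  exact List.filter_congr fun s _ => kp_off N a s

theorem dl_rsN (N : Finset ℕ) (X : PW) (a : ℕ) : (rsN N X).dl a = rsN (N.erase a) X := by
  apply PW.ext
  show (X.x.filter (kp N)).filter (offA a) = X.x.filter (kp (N.erase a))
  rw [List.filter_filter]
  refine List.filter_congr fun s _ => ?_
  rw [Bool.and_comm]
  exact kp_off N a s

theorem rsN_rsN (N M : Finset ℕ) (X : PW) : rsN N (rsN M X) = rsN (N ∩ M) X := by
  apply PW.ext
  show (X.x.filter (kp M)).filter (kp N) = X.x.filter (kp (N ∩ M))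
  rw [List.filter_filter]
  refine List.filter_congr fun s _ => ?_
  rw [Bool.eq_iff_iff]
  rcases s with n | ⟨b, e⟩
  · simp
  · rw [Bool.and_eq_true, kp_en, kp_en, kp_en, decide_eq_true_eq, decide_eq_true_eq,
      decide_eq_true_eq, Finset.mem_inter]

theorem rsN_rn (N : Finset ℕ) (π : Perm ℕ) (X : PW) :
    rsN (N.map π.toEmbedding) (X.rn π) = (rsN N X).rn π := by
  apply PW.ext
  show (X.x.map (rnS π)).filter (kp (N.map π.toEmbedding)) = (X.x.filter (kp N)).map (rnS π)
  rw [List.filter_map]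
  congr 1
  refine List.filter_congr fun s _ => ?_
  rw [Bool.eq_iff_iff]
  rcases s with n | ⟨b, e⟩
  · simp
  · rw [Function.comp_apply, rnS_en, kp_en, kp_en, decide_eq_true_eq, decide_eq_true_eq]
    constructor
    · intro h
      obtain ⟨c, hc, hc'⟩ := Finset.mem_map.1 h
      have : c = b := π.injective hc'
      rwa [← this]
    · intro h
      exact Finset.mem_map_of_mem _ h

theorem rsN_of_subset {N : Finset ℕ} {X : PW} (h : W.nm X ⊆ N) : rsN N X = X := by
  apply PW.ext
  rw [rsN_x, List.filter_eq_self]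
  intro s hs
  rcases s with n | ⟨b, e⟩
  · rfl
  · rw [kp_en, decide_eq_true_eq]
    exact h ((mem_nmW e).2 hs)

theorem rsN_congr {N M : Finset ℕ} {X : PW} (h : W.nm X ∩ N = W.nm X ∩ M) :
    rsN N X = rsN M X := by
  apply PW.ext
  rw [rsN_x, rsN_x]
  refine List.filter_congr fun s hs => ?_
  rw [Bool.eq_iff_iff]
  rcases s with n | ⟨b, e⟩
  · simp
  · rw [kp_en, kp_en, decide_eq_true_eq, decide_eq_true_eq]
    have h1 := Finset.ext_iff.1 h b
    rw [Finset.mem_inter, Finset.mem_inter] at h1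
    have h2 : b ∈ W.nm X := (mem_nmW e).2 hs
    exact ⟨fun h3 => (h1.1 ⟨h2, h3⟩).2, fun h3 => (h1.2 ⟨h2, h3⟩).2⟩

theorem rnS_fix {F : Finset ℕ} {π : Perm ℕ} (h : ∀ a ∈ F, π a = a) {Y : PW} (hY : W.nm Y ⊆ F) :
    (∀ s ∈ Y.x, rnS π s = s) ∧ Y.rn π = Y := by
  have h1 : ∀ s ∈ Y.x, rnS π s = s := by
    intro s hs
    rcases s with n | ⟨b, e⟩
    · rfl
    · rw [rnS_en, h b (hY ((mem_nmW e).2 hs))]
  refine ⟨h1, ?_⟩
  apply PW.ext
  show Y.x.map (rnS π) = Y.x
  conv_rhs => rw [← List.map_id Y.x]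
  exact List.map_congr_left fun s hs => h1 s hs

end Pool.Agent.TH286.J846
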