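import Pool.Agent.TH547.Arc.Geo

/-!
# Owners of symbols in words, cyclic permutation of subwords (job 795 of MP_e5080e_gt)
-/

set_option autoImplicit false
namespace Pool.Agent.TH286.J795
open Pool.Agent.TH547.Arc
open Finset Equiv

theorem own_nil (μ : List Sy) (s : Sy) : own μ [] s = none := rfl

theorem own_cons_ne (μ x : List Sy) {s t : Sy} (h : t ≠ s) : own μ (t :: x) s = own μ x s := by
  unfold own
  rw [List.dropWhile_cons_of_pos (by simpa using h)]

theorem own_cons_self (μ x : List Sy) (s : Sy) :
    own μ (s :: x) s = (s :: x).find? (fun t => decide (t ∈ μ)) := by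
  unfold own
  rw [List.dropWhile_cons_of_neg (by simp)]

theorem own_append (μ : List Sy) {l1 : List Sy} (x : List Sy) {s : Sy} (h : s ∉ l1) :
    own μ (l1 ++ x) s = own μ x s := by
  induction l1 with
  | nil => rfl
  | cons t l1 ih =>
    rw [List.mem_cons, not_or] at h
    rw [List.cons_append, own_cons_ne μ _ (fun e => h.1 e.symm), ih h.2]

theorem own_mid (μ : List Sy) {l1 : List Sy} (l2 : List Sy) {s : Sy} (h : s ∉ l1) :
    own μ (l1 ++ s :: l2) s = (s :: l2).find? (fun t => decide (t ∈ μ)) := by
  rw [own_append μ _ h, own_cons_self]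

theorem own_not_mem (μ : List Sy) {x : List Sy} {s : Sy} (h : s ∉ x) : own μ x s = none := by
  have := own_append μ [] h
  rwa [List.append_nil, own_nil] at this

/-- first occurrence -/
theorem first_occ {x : List Sy} {s : Sy} (h : s ∈ x) : ∃ l1 l2, s ∉ l1 ∧ x = l1 ++ s :: l2 := by
  induction x with
  | nil => simp at h
  | cons t x ih =>
    by_cases hts : t = s
    · subst hts
      exact ⟨[], x, by simp, rfl⟩
    · have : s ∈ x := by
        rcases List.mem_cons.1 h with e | e
        · exact absurd e.symm hts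
        · exact e
      obtain ⟨l1, l2, h1, h2⟩ := ih this
      refine ⟨t :: l1, l2, ?_, by rw [h2]; rfl⟩
      rw [List.mem_cons, not_or]
      exact ⟨fun e => hts e.symm, h1⟩

theorem find_skip (μ l2 l3 : List Sy) (h : ∀ t ∈ l2, t ∉ μ) :
    (l2 ++ l3).find? (fun t => decide (t ∈ μ)) = l3.find? (fun t => decide (t ∈ μ)) := by
  rw [List.find?_append, List.find?_eq_none.2 (by simpa using h)]
  rfl

theorem find_mid (μ l2 l3 : List Sy) {m : Sy} (h : ∀ t ∈ l2, t ∉ μ) (hm : m ∈ μ) :
    (l2 ++ m :: l3).find? (fun t => decide (t ∈ μ)) = some m := by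
  rw [find_skip μ l2 _ h, List.find?_cons_of_pos (by simpa using hm)]

theorem own_self {μ x : List Sy} {s : Sy} (h1 : s ∈ μ) (h2 : s ∈ x) : own μ x s = some s := by
  obtain ⟨l1, l2, h3, rfl⟩ := first_occ h2
  rw [own_mid μ l2 h3, List.find?_cons_of_pos (by simpa using h1)]

/-- the owner is the first symbol of `μ` at or after `s` -/
theorem own_iff {μ x : List Sy} {s m : Sy} : own μ x s = some m ↔
    ∃ l1 l2 l3 : List Sy, s ∉ l1 ∧ (∀ t ∈ l2, t ∉ μ) ∧ m ∈ μ ∧ x = l1 ++ (l2 ++ m :: l3) ∧
      (s = m ∧ l2 = [] ∨ l2.head? = some s) := by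
  constructor
  · intro h
    have hs : s ∈ x := by
      by_contra hs
      rw [own_not_mem μ hs] at h
      exact absurd h (by simp)
    obtain ⟨l1, l', h1, rfl⟩ := first_occ hs
    rw [own_mid μ l' h1] at h
    obtain ⟨hm, l2, l3, h2, h3⟩ := List.find?_eq_some_iff_append.1 h
    refine ⟨l1, l2, l3, h1, by simpa using h3, by simpa using hm, by rw [h2], ?_⟩
    rcases l2 with _ | ⟨t, l2⟩
    · rw [List.nil_append] at h2
      exact Or.inl ⟨(List.cons.inj h2).1, rfl⟩
    · rw [List.cons_append] at h2
      right
      rw [(List.cons.inj h2).1]; rfl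
  · rintro ⟨l1, l2, l3, h1, h2, h3, rfl, h4⟩
    rcases h4 with ⟨rfl, rfl⟩ | h4
    · rw [List.nil_append, own_mid μ l3 h1, List.find?_cons_of_pos (by simpa using h3)]
    · rcases l2 with _ | ⟨t, l2⟩
      · simp at h4
      · have : t = s := by simpa using h4
        subst this
        rw [List.cons_append, own_mid μ _ h1, ← List.cons_append]
        exact find_mid μ _ _ h2 h3

theorem own_spec {μ x : List Sy} {s m : Sy} (h : own μ x s = some m) :
    m ∈ μ ∧ m ∈ x ∧ s ∈ x ∧ (s = m ∨ [s, m].Sublist x) := by
  obtain ⟨l1, l2, l3, h1, h2, h3, rfl, h4⟩ := own_iff.1 h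
  refine ⟨h3, by simp, ?_, ?_⟩
  · rcases h4 with ⟨rfl, rfl⟩ | h4
    · simp
    · have : s ∈ l2 := List.mem_of_mem_head? (by rw [h4]; rfl)
      simp [this]
  · rcases h4 with ⟨rfl, rfl⟩ | h4
    · exact Or.inl rfl
    · right
      have h5 : s ∈ l2 := List.mem_of_mem_head? (by rw [h4]; rfl)
      have h6 : [s, m] = [] ++ ([s] ++ [m]) := rfl
      rw [h6]
      refine List.Sublist.append (List.nil_sublist _) (List.Sublist.append ?_ ?_)
      · exact List.singleton_sublist.2 h5
      · exact List.singleton_sublist.2 (by simp)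

theorem find_filter (μ x : List Sy) {f : Sy → Bool} (hf : ∀ t ∈ μ, t ∈ x → f t = true) :
    (x.filter f).find? (fun t => decide (t ∈ μ)) = x.find? (fun t => decide (t ∈ μ)) := by
  induction x with
  | nil => rfl
  | cons t x ih =>
    have ih' := ih (fun u h1 h2 => hf u h1 (List.mem_cons_of_mem _ h2))
    by_cases h : f t = true
    · rw [List.filter_cons_of_pos h]
      by_cases h' : t ∈ μ
      · rw [List.find?_cons_of_pos (by simpa using h'), List.find?_cons_of_pos (by simpa using h')]
      · rw [List.find?_cons_of_neg (by simpa using h'), List.find?_cons_of_neg (by simpa using h'),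
          ih']
    · rw [List.filter_cons_of_neg h, ih', List.find?_cons_of_neg]
      intro h'
      exact h (hf t (by simpa using h') (by simp))

theorem own_filter {μ x : List Sy} {f : Sy → Bool} (hf : ∀ t ∈ μ, t ∈ x → f t = true) {s : Sy}
    (hs : f s = true) : own μ (x.filter f) s = own μ x s := by
  induction x with
  | nil => rfl
  | cons t x ih =>
    have ih' := ih (fun u h1 h2 => hf u h1 (List.mem_cons_of_mem _ h2))
    by_cases hts : t = s
    · subst hts
      rw [own_cons_self, ← find_filter μ (t :: x) hf, List.filter_cons_of_pos hs, own_cons_self]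
    · rw [own_cons_ne μ x hts]
      by_cases h : f t = true
      · rw [List.filter_cons_of_pos h, own_cons_ne μ _ hts, ih']
      · rw [List.filter_cons_of_neg h, ih']

theorem own_trans {μ ν x : List Sy} (hx : x.Nodup) (h : ∀ t ∈ μ, t ∈ ν) {s m : Sy}
    (hm : own ν x s = some m) : own μ x s = own μ x m := by
  obtain ⟨l1, l2, l3, h1, h2, h3, rfl, h4⟩ := own_iff.1 hm
  rcases h4 with ⟨rfl, rfl⟩ | h4
  · rfl
  · rcases l2 with _ | ⟨t, l2⟩
    · simp at h4
    · have : t = s := by simpa using h4
      subst this
      have e1 : l1 ++ (t :: l2 ++ m :: l3) = (l1 ++ t :: l2) ++ m :: l3 := by simp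
      have hm' : m ∉ l1 ++ t :: l2 := by
        rw [e1] at hx
        intro hmem
        have := List.disjoint_of_nodup_append hx hmem
        simp at this
      have e2 : own μ (l1 ++ (t :: l2 ++ m :: l3)) m = (m :: l3).find? (fun t => decide (t ∈ μ)) := by
        rw [e1, own_mid μ l3 hm']
      rw [e2, List.cons_append, own_mid μ _ h1, ← List.cons_append]
      exact find_skip μ _ _ (fun u hu hu' => h2 u hu (h u hu'))

theorem own_exists {μ x : List Sy} {s : Sy} (hs : s ∈ x)
    (hl : ∃ (l : List Sy) (m : Sy), x = l ++ [m] ∧ m ∈ μ) : ∃ m, own μ x s = some m := by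
  obtain ⟨l, m, hx, hm⟩ := hl
  obtain ⟨l1, l2, h1, rfl⟩ := first_occ hs
  rw [own_mid μ l2 h1]
  have hmem : m ∈ s :: l2 := by
    have e1 : (l1 ++ s :: l2).getLast? = some m := by rw [hx]; simp
    rw [List.getLast?_append] at e1
    have e2 : (s :: l2).getLast? = some m := by
      cases h : (s :: l2).getLast? with
      | none => simp at h
      | some v =>
        rw [h] at e1
        simpa using e1
    exact List.mem_of_mem_getLast? (by rw [e2]; rfl)
  have : ((s :: l2).find? (fun t => decide (t ∈ μ))).isSome := by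
    rw [List.find?_isSome]
    exact ⟨m, hmem, by simpa using hm⟩
  exact Option.isSome_iff_exists.1 this

theorem own_insB_new {μ x : List Sy} {s t : Sy} (hx : x.Nodup) (hs : s ∉ x) (ht : t ∈ x)
    (hsμ : s ∉ μ) : own μ (insB t s x) s = own μ x t := by
  obtain ⟨l1, l2, h1, rfl⟩ := first_occ ht
  have h2 : t ∉ l2 := (List.nodup_cons.1 (List.Nodup.of_append_right hx)).1
  have hs1 : s ∉ l1 := fun e => hs (by simp [e])
  rw [insB_split s h1 h2, own_mid μ _ hs1, own_mid μ _ h1,
    List.find?_cons_of_neg (by simpa using hsμ)]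

theorem own_insB_old {μ x : List Sy} {s t u : Sy} (hx : x.Nodup) (hs : s ∉ x) (hu : u ∈ x)
    (hsμ : s ∉ μ) : own μ (insB t s x) u = own μ x u := by
  have _hx := hx
  have hfu : (fun v : Sy => decide (v ≠ s)) u = true := by
    have : u ≠ s := fun e => hs (e ▸ hu)
    simpa using this
  have h1 := own_filter (μ := μ) (x := insB t s x) (f := fun v => decide (v ≠ s)) (s := u)
    (fun v hv _ => by
      have : v ≠ s := fun e => hsμ (e ▸ hv)
      simpa using this) hfu
  rw [← h1, insB_filter_neg x _ (by simp)]
  congr 1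
  rw [List.filter_eq_self]
  intro v hv
  have : v ≠ s := fun e => hs (e ▸ hv)
  simpa using this

theorem own_map {μ x : List Sy} {f : Sy → Sy} (hf : Function.Injective f) (s : Sy) :
    own (μ.map f) (x.map f) (f s) = (own μ x s).map f := by
  have hfind : ∀ l : List Sy, (l.map f).find? (fun t => decide (t ∈ μ.map f)) =
      (l.find? (fun t => decide (t ∈ μ))).map f := by
    intro l
    rw [List.find?_map]
    congr 2
    funext t
    rw [Bool.eq_iff_iff]
    simp only [Function.comp_apply, decide_eq_true_eq]
    exact List.mem_map_of_injective hf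
  induction x with
  | nil => rfl
  | cons t x ih =>
    by_cases hts : t = s
    · subst hts
      rw [List.map_cons, own_cons_self, own_cons_self, ← List.map_cons]
      exact hfind _
    · rw [List.map_cons, own_cons_ne _ _ (fun e => hts (hf e)), own_cons_ne _ _ hts, ih]

/-- the next symbol -/
theorem next_of {l1 l2 r : List Sy} {u t : Sy} (hx : (l1 ++ u :: l2).Nodup)
    (h : l2 ++ l1 = t :: r) : (l1 ++ u :: l2).formPerm u = t := by
  have h1 := List.formPerm_eq_of_isRotated hx (List.isRotated_append (l := l1) (l' := u :: l2))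
  have h2 : (u :: l2 ++ l1).Nodup :=
    (List.isRotated_append (l := l1) (l' := u :: l2)).perm.nodup_iff.1 hx
  rw [h1]
  rw [List.cons_append, h] at h2 ⊢
  exact List.formPerm_apply_head u t r h2

theorem next_nil {l1 l2 : List Sy} {u : Sy} (h : l2 ++ l1 = []) :
    (l1 ++ u :: l2).formPerm u = u := by
  rw [List.append_eq_nil_iff] at h
  obtain ⟨rfl, rfl⟩ := h
  simp

/-- owners and the cyclic permutation: a symbol which is not a marker -/
theorem own_formPerm {μ x : List Sy} (hx : x.Nodup) {u : Sy} (hu : u ∈ x) (huμ : u ∉ μ)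
    (hl : ∃ (l : List Sy) (m : Sy), x = l ++ [m] ∧ m ∈ μ) :
    own μ x (x.formPerm u) = own μ x u := by
  obtain ⟨l, m, hxl, hm⟩ := hl
  obtain ⟨l1, l2, h1, rfl⟩ := first_occ hu
  rcases l2 with _ | ⟨t, l2⟩
  · exfalso
    have := List.append_inj_right' hxl rfl
    simp only [List.cons.injEq, and_true] at this
    exact huμ (this ▸ hm)
  · rw [next_of hx (t := t) (r := l2 ++ l1) rfl, own_mid μ _ h1,
      List.find?_cons_of_neg (by simpa using huμ)]
    have e1 : l1 ++ u :: t :: l2 = (l1 ++ [u]) ++ t :: l2 := by simp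
    have ht : t ∉ l1 ++ [u] := by
      rw [e1] at hx
      intro hmem
      have := List.disjoint_of_nodup_append hx hmem
      simp at this
    rw [e1, own_mid μ _ ht]

/-- owners and the cyclic permutation: a marker -/
theorem own_formPerm_marker {μ x : List Sy} (hx : x.Nodup)
    (hf : x.filter (fun t => decide (t ∈ μ)) = μ) {u : Sy} (hu : u ∈ μ)
    (hl : ∃ (l : List Sy) (m : Sy), x = l ++ [m] ∧ m ∈ μ) :
    own μ x (x.formPerm u) = some (μ.formPerm u) := by
  have hux : u ∈ x := by
    rw [← hf] at hu
    exact List.mem_of_mem_filter hu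
  have hμnd : μ.Nodup := by
    rw [← hf]; exact hx.filter _
  obtain ⟨l, m, hxl, hm⟩ := hl
  obtain ⟨l1, l2, h1, hx2⟩ := first_occ hux
  have hμ2 : μ = l1.filter (fun t => decide (t ∈ μ)) ++ u :: l2.filter (fun t => decide (t ∈ μ)) := by
    conv_lhs => rw [← hf, hx2, List.filter_append, List.filter_cons_of_pos (by simpa using hu)]
  have hhead : ∀ l : List Sy, l.find? (fun t => decide (t ∈ μ)) =
      (l.filter (fun t => decide (t ∈ μ))).head? := fun l => List.head?_filter.symm
  -- next symbol in μ
  have key : ∀ (t : Sy) (r : List Sy), l2.filter (fun t => decide (t ∈ μ)) ++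
      l1.filter (fun t => decide (t ∈ μ)) = t :: r → μ.formPerm u = t := by
    intro t r h
    have h2 := hμnd
    rw [hμ2] at h2
    have := next_of h2 h
    rw [← hμ2] at this
    exact this
  have key0 : l2.filter (fun t => decide (t ∈ μ)) ++
      l1.filter (fun t => decide (t ∈ μ)) = [] → μ.formPerm u = u := by
    intro h
    have := next_nil (u := u) h
    rwa [← hμ2] at this
  rcases l2 with _ | ⟨t, l2⟩
  · -- `u` is the last symbol
    rw [List.filter_nil, List.nil_append] at key key0
    rcases l1 with _ | ⟨t, l1⟩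
    · have h3 : x.formPerm u = u := by rw [hx2]; exact next_nil rfl
      rw [h3, key0 rfl]
      exact own_self hu hux
    · have h3 : x.formPerm u = t := by
        rw [hx2]
        exact next_of (hx2 ▸ hx) rfl
      have h5 : [u].filter (fun t => decide (t ∈ μ)) = [u] := by
        rw [List.filter_cons_of_pos (by simpa using hu), List.filter_nil]
      rw [h3, hx2, List.cons_append, own_cons_self, hhead, ← List.cons_append,
        List.filter_append, h5]
      cases h4 : (t :: l1).filter (fun t => decide (t ∈ μ)) with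
      | nil =>
        rw [key0 h4]; rfl
      | cons v r =>
        rw [key v r h4]; rfl
  · have h3 : x.formPerm u = t := by
      rw [hx2]
      exact next_of (hx2 ▸ hx) rfl
    have e1 : x = (l1 ++ [u]) ++ t :: l2 := by rw [hx2]; simp
    have ht : t ∉ l1 ++ [u] := by
      rw [e1] at hx
      intro hmem
      have := List.disjoint_of_nodup_append hx hmem
      simp at this
    have e2 : own μ x t = (t :: l2).find? (fun t => decide (t ∈ μ)) := by
      rw [e1, own_mid μ _ ht]
    rw [h3, e2, hhead]
    have hmem : m ∈ t :: l2 := by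
      have e3 : x.getLast? = some m := by rw [hxl]; simp
      rw [e1, List.getLast?_append] at e3
      have e4 : (t :: l2).getLast? = some m := by
        cases h : (t :: l2).getLast? with
        | none => simp at h
        | some v =>
          rw [h] at e3
          simpa using e3
      exact List.mem_of_mem_getLast? (by rw [e4]; rfl)
    cases h4 : (t :: l2).filter (fun t => decide (t ∈ μ)) with
    | nil =>
      exfalso
      have : m ∈ (t :: l2).filter (fun t => decide (t ∈ μ)) :=
        List.mem_filter.2 ⟨hmem, by simpa using hm⟩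
      rw [h4] at this
      simp at this
    | cons v r =>
      rw [key v (r ++ l1.filter (fun t => decide (t ∈ μ))) (by rw [h4]; rfl)]
      rfl

/-- the cyclic permutation of a sub word -/
theorem formPerm_filter {x : List Sy} (hx : x.Nodup) {f : Sy → Bool} {u : Sy} (hu : u ∈ x)
    (hfu : f u = true) (h : f (x.formPerm u) = true) :
    (x.filter f).formPerm u = x.formPerm u := by
  obtain ⟨l1, l2, h1, rfl⟩ := first_occ hu
  have hnd : ((l1 ++ u :: l2).filter f).Nodup := hx.filter _
  rw [List.filter_append, List.filter_cons_of_pos hfu] at hnd ⊢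
  cases h2 : l2 ++ l1 with
  | nil =>
    rw [next_nil h2]
    rw [List.append_eq_nil_iff] at h2
    obtain ⟨rfl, rfl⟩ := h2
    simp
  | cons t r =>
    have h3 := next_of hx h2
    rw [h3] at h ⊢
    refine next_of hnd (r := r.filter f) ?_
    rw [← List.filter_append, h2, List.filter_cons_of_pos h]

end Pool.Agent.TH286.J795
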