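import Pool.Agent.TH331.RZ.Defs2
import Pool.Agent.Helper88.SE.P_sg_prob
import Pool.Agent.Helper88.SE.P_chart_meas
import Pool.Agent.TH897.J237
import Pool.Agent.TH73.J499

/-!
# Cell lemma applied to the rotated configuration (job 500, RZ-C2)
-/

set_option autoImplicit false

open MeasureTheory Set Filter Topology
open scoped ENNReal Real FourierTransform

namespace Pool.Agent.TH286.J500

open Pool.Agent.Helper88.SE Pool.Agent.TH331.RZ

section

variable {d : ℕ} {V : Type} [NormedAddCommGroup V] [NormedSpace ℝ V]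

/-- sum over the points minus `N` times the mean -/
noncomputable def DI {N : ℕ} (y : Fin N → S d) (F : S d → V) : V :=
  ∑ i, F (y i) - (N : ℝ) • ∫ u, F u ∂(sg d)

theorem dI_eq [CompleteSpace V] {N : ℕ} (y : Fin N → S d) (F : E d → V) :
    dI (muC y) (nuC d N) F = DI y (fun u => F u) := by
  unfold dI muC nuC DI
  have hemb : MeasurableEmbedding (Subtype.val : S d → E d) :=
    MeasurableEmbedding.subtype_coe (Metric.isClosed_sphere.measurableSet)
  rw [integral_finsetSum_measure, integral_smul_measure, hemb.integral_map]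
  · simp only [integral_dirac, ENNReal.toReal_natCast]
  · intro i _
    exact integrable_dirac (by simp)

end

section law

variable {d : ℕ} {Ω : Type} [MeasurableSpace Ω] (P : Measure Ω) (G : Ω → Iso d)

theorem meas_rot (hG : Measurable (fun p : Ω × S d => rot (G p.1) p.2)) (x : S d) :
    Measurable fun ω => rot (G ω) x :=
  hG.comp (measurable_id.prodMk measurable_const)

theorem map_law (hG : Measurable (fun p : Ω × S d => rot (G p.1) p.2))
    (hlaw : ∀ (x : S d) (h : S d → ℝ≥0∞), Measurable h →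
        ∫⁻ ω, h (rot (G ω) x) ∂P = ∫⁻ y, h y ∂(sg d)) (x : S d) :
    P.map (fun ω => rot (G ω) x) = sg d := by
  ext s hs
  have h1 := hlaw x (s.indicator 1) (measurable_one.indicator hs)
  rw [lintegral_indicator_one hs] at h1
  rw [Measure.map_apply (meas_rot G hG x) hs, ← h1,
    ← lintegral_indicator_one ((meas_rot G hG x) hs)]
  rfl

theorem int_law (hG : Measurable (fun p : Ω × S d => rot (G p.1) p.2))
    (hlaw : ∀ (x : S d) (h : S d → ℝ≥0∞), Measurable h →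
        ∫⁻ ω, h (rot (G ω) x) ∂P = ∫⁻ y, h y ∂(sg d)) (x : S d)
    {V : Type} [NormedAddCommGroup V] [NormedSpace ℝ V] (F : S d → V)
    (hF : StronglyMeasurable F) :
    ∫ ω, F (rot (G ω) x) ∂P = ∫ u, F u ∂(sg d) := by
  rw [← map_law P G hG hlaw x, integral_map (meas_rot G hG x).aemeasurable
    hF.aestronglyMeasurable]

end law

section quad

variable {d : ℕ} {H : Type} [NormedAddCommGroup H] [InnerProductSpace ℝ H] [CompleteSpace H]

theorem inner_DI {N : ℕ} (y : Fin N → S d) (F : S d → H) (hF : Integrable F (sg d)) (c : H) :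
    inner ℝ c (DI y F) = DI y (fun u => (inner ℝ c (F u) : ℝ)) := by
  unfold DI
  rw [inner_sub_right, inner_sum, real_inner_smul_right, ← integral_inner hF c]
  rfl

theorem quad {N : ℕ} (y : Fin N → S d) (F F' : S d → H) (k : ℝ) (hF : Integrable F (sg d))
    (hF' : Integrable F' (sg d))
    (h : ∀ u v, (inner ℝ (F u) (F v) : ℝ) = k * inner ℝ (F' u) (F' v)) :
    ‖DI y F‖ ^ 2 = k * ‖DI y F'‖ ^ 2 := by
  have h1 : ∀ (F0 : S d → ℝ), DI y (fun u => k * F0 u) = k * DI y F0 := by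
    intro F0
    unfold DI
    rw [integral_const_mul, ← Finset.mul_sum, smul_eq_mul, smul_eq_mul]
    ring
  have h2 : ∀ u, (inner ℝ (F u) (DI y F) : ℝ) = k * inner ℝ (F' u) (DI y F') := by
    intro u
    rw [inner_DI y F hF, inner_DI y F' hF', ← h1]
    congr 1
    funext v
    exact h u v
  rw [← real_inner_self_eq_norm_sq, ← real_inner_self_eq_norm_sq, inner_DI y F hF,
    inner_DI y F' hF', ← h1]
  congr 1
  funext u
  rw [real_inner_comm, h2, real_inner_comm]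

omit [CompleteSpace H] in
theorem polar {a : ℝ} (Φ : E d → H) (hΦ : ∀ u v, ‖Φ u - Φ v‖ ^ 2 = ‖u - v‖ ^ a)
    (x y p : E d) : (inner ℝ (Φ x - Φ p) (Φ y - Φ p) : ℝ) =
      (‖x - p‖ ^ a + ‖y - p‖ ^ a - ‖x - y‖ ^ a) / 2 := by
  have h1 := norm_sub_sq_real (Φ x - Φ p) (Φ y - Φ p)
  rw [sub_sub_sub_cancel_right, hΦ, hΦ, hΦ] at h1
  linarith

end quad

/-- geometry of the cell at `t` -/
theorem geom {d : ℕ} (f : E d → ℝ) (δ : ℝ) (hδ : 0 < δ)
    (hfδ : ∀ x : E d, (∃ i, 1 / 2 - δ ≤ |x i|) → f x = 0) (l r : ℝ)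
    (hl : 4 * Real.sqrt ((d:ℝ) + 1) ≤ l) (hr : 0 < r) (hr1 : r ≤ 1) (t : E d)
    (ht : |‖t‖ - l / r| ≤ Real.sqrt ((d:ℝ) + 1)) :
    ((nrm t : E d) + r • (l⁻¹ • zsh l (l / r) t - (nrm t : E d)) = (r / l) • t) ∧
    (∀ u : S d, f (l • (u : E d) - zsh l (l / r) t) ≠ 0 →
      dist u (nrm t) ≤ 2 * Real.sqrt ((d:ℝ) + 1) / l ∧
      ‖(u : E d) - l⁻¹ • zsh l (l / r) t‖ ≤ Real.sqrt ((d:ℝ) + 1) / l) := by
  set D : ℝ := Real.sqrt ((d:ℝ) + 1) with hD
  have hD1 : 1 ≤ D := by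
    rw [hD, Real.one_le_sqrt]
    have : (0 : ℝ) ≤ d := Nat.cast_nonneg d
    linarith
  have hl0 : 0 < l := by linarith
  have hlr : l ≤ l / r := by
    rw [le_div_iff₀ hr]
    nlinarith
  have htn : 0 < ‖t‖ := by
    have := (abs_le.1 ht).1
    linarith
  have ht0 : t ≠ 0 := norm_pos_iff.1 htn
  have hq : (nrm t : E d) = ‖t‖⁻¹ • t := by
    unfold nrm
    rw [dif_neg ht0]
  have hq1 : ‖(nrm t : E d)‖ = 1 := by simp
  have hz : zsh l (l / r) t = (‖t‖ - l / r + l) • (nrm t : E d) := by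
    unfold zsh
    rw [hq, smul_smul]
    have h1 : t - ((l / r - l) / ‖t‖) • t = (1 - (l / r - l) / ‖t‖) • t := by
      rw [sub_smul, one_smul]
    rw [h1]
    congr 1
    field_simp
    ring
  have htq : t = ‖t‖ • (nrm t : E d) := by
    rw [hq, smul_smul, mul_inv_cancel₀ htn.ne', one_smul]
  refine ⟨?_, ?_⟩
  · rw [hz]
    have h1 : (r / l) • t = (r / l * ‖t‖) • (nrm t : E d) := by
      conv_lhs => rw [htq]
      rw [smul_smul]
    rw [h1, smul_smul, smul_sub, smul_smul]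
    have h2 : (nrm t : E d) + ((r * (l⁻¹ * (‖t‖ - l / r + l))) • (nrm t : E d) -
        r • (nrm t : E d)) = (1 + r * (l⁻¹ * (‖t‖ - l / r + l)) - r) • (nrm t : E d) := by
      rw [sub_smul, add_smul, one_smul]
      abel
    rw [h2]
    congr 1
    field_simp
    ring
  · intro u hu
    have hcoord : ∀ i, |(l • (u : E d) - zsh l (l / r) t) i| < 1 / 2 := by
      intro i
      by_contra hcon
      push Not at hcon
      exact hu (hfδ _ ⟨i, by linarith⟩)
    have hn : ‖l • (u : E d) - zsh l (l / r) t‖ ≤ D := by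
      rw [EuclideanSpace.norm_eq, hD]
      apply Real.sqrt_le_sqrt
      calc ∑ i, ‖(l • (u : E d) - zsh l (l / r) t) i‖ ^ 2 ≤ ∑ i : Fin (d + 1), (1 : ℝ) := by
            apply Finset.sum_le_sum
            intro i _
            have h1 := hcoord i
            rw [Real.norm_eq_abs]
            have h2 := abs_nonneg ((l • (u : E d) - zsh l (l / r) t) i)
            nlinarith
        _ = (d : ℝ) + 1 := by simp
    have hzq : ‖zsh l (l / r) t - l • (nrm t : E d)‖ ≤ D := by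
      rw [hz, ← sub_smul, norm_smul, hq1, mul_one, Real.norm_eq_abs]
      rw [show ‖t‖ - l / r + l - l = ‖t‖ - l / r by ring]
      exact ht
    constructor
    · have h1 : ‖l • (u : E d) - l • (nrm t : E d)‖ ≤ 2 * D := by
        calc ‖l • (u : E d) - l • (nrm t : E d)‖ =
            ‖(l • (u : E d) - zsh l (l / r) t) + (zsh l (l / r) t - l • (nrm t : E d))‖ := by
              congr 1; abel
          _ ≤ D + D := (norm_add_le _ _).trans (add_le_add hn hzq)
          _ = 2 * D := by ring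
      rw [← smul_sub, norm_smul, Real.norm_of_nonneg hl0.le] at h1
      rw [le_div_iff₀ hl0, Subtype.dist_eq, dist_eq_norm]
      linarith
    · have h1 : (u : E d) - l⁻¹ • zsh l (l / r) t = l⁻¹ • (l • (u : E d) - zsh l (l / r) t) := by
        rw [smul_sub, smul_smul, inv_mul_cancel₀ hl0.ne', one_smul]
      rw [h1, norm_smul, norm_inv, Real.norm_of_nonneg hl0.le]
      calc l⁻¹ * ‖l • (u : E d) - zsh l (l / r) t‖ ≤ l⁻¹ * D :=
            mul_le_mul_of_nonneg_left hn (by positivity)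
        _ = D / l := (div_eq_inv_mul D l).symm

/-- the pointwise estimate -/
theorem pointwise_bound {T V Z2 M W η C1 C2 τ κ κ0 b Lr la ra κ1 : ℝ}
    (hτ : 0 < τ) (hτ1 : τ ≤ 1) (hC1 : 0 ≤ C1) (hC2 : 0 ≤ C2)
    (hκ0 : 0 ≤ κ0) (hLr : 0 ≤ Lr) (hra : 0 ≤ ra) (hla : 0 ≤ la)
    (hb : b = C1 * Lr) (hκ : κ ≤ κ0 * Lr) (hκn : 0 ≤ κ) (hη : η ≤ C2 * Lr) (hη' : η ≤ C2 * Lr * la)
    (hη0 : 0 ≤ η) (hLrla : Lr = ra * la) (hV : V = W - M)
    (hκ1 : κ1 = 2 * (8 * (1 + 1 / τ) * C2 + (100 / τ ^ 2 + 100) * C1 + κ0))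
    (hZ : Z2 ≤ (1 + τ) * (ra * T) + (1 + 1 / τ) * (η * (W + M) ^ 2)) :
    (1 + τ) ^ 2 * Z2 + 100 / τ ^ 2 * b * V ^ 2 + (100 * b + κ) * |V| ≤
      (1 + τ) ^ 3 * ra / 2 * (2 * T + κ1 * la * V ^ 2) + (100 * b + κ) +
        32 * (1 + 1 / τ) * C2 * Lr * la * M ^ 2 := by
  have h1 : (W + M) ^ 2 ≤ 2 * V ^ 2 + 8 * M ^ 2 := by
    rw [hV]
    nlinarith [sq_nonneg (W - M - 2 * M)]
  have h2 : |V| ≤ 1 + V ^ 2 := by
    rw [← sq_abs V]
    nlinarith [sq_nonneg (|V| - 1), abs_nonneg V]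
  have hb0 : 0 ≤ b := by rw [hb]; positivity
  have hs2 : (1 + τ) ^ 2 ≤ 4 := by nlinarith
  have hs3 : 1 ≤ (1 + τ) ^ 3 := one_le_pow₀ (by linarith)
  have hti : 0 ≤ 1 / τ := by positivity
  have h3 : η * (W + M) ^ 2 ≤ 2 * (C2 * Lr) * V ^ 2 + 8 * (C2 * Lr * la) * M ^ 2 := by
    calc η * (W + M) ^ 2 ≤ η * (2 * V ^ 2 + 8 * M ^ 2) := mul_le_mul_of_nonneg_left h1 hη0
      _ = 2 * (η * V ^ 2) + 8 * (η * M ^ 2) := by ring
      _ ≤ 2 * (C2 * Lr * V ^ 2) + 8 * (C2 * Lr * la * M ^ 2) := by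
          have e1 := mul_le_mul_of_nonneg_right hη (sq_nonneg V)
          have e2 := mul_le_mul_of_nonneg_right hη' (sq_nonneg M)
          linarith
      _ = _ := by ring
  have h4 : (1 + τ) ^ 2 * ((1 + 1 / τ) * (η * (W + M) ^ 2)) ≤
      4 * ((1 + 1 / τ) * (2 * (C2 * Lr) * V ^ 2 + 8 * (C2 * Lr * la) * M ^ 2)) := by
    have e1 : 0 ≤ (1 + 1 / τ) * (η * (W + M) ^ 2) := by positivity
    calc (1 + τ) ^ 2 * ((1 + 1 / τ) * (η * (W + M) ^ 2)) ≤ 4 * ((1 + 1 / τ) * (η * (W + M) ^ 2)) :=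
          mul_le_mul_of_nonneg_right hs2 e1
      _ ≤ _ := by
          have e2 := mul_le_mul_of_nonneg_left h3 (show 0 ≤ 1 + 1 / τ by positivity)
          linarith
  have h5 : (1 + τ) ^ 2 * Z2 ≤ (1 + τ) ^ 3 * (ra * T) +
      (1 + τ) ^ 2 * ((1 + 1 / τ) * (η * (W + M) ^ 2)) := by
    have e1 := mul_le_mul_of_nonneg_left hZ (sq_nonneg (1 + τ))
    calc (1 + τ) ^ 2 * Z2 ≤ _ := e1
      _ = _ := by ring
  have h6 : (100 * b + κ) * |V| ≤ (100 * b + κ) * (1 + V ^ 2) :=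
    mul_le_mul_of_nonneg_left h2 (by positivity)
  have h7 : κ * V ^ 2 ≤ κ0 * Lr * V ^ 2 := mul_le_mul_of_nonneg_right hκ (sq_nonneg V)
  have h8 : (1 / 2) * κ1 * Lr * V ^ 2 ≤ (1 + τ) ^ 3 * ra / 2 * (κ1 * la * V ^ 2) := by
    have hκ1p : 0 ≤ κ1 := by rw [hκ1]; positivity
    have e1 : 0 ≤ ra / 2 * (κ1 * la * V ^ 2) := by positivity
    calc (1 / 2) * κ1 * Lr * V ^ 2 = 1 * (ra / 2 * (κ1 * la * V ^ 2)) := by rw [hLrla]; ring
      _ ≤ (1 + τ) ^ 3 * (ra / 2 * (κ1 * la * V ^ 2)) := mul_le_mul_of_nonneg_right hs3 e1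
      _ = _ := by ring
  have h9 : (1 / 2) * κ1 * Lr * V ^ 2 = 8 * (1 + 1 / τ) * (C2 * Lr) * V ^ 2 +
      (100 / τ ^ 2 + 100) * (C1 * Lr) * V ^ 2 + κ0 * Lr * V ^ 2 := by
    rw [hκ1]; ring
  have h10 : (1 + τ) ^ 3 * ra / 2 * (2 * T + κ1 * la * V ^ 2) =
      (1 + τ) ^ 3 * (ra * T) + (1 + τ) ^ 3 * ra / 2 * (κ1 * la * V ^ 2) := by ring
  rw [h10]
  rw [hb] at h6 ⊢
  have h11 : 4 * ((1 + 1 / τ) * (2 * (C2 * Lr) * V ^ 2 + 8 * (C2 * Lr * la) * M ^ 2)) =
      8 * (1 + 1 / τ) * (C2 * Lr) * V ^ 2 + 32 * (1 + 1 / τ) * C2 * Lr * la * M ^ 2 := by ring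
  have h12 : (100 * (C1 * Lr) + κ) * (1 + V ^ 2) =
      (100 * (C1 * Lr) + κ) + 100 * (C1 * Lr) * V ^ 2 + κ * V ^ 2 := by ring
  have h13 : (100 / τ ^ 2 + 100) * (C1 * Lr) * V ^ 2 =
      100 / τ ^ 2 * (C1 * Lr) * V ^ 2 + 100 * (C1 * Lr) * V ^ 2 := by ring
  rw [h11] at h4
  rw [h12] at h6
  rw [h13] at h9
  linarith

section bounds

variable {d : ℕ} {V : Type} [NormedAddCommGroup V] [NormedSpace ℝ V]

theorem DI_norm_le {N : ℕ} (y : Fin N → S d) (F : S d → V) (g : S d → ℝ)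
    (hg : Integrable g (sg d)) (h : ∀ u, ‖F u‖ ≤ g u) :
    ‖DI y F‖ ≤ ∑ i, g (y i) + N * ∫ u, g u ∂(sg d) := by
  unfold DI
  refine (norm_sub_le _ _).trans (add_le_add ?_ ?_)
  · exact (norm_sum_le _ _).trans (Finset.sum_le_sum fun i _ => h _)
  · rw [norm_smul, Real.norm_natCast]
    refine mul_le_mul_of_nonneg_left ?_ (Nat.cast_nonneg N)
    exact norm_integral_le_of_norm_le hg (ae_of_all _ h)

theorem DI_sub {N : ℕ} (y : Fin N → S d) (F F' : S d → V) (hF : Integrable F (sg d))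
    (hF' : Integrable F' (sg d)) : DI y (fun u => F u - F' u) = DI y F - DI y F' := by
  unfold DI
  rw [integral_sub hF hF', Finset.sum_sub_distrib, smul_sub]
  abel

variable {Ω : Type} [MeasurableSpace Ω]

theorem DI_meas {N : ℕ} (G : Ω → Iso d) (hG : Measurable (fun p : Ω × S d => rot (G p.1) p.2))
    (x : Fin N → S d) (F : S d → V) (hF : StronglyMeasurable F) :
    StronglyMeasurable fun ω => DI (fun i => rot (G ω) (x i)) F := by
  unfold DI
  refine StronglyMeasurable.sub ?_ stronglyMeasurable_const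
  exact Finset.stronglyMeasurable_fun_sum _ fun i _ => hF.comp_measurable (meas_rot G hG (x i))

theorem DI_int_sq {N : ℕ} (P : Measure Ω) [IsProbabilityMeasure P] (G : Ω → Iso d)
    (hG : Measurable (fun p : Ω × S d => rot (G p.1) p.2))
    (x : Fin N → S d) (F : S d → V) (hF : StronglyMeasurable F) (B : ℝ) (hB : ∀ u, ‖F u‖ ≤ B) :
    Integrable (fun ω => ‖DI (fun i => rot (G ω) (x i)) F‖ ^ 2) P := by
  have hsg := sg_prob d
  have hb : ∀ ω, ‖DI (fun i => rot (G ω) (x i)) F‖ ≤ N * B + N * B := by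
    intro ω
    have := DI_norm_le (fun i => rot (G ω) (x i)) F (fun _ => B) (integrable_const B) hB
    simpa using this
  refine Integrable.of_bound ((DI_meas G hG x F hF).norm.aestronglyMeasurable.pow 2)
    ((N * B + N * B) ^ 2) (ae_of_all _ fun ω => ?_)
  rw [Real.norm_of_nonneg (by positivity)]
  exact pow_le_pow_left₀ (norm_nonneg _) (hb ω) 2

end bounds

theorem int_mono4 {Ω : Type} [MeasurableSpace Ω] (P : Measure Ω) [IsProbabilityMeasure P]
    {z2 v2 va rr : Ω → ℝ} (h1 : Integrable z2 P) (h2 : Integrable v2 P) (h3 : Integrable va P)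
    (h4 : Integrable rr P) {c1 c2 c3 c4 c5 c6 : ℝ}
    (h : ∀ ω, c1 * z2 ω + c2 * v2 ω + c3 * va ω ≤ c4 * rr ω + c5 + c6) :
    c1 * ∫ ω, z2 ω ∂P + c2 * ∫ ω, v2 ω ∂P + c3 * ∫ ω, va ω ∂P ≤
      c4 * ∫ ω, rr ω ∂P + c5 + c6 := by
  have hL1 : Integrable (fun ω => c1 * z2 ω) P := h1.const_mul _
  have hL2 : Integrable (fun ω => c2 * v2 ω) P := h2.const_mul _
  have hL3 : Integrable (fun ω => c3 * va ω) P := h3.const_mul _
  have hR1 : Integrable (fun ω => c4 * rr ω) P := h4.const_mul _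
  have h12 : Integrable (fun ω => c1 * z2 ω + c2 * v2 ω) P := hL1.add hL2
  have h123 : Integrable (fun ω => c1 * z2 ω + c2 * v2 ω + c3 * va ω) P := h12.add hL3
  have h45 : Integrable (fun ω => c4 * rr ω + c5) P := hR1.add (integrable_const _)
  have h456 : Integrable (fun ω => c4 * rr ω + c5 + c6) P := h45.add (integrable_const _)
  have hmono := integral_mono h123 h456 h
  rw [integral_add h12 hL3, integral_add hL1 hL2, integral_const_mul, integral_const_mul,
    integral_const_mul, integral_add h45 (integrable_const _),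
    integral_add hR1 (integrable_const _), integral_const_mul, integral_const, integral_const,
    probReal_univ, one_smul, one_smul] at hmono
  exact hmono

set_option maxHeartbeats 4000000 in
theorem cell_t (d : ℕ) (hd : 1 ≤ d) (a : ℝ) (ha : 0 < a) (ha2 : a < 2)
    {H : Type} [NormedAddCommGroup H] [InnerProductSpace ℝ H] [CompleteSpace H]
    (Φ : E d → H) (hΦ : ∀ u v, ‖Φ u - Φ v‖ ^ 2 = ‖u - v‖ ^ a)
    (f : E d → ℝ) (hf : Continuous f) (hf0 : ∀ x, 0 ≤ f x)
    (hf1 : ∀ x, f x ≤ 1) (δ : ℝ) (hδ : 0 < δ)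
    (hfδ : ∀ x : E d, (∃ i, 1 / 2 - δ ≤ |x i|) → f x = 0)
    (τ : ℝ) (hτ : 0 < τ) (hτ1 : τ ≤ 1) (κ0 : ℝ) (hκ0 : 0 ≤ κ0) :
    ∃ A κ1 l1 : ℝ, 0 ≤ A ∧ 0 ≤ κ1 ∧ 0 < l1 ∧
    ∀ (Ω : Type) [MeasurableSpace Ω] (P : Measure Ω) [IsProbabilityMeasure P] (G : Ω → Iso d),
      Measurable (fun p : Ω × S d => rot (G p.1) p.2) →
      (∀ (x : S d) (h : S d → ℝ≥0∞), Measurable h →
        ∫⁻ ω, h (rot (G ω) x) ∂P = ∫⁻ y, h y ∂(sg d)) →
    ∀ (N : ℕ) (x : Fin N → S d) (l r : ℝ), l1 ≤ l → 0 < r → r ≤ 1 → ∀ t : E d,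
      |‖t‖ - l / r| ≤ Real.sqrt ((d:ℝ) + 1) →
    ∀ κ : ℝ, 0 ≤ κ → κ ≤ κ0 * (l / r) ^ (-a) → ∀ e : H,
      ∃ (s : Multiset (S d)) (ρ : Measure (S d)), IsFiniteMeasure ρ ∧
        (Multiset.card s : ℝ) + ρ.real univ = (mcell d N f l r t).real univ ∧
        ‖e + (s.map (fun x : S d => Φ x)).sum + (∫ x : S d, Φ x ∂ρ) -
            ∫ x : S d, Φ x ∂(mcell d N f l r t)‖ ^ 2 + κ * ρ.real univ ≤
          ‖e‖ ^ 2
          + (1 + τ) ^ 3 * r ^ a / 2 * ∫ ω, locE Φ f a κ1 (muC (fun i => rot (G ω) (x i)))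
              (nuC d N) l (zsh l (l / r) t) ∂P
          + A * (l / r) ^ (-a) * (1 + l ^ (-a) * ((mcell d N f l r t).real univ) ^ 2)
          + κ * (N * ∫ u : S d, (f (l • (u : E d) - zsh l (l / r) t) -
              {v : E d | f v = 1}.indicator (fun _ => (1:ℝ))
                (l • (u : E d) - zsh l (l / r) t)) ∂(sg d)) := by
  classical
  obtain ⟨D, hD⟩ : ∃ D : ℝ, D = Real.sqrt ((d:ℝ) + 1) := ⟨_, rfl⟩
  have hD1 : 1 ≤ D := by
    rw [hD, Real.one_le_sqrt]
    have : (0 : ℝ) ≤ d := Nat.cast_nonneg d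
    linarith
  obtain ⟨C1, hC1⟩ : ∃ C1 : ℝ, C1 = (3 * D) ^ a := ⟨_, rfl⟩
  obtain ⟨C2, hC2⟩ : ∃ C2 : ℝ, C2 = (8 * D ^ 2) ^ a := ⟨_, rfl⟩
  have hC1n : 0 ≤ C1 := by rw [hC1]; positivity
  have hC2n : 0 ≤ C2 := by rw [hC2]; positivity
  obtain ⟨κ1, hκ1⟩ : ∃ κ1 : ℝ,
      κ1 = 2 * (8 * (1 + 1 / τ) * C2 + (100 / τ ^ 2 + 100) * C1 + κ0) := ⟨_, rfl⟩
  have hκ1n : 0 ≤ κ1 := by rw [hκ1]; positivity
  refine ⟨100 * C1 + 2 * κ0 + 32 * (1 + 1 / τ) * C2, κ1, 4 * D, by positivity, hκ1n,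
    by positivity, ?_⟩
  intro Ω _ P _ G hG hlaw N x l r hl hr hr1 t ht κ hκ hκle e
  have hsg := sg_prob d
  obtain ⟨hc, hgeo⟩ := geom f δ hδ hfδ l r (hD ▸ hl) hr hr1 t ht
  rw [← hD] at hgeo
  have hl0 : 0 < l := by linarith
  have hl1 : 1 ≤ l := by linarith
  obtain ⟨q, hq⟩ : ∃ q : S d, q = nrm t := ⟨_, rfl⟩
  obtain ⟨z, hz⟩ : ∃ z : E d, z = zsh l (l / r) t := ⟨_, rfl⟩
  obtain ⟨c, hcdef⟩ : ∃ c : E d, c = (r / l) • t := ⟨_, rfl⟩
  have hmc : mcell d N f l r t = (N : ℝ≥0∞) • ((sg d).withDensity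
    (fun u => ENNReal.ofReal (f (l • (u : E d) - z)))).map (psi q r) := by
    rw [hz, hq]; rfl
  rw [← hz]
  rw [← hz, ← hq, ← hcdef] at hc
  rw [← hz, ← hq] at hgeo
  obtain ⟨w, hw⟩ : ∃ w : S d → ℝ, w = fun u : S d => f (l • (u : E d) - z) := ⟨_, rfl⟩
  have hwv : ∀ u : S d, f (l • (u : E d) - z) = w u := fun u => by rw [hw]
  have hwc : Continuous w := by
    rw [hw]
    exact hf.comp ((continuous_subtype_val.const_smul l).sub continuous_const)
  have hw0 : ∀ u, 0 ≤ w u := fun u => by rw [hw]; exact hf0 _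
  have hw1 : ∀ u, w u ≤ 1 := fun u => by rw [hw]; exact hf1 _
  have hgeo' : ∀ u : S d, w u ≠ 0 → dist u q ≤ 2 * D / l ∧ ‖(u : E d) - l⁻¹ • z‖ ≤ D / l := by
    intro u hu
    exact hgeo u (by rw [hwv]; exact hu)
  simp only [hwv] at hmc
  have hψm : Measurable (psi q r) := (chart_meas d q r 1 hr).1
  have hΦc : Continuous Φ := Pool.Agent.TH897.J237.continuous_of_holder ha Φ hΦ
  have hΦS : Continuous fun u : S d => Φ u := hΦc.comp continuous_subtype_val
  have hΦψ : StronglyMeasurable fun u : S d => Φ (psi q r u) :=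
    hΦS.comp_stronglyMeasurable hψm.stronglyMeasurable
  have hws : StronglyMeasurable w := hwc.stronglyMeasurable
  have hwint : Integrable w (sg d) := Integrable.of_bound hws.aestronglyMeasurable 1
    (ae_of_all _ fun u => by rw [Real.norm_of_nonneg (hw0 u)]; exact hw1 u)
  -- bound for Φ on bounded sets
  have hΦb : ∀ x : E d, ‖x‖ ≤ 1 → ‖Φ x‖ ≤ ‖Φ 0‖ + 1 := by
    intro x hx
    have h1 : ‖Φ x - Φ 0‖ ^ 2 ≤ 1 := by
      rw [hΦ, sub_zero]
      exact Real.rpow_le_one (norm_nonneg _) hx ha.le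
    have h2 : ‖Φ x - Φ 0‖ ≤ 1 := by
      have := norm_nonneg (Φ x - Φ 0)
      nlinarith
    have h3 : ‖Φ x‖ ≤ ‖Φ x - Φ 0‖ + ‖Φ 0‖ := by
      have := norm_add_le (Φ x - Φ 0) (Φ 0)
      rwa [sub_add_cancel] at this
    linarith
  have hS1 : ∀ u : S d, ‖(u : E d)‖ ≤ 1 := fun u => by simp
  -- the mass of the cell
  obtain ⟨M, hMdef⟩ : ∃ M : ℝ, M = N * ∫ u, w u ∂(sg d) := ⟨_, rfl⟩
  have hM0 : 0 ≤ M := by
    rw [hMdef]
    exact mul_nonneg (Nat.cast_nonneg N) (integral_nonneg hw0)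
  have hmcu : (mcell d N f l r t) univ = ENNReal.ofReal M := by
    rw [hmc, Measure.smul_apply, Measure.map_apply hψm MeasurableSet.univ, preimage_univ,
      withDensity_apply _ MeasurableSet.univ, Measure.restrict_univ,
      ← ofReal_integral_eq_lintegral_ofReal hwint (ae_of_all _ hw0), smul_eq_mul, hMdef,
      ENNReal.ofReal_mul (Nat.cast_nonneg N), ENNReal.ofReal_natCast]
  have hmcr : (mcell d N f l r t).real univ = M := by
    rw [measureReal_def, hmcu, ENNReal.toReal_ofReal hM0]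
  have hmci : ∫ u : S d, Φ u ∂(mcell d N f l r t) =
      (N:ℝ) • ∫ u, w u • Φ (psi q r u) ∂(sg d) := by
    rw [hmc, integral_smul_measure, ENNReal.toReal_natCast,
      integral_map hψm.aemeasurable hΦS.aestronglyMeasurable,
      integral_withDensity_eq_integral_toReal_smul hws.measurable.ennreal_ofReal
        (ae_of_all _ fun _ => ENNReal.ofReal_lt_top)]
    congr 1
    refine integral_congr_ae (ae_of_all _ fun u => ?_)
    show (ENNReal.ofReal (w u)).toReal • Φ (psi q r u) = w u • Φ (psi q r u)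
    rw [ENNReal.toReal_ofReal (hw0 u)]
  rw [hmcr]
  -- scales
  obtain ⟨Lr, hLr⟩ : ∃ Lr : ℝ, Lr = (l / r) ^ (-a) := ⟨_, rfl⟩
  obtain ⟨la, hla⟩ : ∃ la : ℝ, la = l ^ (-a) := ⟨_, rfl⟩
  obtain ⟨ra, hra⟩ : ∃ ra : ℝ, ra = r ^ a := ⟨_, rfl⟩
  have hLrn : 0 ≤ Lr := by rw [hLr]; positivity
  have hlan : 0 ≤ la := by rw [hla]; positivity
  have hran : 0 ≤ ra := by rw [hra]; positivity
  have hla1 : la ≤ 1 := by
    rw [hla]
    exact Real.rpow_le_one_of_one_le_of_nonpos hl1 (by linarith)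
  have hLrla : Lr = ra * la := by
    rw [hLr, hra, hla, Real.div_rpow hl0.le hr.le, Real.rpow_neg hr.le, Real.rpow_neg hl0.le]
    field_simp
  have hrl : (r / l) ^ a = Lr := by
    rw [hLrla, hra, hla, Real.div_rpow hr.le hl0.le, Real.rpow_neg hl0.le]
    ring
  rw [← hLr] at hκle
  rw [← hLr, ← hla, ← hra]
  -- locE and the last integral
  have hlocE : ∀ ω, locE Φ f a κ1 (muC (fun i => rot (G ω) (x i))) (nuC d N) l z =
      2 * ‖DI (fun i => rot (G ω) (x i)) (fun u : S d => w u • (Φ u - Φ (l⁻¹ • z)))‖ ^ 2 +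
        κ1 * la * (DI (fun i => rot (G ω) (x i)) w) ^ 2 := by
    intro ω
    unfold locE
    rw [dI_eq, dI_eq, hla]
    simp only [hwv]
  have hk01 : ∀ u : S d, ({v : E d | f v = 1}.indicator (fun _ => (1:ℝ)) (l • (u : E d) - z)) =
      if w u = 1 then 1 else 0 := by
    intro u
    by_cases h : w u = 1
    · rw [if_pos h, Set.indicator_of_mem]
      show f _ = 1
      rw [hwv]; exact h
    · rw [if_neg h, Set.indicator_of_notMem]
      intro hcon
      apply h
      rw [← hwv]; exact hcon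
  simp only [hwv, hk01, hlocE]
  obtain ⟨k, hk⟩ : ∃ k : S d → ℝ, k = fun u => if w u = 1 then (1:ℝ) else 0 := ⟨_, rfl⟩
  have hkv : ∀ u, (if w u = 1 then (1:ℝ) else 0) = k u := fun u => by rw [hk]
  simp only [hkv]
  have hkm : StronglyMeasurable k := by
    rw [hk]
    exact (Measurable.ite (hws.measurable (measurableSet_singleton 1)) measurable_const
      measurable_const).stronglyMeasurable
  have hk0 : ∀ u, 0 ≤ k u := fun u => by rw [hk]; dsimp only; split_ifs <;> norm_num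
  have hkw : ∀ u, k u ≤ w u := fun u => by
    rw [hk]; dsimp only
    split_ifs with h
    · exact h.ge
    · exact hw0 u
  -- functions
  obtain ⟨F3, hF3⟩ : ∃ F3 : S d → H, F3 = fun u => w u • (Φ u - Φ (l⁻¹ • z)) := ⟨_, rfl⟩
  rw [← hF3]
  have hF3m : StronglyMeasurable F3 := by
    rw [hF3]
    exact hws.smul (hΦS.stronglyMeasurable.sub stronglyMeasurable_const)
  have hF3b : ∀ u, ‖F3 u‖ ≤ ‖Φ 0‖ + 1 + ‖Φ (l⁻¹ • z)‖ := by
    intro u
    rw [hF3]
    show ‖w u • (Φ u - Φ (l⁻¹ • z))‖ ≤ _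
    rw [norm_smul, Real.norm_of_nonneg (hw0 u)]
    calc w u * ‖Φ u - Φ (l⁻¹ • z)‖ ≤ 1 * ‖Φ u - Φ (l⁻¹ • z)‖ :=
          mul_le_mul_of_nonneg_right (hw1 u) (norm_nonneg _)
      _ ≤ ‖Φ u‖ + ‖Φ (l⁻¹ • z)‖ := by rw [one_mul]; exact norm_sub_le _ _
      _ ≤ _ := by
          have := hΦb u (hS1 u)
          linarith
  have hRHS0 : 0 ≤ (1 + τ) ^ 3 * ra / 2 * ∫ ω, (2 * ‖DI (fun i => rot (G ω) (x i)) F3‖ ^ 2 +
        κ1 * la * (DI (fun i => rot (G ω) (x i)) w) ^ 2) ∂P := by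
    refine mul_nonneg (by positivity) (integral_nonneg fun ω => ?_)
    show 0 ≤ 2 * ‖DI (fun i => rot (G ω) (x i)) F3‖ ^ 2 +
        κ1 * la * (DI (fun i => rot (G ω) (x i)) w) ^ 2
    positivity
  have hlast0 : 0 ≤ κ * (N * ∫ u, (w u - k u) ∂(sg d)) :=
    mul_nonneg hκ (mul_nonneg (Nat.cast_nonneg N)
      (integral_nonneg fun u => sub_nonneg.2 (hkw u)))
  rcases hM0.eq_or_lt with hMz | hMpos
  · -- the trivial cell
    have hzero : mcell d N f l r t = 0 := by
      rw [← Measure.measure_univ_eq_zero, hmcu, ← hMz, ENNReal.ofReal_zero]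
    refine ⟨0, 0, inferInstance, by simp [← hMz], ?_⟩
    rw [hzero]
    have h1 : 0 ≤ (100 * C1 + 2 * κ0 + 32 * (1 + 1 / τ) * C2) * Lr * (1 + la * M ^ 2) := by
      positivity
    simp only [Multiset.map_zero, Multiset.sum_zero, add_zero, integral_zero_measure, sub_zero,
      measureReal_zero_apply, mul_zero]
    linarith
  · obtain ⟨b, hb⟩ : ∃ b : ℝ, b = C1 * Lr := ⟨_, rfl⟩
    have hb0 : 0 ≤ b := by rw [hb]; positivity
    obtain ⟨Am, hAm⟩ : ∃ Am : E d → E d, Am = fun u => (q : E d) + r • (u - (q : E d)) := ⟨_, rfl⟩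
    have hAmc : Am (l⁻¹ • z) = c := by rw [hAm]; exact hc
    have hAmd : ∀ u v, ‖Am u - Am v‖ = r * ‖u - v‖ := by
      intro u v
      rw [hAm]
      show ‖(q : E d) + r • (u - (q : E d)) - ((q : E d) + r • (v - (q : E d)))‖ = _
      rw [add_sub_add_left_eq_sub, ← smul_sub, sub_sub_sub_cancel_right, norm_smul,
        Real.norm_of_nonneg hr.le]
    have hclose : ∀ u, w u ≠ 0 → ‖(psi q r u : E d) - Am u‖ ≤ 2 * r * (2 * D / l) ^ 2 := by
      intro u hu
      rw [hAm]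
      refine Pool.Agent.TH73.J499.psi_close d q u r (2 * D / l) hr hr1 ?_ (hgeo' u hu).1
      rw [div_le_iff₀ hl0]
      linarith
    -- b is a bound
    have hbb : ∀ u, w u ≠ 0 → ‖(psi q r u : E d) - c‖ ^ a ≤ b := by
      intro u hu
      have h1 : ‖(psi q r u : E d) - c‖ ≤ 3 * D * (r / l) := by
        have h2 := hclose u hu
        have h3 : ‖Am u - c‖ ≤ r * (D / l) := by
          rw [← hAmc, hAmd]
          exact mul_le_mul_of_nonneg_left (hgeo' u hu).2 hr.le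
        have h4 : ‖(psi q r u : E d) - c‖ ≤ ‖(psi q r u : E d) - Am u‖ + ‖Am u - c‖ := by
          have := norm_add_le ((psi q r u : E d) - Am u) (Am u - c)
          rwa [sub_add_sub_cancel] at this
        have h5 : 2 * r * (2 * D / l) ^ 2 ≤ 2 * D * (r / l) := by
          have e1 : 2 * r * (2 * D / l) ^ 2 = (r / l) * (2 * D) * (4 * D / l) := by
            field_simp; ring
          have e2 : 4 * D / l ≤ 1 := by rw [div_le_one hl0]; exact hl
          have e3 : 0 ≤ (r / l) * (2 * D) := by positivity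
          rw [e1]
          calc (r / l) * (2 * D) * (4 * D / l) ≤ (r / l) * (2 * D) * 1 :=
                mul_le_mul_of_nonneg_left e2 e3
            _ = 2 * D * (r / l) := by ring
        calc ‖(psi q r u : E d) - c‖ ≤ 2 * D * (r / l) + r * (D / l) := by linarith
          _ = 3 * D * (r / l) := by ring
      calc ‖(psi q r u : E d) - c‖ ^ a ≤ (3 * D * (r / l)) ^ a :=
            Real.rpow_le_rpow (norm_nonneg _) h1 ha.le
        _ = b := by
            rw [Real.mul_rpow (by positivity) (by positivity), hrl, hb, hC1]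
    -- the rounded configuration
    have hMeq : M = ∫ ω, ∑ i, w (rot (G ω) (x i)) ∂P := by
      rw [integral_finsetSum]
      · rw [Finset.sum_congr rfl fun i _ => int_law P G hG hlaw (x i) w hws]
        rw [Finset.sum_const, Finset.card_univ, Fintype.card_fin, nsmul_eq_mul, hMdef]
      · intro i _
        refine Integrable.of_bound (hws.comp_measurable (meas_rot G hG (x i))).aestronglyMeasurable
          1 (ae_of_all _ fun ω => ?_)
        show ‖w (rot (G ω) (x i))‖ ≤ 1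
        rw [Real.norm_of_nonneg (hw0 _)]
        exact hw1 _
    have hFψm : StronglyMeasurable fun u : S d => w u • Φ (psi q r u) := hws.smul hΦψ
    have hFψb : ∀ u, ‖w u • Φ (psi q r u)‖ ≤ ‖Φ 0‖ + 1 := by
      intro u
      rw [norm_smul, Real.norm_of_nonneg (hw0 u)]
      calc w u * ‖Φ (psi q r u)‖ ≤ 1 * ‖Φ (psi q r u)‖ :=
            mul_le_mul_of_nonneg_right (hw1 u) (norm_nonneg _)
        _ ≤ _ := by rw [one_mul]; exact hΦb _ (hS1 _)
    have hz0eq : ∫ u : S d, Φ u ∂(mcell d N f l r t) =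
        ∫ ω, ∑ i, w (rot (G ω) (x i)) • Φ (psi q r (rot (G ω) (x i))) ∂P := by
      rw [hmci, integral_finsetSum]
      · rw [Finset.sum_congr rfl fun i _ => int_law P G hG hlaw (x i) _ hFψm]
        rw [Finset.sum_const, Finset.card_univ, Fintype.card_fin, Nat.cast_smul_eq_nsmul]
      · intro i _
        exact Integrable.of_bound
          (hFψm.comp_measurable (meas_rot G hG (x i))).aestronglyMeasurable (‖Φ 0‖ + 1)
          (ae_of_all _ fun ω => hFψb _)
    obtain ⟨z0, hz0⟩ : ∃ z0 : H, z0 = ∫ u : S d, Φ u ∂(mcell d N f l r t) := ⟨_, rfl⟩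
    rw [← hz0] at hz0eq hmci ⊢
    obtain ⟨s, ρ, hρ, hcard, hmain⟩ := Pool.Agent.TH897.J237.cell_round d a ha ha2 Φ hΦ P N
      (fun i ω => w (rot (G ω) (x i))) (fun i ω => psi q r (rot (G ω) (x i)))
      (fun i => hws.measurable.comp (meas_rot G hG (x i)))
      (fun i => hψm.comp (meas_rot G hG (x i))) (fun i ω => hw0 _) (fun i ω => hw1 _)
      c b (fun i ω h => hbb _ h) M hMeq hMpos z0 hz0eq τ hτ hτ1 κ hκ e
    refine ⟨s, ρ, hρ, hcard, hmain.trans ?_⟩
    -- functions of the estimate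
    obtain ⟨F1, hF1⟩ : ∃ F1 : S d → H, F1 = fun u => w u • (Φ (psi q r u) - Φ c) := ⟨_, rfl⟩
    obtain ⟨F2, hF2⟩ : ∃ F2 : S d → H, F2 = fun u => w u • (Φ (Am u) - Φ c) := ⟨_, rfl⟩
    have hAmcont : Continuous Am := by rw [hAm]; fun_prop
    have hF1m : StronglyMeasurable F1 := by
      rw [hF1]; exact hws.smul (hΦψ.sub stronglyMeasurable_const)
    have hF2m : StronglyMeasurable F2 := by
      rw [hF2]
      exact hws.smul (((hΦc.comp (hAmcont.comp continuous_subtype_val)).stronglyMeasurable).sub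
        stronglyMeasurable_const)
    have hF1b : ∀ u, ‖F1 u‖ ≤ ‖Φ 0‖ + 1 + ‖Φ c‖ := by
      intro u
      rw [hF1]
      show ‖w u • (Φ (psi q r u) - Φ c)‖ ≤ _
      rw [norm_smul, Real.norm_of_nonneg (hw0 u)]
      calc w u * ‖Φ (psi q r u) - Φ c‖ ≤ 1 * ‖Φ (psi q r u) - Φ c‖ :=
            mul_le_mul_of_nonneg_right (hw1 u) (norm_nonneg _)
        _ ≤ ‖Φ (psi q r u)‖ + ‖Φ c‖ := by rw [one_mul]; exact norm_sub_le _ _
        _ ≤ _ := by
            have := hΦb (psi q r u) (hS1 _)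
            linarith
    have hAm1 : ∀ u : S d, ‖Am u‖ ≤ 1 := by
      intro u
      have h1 : Am u = (1 - r) • (q : E d) + r • (u : E d) := by
        rw [hAm]
        show (q : E d) + r • ((u : E d) - (q : E d)) = _
        rw [smul_sub, sub_smul, one_smul]; abel
      rw [h1]
      refine (norm_add_le _ _).trans ?_
      rw [norm_smul, norm_smul, Real.norm_of_nonneg hr.le, Real.norm_of_nonneg (by linarith)]
      have e1 := mul_le_mul_of_nonneg_left (hS1 q) (show 0 ≤ 1 - r by linarith)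
      have e2 := mul_le_mul_of_nonneg_left (hS1 u) hr.le
      linarith
    have hF2b : ∀ u, ‖F2 u‖ ≤ ‖Φ 0‖ + 1 + ‖Φ c‖ := by
      intro u
      rw [hF2]
      show ‖w u • (Φ (Am u) - Φ c)‖ ≤ _
      rw [norm_smul, Real.norm_of_nonneg (hw0 u)]
      calc w u * ‖Φ (Am u) - Φ c‖ ≤ 1 * ‖Φ (Am u) - Φ c‖ :=
            mul_le_mul_of_nonneg_right (hw1 u) (norm_nonneg _)
        _ ≤ ‖Φ (Am u)‖ + ‖Φ c‖ := by rw [one_mul]; exact norm_sub_le _ _
        _ ≤ _ := by
            have := hΦb (Am u) (hAm1 u)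
            linarith
    have hF1i : Integrable F1 (sg d) := Integrable.of_bound hF1m.aestronglyMeasurable _
      (ae_of_all _ hF1b)
    have hF2i : Integrable F2 (sg d) := Integrable.of_bound hF2m.aestronglyMeasurable _
      (ae_of_all _ hF2b)
    have hF3i : Integrable F3 (sg d) := Integrable.of_bound hF3m.aestronglyMeasurable _
      (ae_of_all _ hF3b)
    -- identification of Z and V
    have hZ : ∀ ω, (∑ i, w (rot (G ω) (x i)) • (Φ (psi q r (rot (G ω) (x i))) - Φ c)) -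
        (z0 - M • Φ c) = DI (fun i => rot (G ω) (x i)) F1 := by
      intro ω
      unfold DI
      have h1 : (N : ℝ) • ∫ u, F1 u ∂(sg d) = z0 - M • Φ c := by
        have h2 : ∫ u, F1 u ∂(sg d) = ∫ u, w u • Φ (psi q r u) ∂(sg d) -
            (∫ u, w u ∂(sg d)) • Φ c := by
          rw [← integral_smul_const, ← integral_sub]
          · refine integral_congr_ae (ae_of_all _ fun u => ?_)
            show F1 u = w u • Φ (psi q r u) - w u • Φ c
            rw [hF1, ← smul_sub]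
          · exact Integrable.of_bound hFψm.aestronglyMeasurable _ (ae_of_all _ hFψb)
          · exact hwint.smul_const _
        rw [h2, smul_sub, ← hmci, smul_smul, ← hMdef]
      rw [h1, hF1]
    have hV : ∀ ω, (∑ i, w (rot (G ω) (x i))) - M = DI (fun i => rot (G ω) (x i)) w := by
      intro ω
      unfold DI
      rw [hMdef, smul_eq_mul]
    -- the difference between F1 and F2
    obtain ⟨sη, hsη⟩ : ∃ sη : ℝ, sη = (2 * r * (2 * D / l) ^ 2) ^ (a / 2) := ⟨_, rfl⟩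
    have hsη0 : 0 ≤ sη := by rw [hsη]; positivity
    have hη : sη ^ 2 = C2 * Lr * la := by
      have h1 : sη ^ 2 = (2 * r * (2 * D / l) ^ 2) ^ a := by
        rw [hsη, ← Real.rpow_natCast, ← Real.rpow_mul (by positivity)]
        congr 1; push_cast; ring
      have h2 : 2 * r * (2 * D / l) ^ 2 = (8 * D ^ 2) * ((r / l) * l⁻¹) := by
        field_simp; ring
      have h3 : (0:ℝ) ≤ 8 * D ^ 2 := by positivity
      have h4 : 0 ≤ r / l := by positivity
      have h5 : 0 ≤ l⁻¹ := by positivity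
      rw [h1, h2, Real.mul_rpow h3 (mul_nonneg h4 h5), Real.mul_rpow h4 h5, hrl,
        Real.inv_rpow hl0.le, ← Real.rpow_neg hl0.le, ← hla, ← hC2]
      ring
    have hdiff : ∀ u, ‖F1 u - F2 u‖ ≤ sη * w u := by
      intro u
      rw [hF1, hF2]
      show ‖w u • (Φ (psi q r u) - Φ c) - w u • (Φ (Am u) - Φ c)‖ ≤ _
      rw [← smul_sub, sub_sub_sub_cancel_right, norm_smul, Real.norm_of_nonneg (hw0 u), mul_comm]
      by_cases hu : w u = 0
      · rw [hu, mul_zero, mul_zero]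
      · refine mul_le_mul_of_nonneg_right ?_ (hw0 u)
        have h1 : ‖Φ (psi q r u) - Φ (Am u)‖ ^ 2 ≤ sη ^ 2 := by
          rw [hΦ]
          have h2 : sη ^ 2 = (2 * r * (2 * D / l) ^ 2) ^ a := by
            rw [hsη, ← Real.rpow_natCast, ← Real.rpow_mul (by positivity)]
            congr 1; push_cast; ring
          rw [h2]
          exact Real.rpow_le_rpow (norm_nonneg _) (hclose u hu) ha.le
        exact le_of_sq_le_sq h1 hsη0
    -- the similarity
    have hsim : ∀ ω, ‖DI (fun i => rot (G ω) (x i)) F2‖ ^ 2 =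
        ra * ‖DI (fun i => rot (G ω) (x i)) F3‖ ^ 2 := by
      intro ω
      refine quad _ F2 F3 ra hF2i hF3i fun u v => ?_
      rw [hF2, hF3]
      show (inner ℝ (w u • (Φ (Am u) - Φ c)) (w v • (Φ (Am v) - Φ c)) : ℝ) =
        ra * inner ℝ (w u • (Φ u - Φ (l⁻¹ • z))) (w v • (Φ v - Φ (l⁻¹ • z)))
      rw [real_inner_smul_left, real_inner_smul_right, real_inner_smul_left,
        real_inner_smul_right, polar Φ hΦ, polar Φ hΦ, ← hAmc, hAmd, hAmd, hAmd,
        Real.mul_rpow hr.le (norm_nonneg _), Real.mul_rpow hr.le (norm_nonneg _),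
        Real.mul_rpow hr.le (norm_nonneg _), ← hra]
      ring
    -- pointwise estimate
    have hpt : ∀ ω, (1 + τ) ^ 2 * ‖DI (fun i => rot (G ω) (x i)) F1‖ ^ 2 +
        100 / τ ^ 2 * b * (DI (fun i => rot (G ω) (x i)) w) ^ 2 +
        (100 * b + κ) * |DI (fun i => rot (G ω) (x i)) w| ≤
        (1 + τ) ^ 3 * ra / 2 * (2 * ‖DI (fun i => rot (G ω) (x i)) F3‖ ^ 2 +
          κ1 * la * (DI (fun i => rot (G ω) (x i)) w) ^ 2) + (100 * b + κ) +
          32 * (1 + 1 / τ) * C2 * Lr * la * M ^ 2 := by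
      intro ω
      refine pointwise_bound (T := ‖DI (fun i => rot (G ω) (x i)) F3‖ ^ 2)
        (W := ∑ i, w (rot (G ω) (x i))) (η := sη ^ 2) hτ hτ1 hC1n hC2n hκ0 hLrn hran hlan hb
        hκle hκ ?_ hη.le (sq_nonneg _) hLrla (hV ω).symm hκ1 ?_
      · rw [hη]
        calc C2 * Lr * la ≤ C2 * Lr * 1 := mul_le_mul_of_nonneg_left hla1 (by positivity)
          _ = C2 * Lr := mul_one _
      · have h1 : ‖DI (fun i => rot (G ω) (x i)) F1 - DI (fun i => rot (G ω) (x i)) F2‖ ≤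
            sη * (∑ i, w (rot (G ω) (x i)) + M) := by
          rw [← DI_sub _ _ _ hF1i hF2i]
          refine (DI_norm_le _ _ (fun u => sη * w u) (hwint.const_mul _) hdiff).trans
            (le_of_eq ?_)
          rw [integral_const_mul, ← Finset.mul_sum, hMdef]
          ring
        have h2 : ‖DI (fun i => rot (G ω) (x i)) F1‖ ≤ ‖DI (fun i => rot (G ω) (x i)) F2‖ +
            sη * (∑ i, w (rot (G ω) (x i)) + M) := by
          have h3 := norm_add_le (DI (fun i => rot (G ω) (x i)) F2)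
            (DI (fun i => rot (G ω) (x i)) F1 - DI (fun i => rot (G ω) (x i)) F2)
          rw [add_sub_cancel] at h3
          linarith
        rw [← hsim ω]
        have h4 : ∀ p m : ℝ, (p + m) ^ 2 ≤ (1 + τ) * p ^ 2 + (1 + 1 / τ) * m ^ 2 := by
          intro p m
          have h5 : 0 ≤ (τ * p - m) ^ 2 / τ := by positivity
          have h6 : (τ * p - m) ^ 2 / τ = τ * p ^ 2 - 2 * p * m + 1 / τ * m ^ 2 := by
            field_simp
            ring
          rw [h6] at h5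
          nlinarith
        calc ‖DI (fun i => rot (G ω) (x i)) F1‖ ^ 2 ≤
            (‖DI (fun i => rot (G ω) (x i)) F2‖ + sη * (∑ i, w (rot (G ω) (x i)) + M)) ^ 2 :=
              pow_le_pow_left₀ (norm_nonneg _) h2 2
          _ ≤ (1 + τ) * ‖DI (fun i => rot (G ω) (x i)) F2‖ ^ 2 +
              (1 + 1 / τ) * (sη * (∑ i, w (rot (G ω) (x i)) + M)) ^ 2 := h4 _ _
          _ = _ := by ring
    -- integrability
    have hi1 := DI_int_sq P G hG x F1 hF1m _ hF1b
    have hi3 := DI_int_sq P G hG x F3 hF3m _ hF3b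
    have hiw : Integrable (fun ω => (DI (fun i => rot (G ω) (x i)) w) ^ 2) P := by
      have := DI_int_sq P G hG x w hws 1 (fun u => by
        rw [Real.norm_of_nonneg (hw0 u)]; exact hw1 u)
      simpa only [Real.norm_eq_abs, sq_abs] using this
    have hiwa : Integrable (fun ω => |DI (fun i => rot (G ω) (x i)) w|) P := by
      refine Integrable.mono' ((integrable_const (1:ℝ)).add hiw)
        (DI_meas G hG x w hws).norm.aestronglyMeasurable (ae_of_all _ fun ω => ?_)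
      rw [Real.norm_eq_abs, abs_abs]
      show |DI (fun i => rot (G ω) (x i)) w| ≤ 1 + (DI (fun i => rot (G ω) (x i)) w) ^ 2
      rw [← sq_abs (DI (fun i => rot (G ω) (x i)) w)]
      nlinarith [sq_nonneg (|DI (fun i => rot (G ω) (x i)) w| - 1),
        abs_nonneg (DI (fun i => rot (G ω) (x i)) w)]
    have hintegral : (1 + τ) ^ 2 * ∫ ω, ‖DI (fun i => rot (G ω) (x i)) F1‖ ^ 2 ∂P +
        100 / τ ^ 2 * b * ∫ ω, (DI (fun i => rot (G ω) (x i)) w) ^ 2 ∂P +
        (100 * b + κ) * ∫ ω, |DI (fun i => rot (G ω) (x i)) w| ∂P ≤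
        (1 + τ) ^ 3 * ra / 2 * ∫ ω, (2 * ‖DI (fun i => rot (G ω) (x i)) F3‖ ^ 2 +
          κ1 * la * (DI (fun i => rot (G ω) (x i)) w) ^ 2) ∂P + (100 * b + κ) +
          32 * (1 + 1 / τ) * C2 * Lr * la * M ^ 2 := by
      have hR1 : Integrable (fun ω => 2 * ‖DI (fun i => rot (G ω) (x i)) F3‖ ^ 2 +
          κ1 * la * (DI (fun i => rot (G ω) (x i)) w) ^ 2) P :=
        (hi3.const_mul _).add (hiw.const_mul _)
      exact int_mono4 P hi1 hiw hiwa hR1 hpt
    -- the last term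
    have hkint : Integrable (fun u => w u - k u) (sg d) := by
      refine Integrable.of_bound (hws.sub hkm).aestronglyMeasurable 1 (ae_of_all _ fun u => ?_)
      rw [Real.norm_of_nonneg (sub_nonneg.2 (hkw u))]
      have := hk0 u
      have := hw1 u
      linarith
    have hWK : ∫ ω, ((∑ i, w (rot (G ω) (x i))) -
        ∑ i, k (rot (G ω) (x i))) ∂P = N * ∫ u, (w u - k u) ∂(sg d) := by
      have h1 : ∀ ω, (∑ i, w (rot (G ω) (x i))) - ∑ i, k (rot (G ω) (x i)) =
          ∑ i, (fun u => w u - k u) (rot (G ω) (x i)) := fun ω => by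
        rw [← Finset.sum_sub_distrib]
      simp only [h1]
      rw [integral_finsetSum]
      · rw [Finset.sum_congr rfl fun i _ => int_law P G hG hlaw (x i) (fun u => w u - k u)
          (hws.sub hkm)]
        rw [Finset.sum_const, Finset.card_univ, Fintype.card_fin, nsmul_eq_mul]
      · intro i _
        refine Integrable.of_bound
          ((hws.sub hkm).comp_measurable (meas_rot G hG (x i))).aestronglyMeasurable 1
          (ae_of_all _ fun ω => ?_)
        show ‖w (rot (G ω) (x i)) - k (rot (G ω) (x i))‖ ≤ 1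
        rw [Real.norm_of_nonneg (sub_nonneg.2 (hkw _))]
        have := hk0 (rot (G ω) (x i))
        have := hw1 (rot (G ω) (x i))
        linarith
    have hkk : ∀ u, (@ite ℝ (w u = 1) (Classical.propDecidable _) (1:ℝ) 0) = k u := by
      intro u
      by_cases h : w u = 1
      · rw [if_pos h, hk]
        exact (if_pos h).symm
      · rw [if_neg h, hk]
        exact (if_neg h).symm
    simp only [hZ, hV]
    have hWK' : ∫ ω, ((∑ i, w (rot (G ω) (x i))) - ∑ i,
        (@ite ℝ (w (rot (G ω) (x i)) = 1) (Classical.propDecidable _) (1:ℝ) 0)) ∂P =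
        N * ∫ u, (w u - k u) ∂(sg d) := by
      simp only [hkk]
      exact hWK
    have hfin : κ * (N * ∫ u, (w u - k u) ∂(sg d) + 1) =
        κ * (N * ∫ u, (w u - k u) ∂(sg d)) + κ := by ring
    have hA : (100 * b + κ) + κ + 32 * (1 + 1 / τ) * C2 * Lr * la * M ^ 2 ≤
        (100 * C1 + 2 * κ0 + 32 * (1 + 1 / τ) * C2) * Lr * (1 + la * M ^ 2) := by
      rw [hb]
      have e1 : 0 ≤ (100 * C1 + 2 * κ0) * Lr * (la * M ^ 2) := by positivity
      have e2 : 0 ≤ 32 * (1 + 1 / τ) * C2 * Lr := by positivity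
      have e3 : (100 * C1 + 2 * κ0 + 32 * (1 + 1 / τ) * C2) * Lr * (1 + la * M ^ 2) =
          (100 * (C1 * Lr) + 2 * (κ0 * Lr)) + (100 * C1 + 2 * κ0) * Lr * (la * M ^ 2) +
          32 * (1 + 1 / τ) * C2 * Lr + 32 * (1 + 1 / τ) * C2 * Lr * la * M ^ 2 := by ring
      rw [e3]
      linarith
    have hgoal : (1 + τ) ^ 2 * ∫ ω, ‖DI (fun i => rot (G ω) (x i)) F1‖ ^ 2 ∂P +
        100 / τ ^ 2 * b * ∫ ω, (DI (fun i => rot (G ω) (x i)) w) ^ 2 ∂P +
        (100 * b + κ) * ∫ ω, |DI (fun i => rot (G ω) (x i)) w| ∂P +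
        κ * (N * ∫ u, (w u - k u) ∂(sg d) + 1) ≤
        (1 + τ) ^ 3 * ra / 2 * ∫ ω, (2 * ‖DI (fun i => rot (G ω) (x i)) F3‖ ^ 2 +
          κ1 * la * (DI (fun i => rot (G ω) (x i)) w) ^ 2) ∂P +
        (100 * C1 + 2 * κ0 + 32 * (1 + 1 / τ) * C2) * Lr * (1 + la * M ^ 2) +
        κ * (N * ∫ u, (w u - k u) ∂(sg d)) := by
      rw [hfin]
      linarith
    have hconv : ∫ ω, ((∑ i, w (rot (G ω) (x i))) - ∑ i,
        (if w (rot (G ω) (x i)) = 1 then (1:ℝ) else 0)) ∂P =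
        N * ∫ u, (w u - k u) ∂(sg d) := by
      convert hWK'
    first
      | (rw [hWK']; linarith)
      | (rw [hconv]; linarith)
      | (convert (add_le_add (le_refl (‖e‖ ^ 2)) hgoal) using 1 <;> ring_nf)

end Pool.Agent.TH286.J500
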