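import Pool.Agent.TH331.RZ.Defs2
import Pool.Agent.Helper88.SE.P_sg_prob
import Pool.Agent.TH897.J237

/-!
# Sequential assembly of the cells and final rounding of the pool (job 501, RZ-S1)
-/

set_option autoImplicit false

open MeasureTheory Set Filter Topology
open scoped ENNReal Real FourierTransform

namespace Pool.Agent.TH286.J501

open Pool.Agent.Helper88.SE Pool.Agent.TH331.RZ

theorem int_Phi {d : ℕ} {a : ℝ} (ha : 0 < a)
    {H : Type} [NormedAddCommGroup H] [InnerProductSpace ℝ H] [CompleteSpace H]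
    (Φ : E d → H) (hΦ : ∀ u v, ‖Φ u - Φ v‖ ^ 2 = ‖u - v‖ ^ a) (ρ : Measure (S d))
    [IsFiniteMeasure ρ] : Integrable (fun x : S d => Φ x) ρ := by
  have hc : Continuous fun x : S d => Φ x :=
    (Pool.Agent.TH897.J237.continuous_of_holder ha Φ hΦ).comp continuous_subtype_val
  refine Integrable.of_bound hc.aestronglyMeasurable (‖Φ 0‖ + 1) (ae_of_all _ fun x => ?_)
  have h1 : ‖Φ x - Φ 0‖ ^ 2 = 1 := by
    rw [hΦ, sub_zero, norm_eq_of_mem_sphere, Real.one_rpow]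
  have h2 : ‖Φ x - Φ 0‖ = 1 := by
    have := norm_nonneg (Φ x - Φ 0)
    nlinarith
  have h3 : ‖Φ x‖ ≤ ‖Φ x - Φ 0‖ + ‖Φ 0‖ := by
    have := norm_add_le (Φ x - Φ 0) (Φ 0)
    rwa [sub_add_cancel] at this
  linarith

theorem induct {d : ℕ} {a : ℝ} (ha : 0 < a)
    {H : Type} [NormedAddCommGroup H] [InnerProductSpace ℝ H] [CompleteSpace H]
    (Φ : E d → H) (hΦ : ∀ u v, ‖Φ u - Φ v‖ ^ 2 = ‖u - v‖ ^ a)
    {ι : Type} (J : Finset ι) (m : ι → Measure (S d)) (κ : ℝ) (B : ι → ℝ)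
    (hcell : ∀ j ∈ J, ∀ e : H, ∃ (s : Multiset (S d)) (ρ : Measure (S d)), IsFiniteMeasure ρ ∧
        (Multiset.card s : ℝ) + ρ.real univ = (m j).real univ ∧
        ‖e + (s.map (fun x : S d => Φ x)).sum + (∫ x : S d, Φ x ∂ρ) -
            ∫ x : S d, Φ x ∂(m j)‖ ^ 2 + κ * ρ.real univ ≤ ‖e‖ ^ 2 + B j) :
    ∃ (s : Multiset (S d)) (ρ : Measure (S d)), IsFiniteMeasure ρ ∧
        (Multiset.card s : ℝ) + ρ.real univ = ∑ j ∈ J, (m j).real univ ∧
        ‖(s.map (fun x : S d => Φ x)).sum + (∫ x : S d, Φ x ∂ρ) -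
            ∑ j ∈ J, ∫ x : S d, Φ x ∂(m j)‖ ^ 2 + κ * ρ.real univ ≤ ∑ j ∈ J, B j := by
  classical
  induction J using Finset.induction_on with
  | empty =>
    refine ⟨0, 0, inferInstance, by simp, by simp⟩
  | insert j J hj ih =>
    obtain ⟨s, ρ, hρ, hcard, hn⟩ := ih fun i hi => hcell i (Finset.mem_insert_of_mem hi)
    obtain ⟨s', ρ', hρ', hcard', hn'⟩ := hcell j (Finset.mem_insert_self _ _)
      ((s.map (fun x : S d => Φ x)).sum + (∫ x : S d, Φ x ∂ρ) - ∑ i ∈ J, ∫ x : S d, Φ x ∂(m i))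
    have hadd : (ρ + ρ').real univ = ρ.real univ + ρ'.real univ :=
      measureReal_add_apply
    refine ⟨s + s', ρ + ρ', inferInstance, ?_, ?_⟩
    · rw [Finset.sum_insert hj, Multiset.card_add, hadd]
      push_cast
      linarith
    · rw [Finset.sum_insert hj, Finset.sum_insert hj, hadd,
        integral_add_measure (int_Phi ha Φ hΦ ρ) (int_Phi ha Φ hΦ ρ'), Multiset.map_add,
        Multiset.sum_add]
      have h1 : (s.map (fun x : S d => Φ x)).sum + (s'.map (fun x : S d => Φ x)).sum +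
          (∫ x : S d, Φ x ∂ρ + ∫ x : S d, Φ x ∂ρ') -
          (∫ x : S d, Φ x ∂(m j) + ∑ i ∈ J, ∫ x : S d, Φ x ∂(m i)) =
          ((s.map (fun x : S d => Φ x)).sum + (∫ x : S d, Φ x ∂ρ) -
            ∑ i ∈ J, ∫ x : S d, Φ x ∂(m i)) + (s'.map (fun x : S d => Φ x)).sum +
            (∫ x : S d, Φ x ∂ρ') - ∫ x : S d, Φ x ∂(m j) := by abel
      rw [h1]
      linarith

theorem assemble (d : ℕ) (hd : 1 ≤ d) (a : ℝ) (ha : 0 < a) (ha2 : a < 2) (had : a < d)
    {H : Type} [NormedAddCommGroup H] [InnerProductSpace ℝ H] [CompleteSpace H]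
    (Φ : E d → H) (hΦ : ∀ u v, ‖Φ u - Φ v‖ ^ 2 = ‖u - v‖ ^ a)
    (C : ℝ) (hpool : ∀ (ρ : Measure (S d)) (m : ℕ), ρ univ = m → ∀ e : H,
      ∃ t : Multiset (S d), Multiset.card t = m ∧
        ‖e + (t.map (fun x : S d => Φ x)).sum - ∫ x : S d, Φ x ∂ρ‖ ^ 2 ≤
          ‖e‖ ^ 2 + C * (m:ℝ) ^ (1 - a / d))
    (n : ℕ) {ι : Type} (J : Finset ι) (m : ι → Measure (S d))
    (hm : ∑ j ∈ J, m j ≤ (n : ℝ≥0∞) • sg d) (κ : ℝ) (hκ : 0 ≤ κ) (B : ι → ℝ)
    (hcell : ∀ j ∈ J, ∀ e : H, ∃ (s : Multiset (S d)) (ρ : Measure (S d)), IsFiniteMeasure ρ ∧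
        (Multiset.card s : ℝ) + ρ.real univ = (m j).real univ ∧
        ‖e + (s.map (fun x : S d => Φ x)).sum + (∫ x : S d, Φ x ∂ρ) -
            ∫ x : S d, Φ x ∂(m j)‖ ^ 2 + κ * ρ.real univ ≤ ‖e‖ ^ 2 + B j)
    (X : ℝ) (hX : ∀ k : ℕ, C * (k:ℝ) ^ (1 - a / d) ≤ κ * k + X) :
    ∃ s : Multiset (S d), Multiset.card s = n ∧
      ‖(s.map (fun x : S d => Φ x)).sum - (n:ℝ) • ∫ x : S d, Φ x ∂(sg d)‖ ^ 2 ≤
        ∑ j ∈ J, B j + κ * (n - ∑ j ∈ J, (m j).real univ) + X := by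
  classical
  have hprob : IsProbabilityMeasure (sg d) := sg_prob d
  have hfinN : IsFiniteMeasure ((n : ℝ≥0∞) • sg d) := by
    refine ⟨?_⟩
    rw [Measure.smul_apply, measure_univ, smul_eq_mul, mul_one]
    exact ENNReal.natCast_lt_top n
  set M : Measure (S d) := ∑ j ∈ J, m j with hM
  have hfinM : IsFiniteMeasure M := isFiniteMeasure_of_le _ hm
  have hfinj : ∀ j ∈ J, IsFiniteMeasure (m j) := by
    intro j hj
    refine isFiniteMeasure_of_le M ?_
    rw [hM]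
    exact Finset.single_le_sum (f := m) (fun _ _ => Measure.zero_le _) hj
  set ζ : Measure (S d) := (n : ℝ≥0∞) • sg d - M with hζ
  have hsum : M + ζ = (n : ℝ≥0∞) • sg d := by
    have h1 : ζ + M = (n : ℝ≥0∞) • sg d := Measure.sub_add_cancel_of_le hm
    have h2 : M + ζ = ζ + M := add_comm M ζ
    exact h2.trans h1
  have hfinζ : IsFiniteMeasure ζ := by
    refine isFiniteMeasure_of_le ((n : ℝ≥0∞) • sg d) ?_
    rw [← hsum]
    exact Measure.le_add_left le_rfl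
  obtain ⟨s, ρ, hρ, hcard, hn⟩ := induct ha Φ hΦ J m κ B hcell
  -- total masses
  have hMreal : M.real univ = ∑ j ∈ J, (m j).real univ := by
    rw [measureReal_def, hM, Measure.finsetSum_apply, ENNReal.toReal_sum]
    · rfl
    · intro j hj
      have := hfinj j hj
      exact measure_ne_top _ _
  have hMint : ∫ x : S d, Φ x ∂M = ∑ j ∈ J, ∫ x : S d, Φ x ∂(m j) := by
    rw [hM]
    apply integral_finsetSum_measure
    intro j hj
    have := hfinj j hj
    exact int_Phi ha Φ hΦ _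
  have hnreal : M.real univ + ζ.real univ = n := by
    have h1 : (M + ζ).real univ = M.real univ + ζ.real univ := measureReal_add_apply
    rw [← h1, hsum, measureReal_def, Measure.smul_apply, measure_univ, smul_eq_mul, mul_one]
    exact ENNReal.toReal_natCast n
  have hζ0 : 0 ≤ ζ.real univ := measureReal_nonneg
  have hρ0 : 0 ≤ ρ.real univ := measureReal_nonneg
  have htot : (Multiset.card s : ℝ) + (ρ + ζ).real univ = n := by
    have h1 : (ρ + ζ).real univ = ρ.real univ + ζ.real univ := measureReal_add_apply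
    rw [h1]
    linarith
  have hle : Multiset.card s ≤ n := by
    have h1 : (Multiset.card s : ℝ) ≤ n := by
      have : 0 ≤ (ρ + ζ).real univ := measureReal_nonneg
      linarith
    exact_mod_cast h1
  have hk : (ρ + ζ) univ = ((n - Multiset.card s : ℕ) : ℝ≥0∞) := by
    have h1 : (ρ + ζ).real univ = ((n - Multiset.card s : ℕ) : ℝ) := by
      rw [Nat.cast_sub hle]
      linarith
    rw [measureReal_def] at h1
    rw [← ENNReal.ofReal_toReal (measure_ne_top (ρ + ζ) univ), h1, ENNReal.ofReal_natCast]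
  set k : ℕ := n - Multiset.card s with hkdef
  have hkreal : (k : ℝ) = ρ.real univ + ζ.real univ := by
    have h1 : (ρ + ζ).real univ = ρ.real univ + ζ.real univ := measureReal_add_apply
    have h2 : (k : ℝ) = (n : ℝ) - Multiset.card s := by rw [hkdef, Nat.cast_sub hle]
    linarith
  obtain ⟨t, ht, hnt⟩ := hpool (ρ + ζ) k hk
    ((s.map (fun x : S d => Φ x)).sum + (∫ x : S d, Φ x ∂ρ) - ∑ j ∈ J, ∫ x : S d, Φ x ∂(m j))
  refine ⟨s + t, ?_, ?_⟩
  · rw [Multiset.card_add, ht, hkdef]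
    omega
  · have h1 : ((s + t).map (fun x : S d => Φ x)).sum - (n:ℝ) • ∫ x : S d, Φ x ∂(sg d) =
        (s.map (fun x : S d => Φ x)).sum + (∫ x : S d, Φ x ∂ρ) -
          ∑ j ∈ J, ∫ x : S d, Φ x ∂(m j) + (t.map (fun x : S d => Φ x)).sum -
          ∫ x : S d, Φ x ∂(ρ + ζ) := by
      have h2 : (n:ℝ) • ∫ x : S d, Φ x ∂(sg d) = ∫ x : S d, Φ x ∂M + ∫ x : S d, Φ x ∂ζ := by
        rw [← integral_add_measure (int_Phi ha Φ hΦ M) (int_Phi ha Φ hΦ ζ), hsum,
          integral_smul_measure, ENNReal.toReal_natCast]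
      rw [h2, integral_add_measure (int_Phi ha Φ hΦ ρ) (int_Phi ha Φ hΦ ζ), ← hMint,
        Multiset.map_add, Multiset.sum_add]
      abel
    rw [h1]
    refine hnt.trans ?_
    have h3 := hX k
    have h4 : κ * k = κ * ρ.real univ + κ * ζ.real univ := by rw [hkreal]; ring
    have h5 : κ * ((n : ℝ) - ∑ j ∈ J, (m j).real univ) = κ * ζ.real univ := by
      rw [← hMreal, ← hnreal]; ring
    rw [h5]
    linarith

end Pool.Agent.TH286.J501
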