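import Pool.Agent.TH547.Arc.Region

/-!
# Region words form a system of cells (job 834 of MP_e5080e_gt)
-/

set_option autoImplicit false
set_option linter.unusedSimpArgs false
namespace Pool.Agent.TH286.J834
open Pool.Agent.TH547.Arc
open Finset Equiv

theorem M_false {X : RW} {a : ℕ} (h : a ∉ X.w.ord) (s : Sy) : ¬ X.M a s := by
  rintro (h' | h')
  · exact h ((PW.mem_ord' false).2 (X.mem' _ _ (X.symm' _ _ h')))
  · exact h ((PW.mem_ord' true).2 (X.mem' _ _ (X.symm' _ _ h')))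

theorem rw_ext {X Y : RW} (hw : X.w = Y.w) (hR : ∀ s t, X.R s t ↔ Y.R s t)
    (hχ : ∀ s, X.χ s = Y.χ s) (hS : ∀ s, X.S s = Y.S s) : X = Y := by
  apply RW.ext hw
  · funext s t
    exact propext (hR s t)
  · funext s
    exact hχ s
  · funext s
    exact hS s

theorem dl_R (X : RW) (a : ℕ) (s t : Sy) : (X.dl a).R s t ↔
    s ∈ (X.w.dl a).x ∧ t ∈ (X.w.dl a).x ∧ (X.R s t ∨ (X.M a s ∧ X.M a t)) := Iff.rfl

theorem dl_w (X : RW) (a : ℕ) : (X.dl a).w = X.w.dl a := rfl

theorem dl_χ_pos (X : RW) (a : ℕ) {s : Sy} (hs : s ∈ (X.w.dl a).x) (h : X.M a s) :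
    (X.dl a).χ s = X.χM a := by
  show (if s ∈ (X.w.dl a).x then _ else _) = _
  rw [if_pos hs, if_pos h]

theorem dl_χ_neg (X : RW) (a : ℕ) {s : Sy} (hs : s ∈ (X.w.dl a).x) (h : ¬ X.M a s) :
    (X.dl a).χ s = X.χ s := by
  show (if s ∈ (X.w.dl a).x then _ else _) = _
  rw [if_pos hs, if_neg h]

theorem dl_S_pos (X : RW) (a : ℕ) {s : Sy} (hs : s ∈ (X.w.dl a).x) (h : X.M a s) :
    (X.dl a).S s = X.S (en a false) ∪ X.S (en a true) := by
  show (if s ∈ (X.w.dl a).x then _ else _) = _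
  rw [if_pos hs, if_pos h]

theorem dl_S_neg (X : RW) (a : ℕ) {s : Sy} (hs : s ∈ (X.w.dl a).x) (h : ¬ X.M a s) :
    (X.dl a).S s = X.S s := by
  show (if s ∈ (X.w.dl a).x then _ else _) = _
  rw [if_pos hs, if_neg h]

theorem χM_pos (X : RW) (a : ℕ) (h : X.R (en a false) (en a true)) :
    X.χM a = X.χ (en a false) - 1 := if_pos h

theorem χM_neg (X : RW) (a : ℕ) (h : ¬ X.R (en a false) (en a true)) :
    X.χM a = X.χ (en a false) + X.χ (en a true) - 1 := if_neg h

theorem dl_not_mem (X : RW) (a : ℕ) (h : a ∉ X.w.ord) : X.dl a = X := by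
  have hw : X.w.dl a = X.w := PW.dl_not_mem X.w a h
  refine rw_ext hw (fun s t => ?_) (fun s => ?_) (fun s => ?_)
  · rw [dl_R, hw]
    constructor
    · rintro ⟨_, _, h3 | h3⟩
      · exact h3
      · exact absurd h3.1 (M_false h s)
    · intro h3
      exact ⟨X.mem' _ _ h3, X.mem' _ _ (X.symm' _ _ h3), Or.inl h3⟩
  · by_cases hs : s ∈ (X.w.dl a).x
    · exact dl_χ_neg X a hs (M_false h s)
    · rw [(X.dl a).χ_off s hs, X.χ_off s (by rwa [← hw])]
  · by_cases hs : s ∈ (X.w.dl a).x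
    · exact dl_S_neg X a hs (M_false h s)
    · rw [(X.dl a).S_off s hs, X.S_off s (by rwa [← hw])]

theorem mem_dl {X : PW} {a : ℕ} {s : Sy} : s ∈ (X.dl a).x ↔ s ∈ X.x ∧ offA a s = true := by
  show s ∈ X.x.filter (offA a) ↔ _
  rw [List.mem_filter]

/-- being adjacent to `b` after deletion of `a` -/
theorem dl_M (X : RW) {a b : ℕ} (hab : a ≠ b) (hb : b ∈ X.w.ord) {s : Sy}
    (hs : s ∈ (X.w.dl a).x) : (X.dl a).M b s ↔
      (X.M b s ∨ (X.M a s ∧ (X.M a (en b false) ∨ X.M a (en b true)))) := by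
  have h0 : ∀ e, en b e ∈ (X.w.dl a).x := fun e => by
    rw [mem_dl, offA_en]
    exact ⟨(PW.mem_ord' e).1 hb, fun h => hab h.symm⟩
  unfold RW.M
  rw [dl_R, dl_R]
  have h1 := h0 false
  have h2 := h0 true
  unfold RW.M
  tauto

theorem J_symm (X : RW) (a b : ℕ) :
    (X.M a (en b false) ∨ X.M a (en b true)) ↔ (X.M b (en a false) ∨ X.M b (en a true)) := by
  unfold RW.M
  have := fun s t => (⟨X.symm' s t, X.symm' t s⟩ : X.R s t ↔ X.R t s)
  rw [this (en b false) (en a false), this (en b false) (en a true),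
    this (en b true) (en a false), this (en b true) (en a true)]
  tauto

open Classical in
theorem χM_comm (X : RW) {a b : ℕ} (hab : a ≠ b) (ha : a ∈ X.w.ord) (hb : b ∈ X.w.ord)
    (J : X.M a (en b false) ∨ X.M a (en b true)) : (X.dl a).χM b = (X.dl b).χM a := by
  have hb0 : ∀ e, en b e ∈ (X.w.dl a).x := fun e => by
    rw [mem_dl, offA_en]
    exact ⟨(PW.mem_ord' e).1 hb, fun h => hab h.symm⟩
  have ha0 : ∀ e, en a e ∈ (X.w.dl b).x := fun e => by
    rw [mem_dl, offA_en]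
    exact ⟨(PW.mem_ord' e).1 ha, fun h => hab h⟩
  have sy : ∀ s t, X.R s t → X.R t s := X.symm'
  have tr : ∀ s t u, X.R s t → X.R t u → X.R s u := X.trans'
  have ch : ∀ s t, X.R s t → X.χ s = X.χ t := X.χ_eq
  -- values
  have vb : ∀ e, (X.dl a).χ (en b e) = if X.M a (en b e) then X.χM a else X.χ (en b e) := by
    intro e
    split_ifs with h
    · exact dl_χ_pos X a (hb0 e) h
    · exact dl_χ_neg X a (hb0 e) h
  have va : ∀ e, (X.dl b).χ (en a e) = if X.M b (en a e) then X.χM b else X.χ (en a e) := by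
    intro e
    split_ifs with h
    · exact dl_χ_pos X b (ha0 e) h
    · exact dl_χ_neg X b (ha0 e) h
  have rb : (X.dl a).R (en b false) (en b true) ↔
      (X.R (en b false) (en b true) ∨ (X.M a (en b false) ∧ X.M a (en b true))) := by
    rw [dl_R]
    exact ⟨fun h => h.2.2, fun h => ⟨hb0 _, hb0 _, h⟩⟩
  have ra : (X.dl b).R (en a false) (en a true) ↔
      (X.R (en a false) (en a true) ∨ (X.M b (en a false) ∧ X.M b (en a true))) := by
    rw [dl_R]
    exact ⟨fun h => h.2.2, fun h => ⟨ha0 _, ha0 _, h⟩⟩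
  revert J
  unfold RW.χM
  simp only [rb, ra, vb, va]
  unfold RW.χM RW.M
  generalize en a false = a0 at *
  generalize en a true = a1 at *
  generalize en b false = b0 at *
  generalize en b true = b1 at *
  clear vb va rb ra hb0 ha0
  have s00 : X.R a0 b0 ↔ X.R b0 a0 := ⟨sy _ _, sy _ _⟩
  have s01 : X.R a0 b1 ↔ X.R b1 a0 := ⟨sy _ _, sy _ _⟩
  have s10 : X.R a1 b0 ↔ X.R b0 a1 := ⟨sy _ _, sy _ _⟩
  have s11 : X.R a1 b1 ↔ X.R b1 a1 := ⟨sy _ _, sy _ _⟩
  simp only [s00, s01, s10, s11]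
  have t1 := tr b0 a0 a1
  have t2 := tr b1 a0 a1
  have t3 := fun (h : X.R a0 a1) (k : X.R b0 a1) => tr b0 a1 a0 k (sy _ _ h)
  have t4 := fun (h : X.R a0 a1) (k : X.R b1 a1) => tr b1 a1 a0 k (sy _ _ h)
  have t5 := fun (h : X.R b0 b1) (k : X.R b0 a0) => tr b1 b0 a0 (sy _ _ h) k
  have t6 := fun (h : X.R b0 b1) (k : X.R b0 a1) => tr b1 b0 a1 (sy _ _ h) k
  have t7 := fun (h : X.R b0 b1) (k : X.R b1 a0) => tr b0 b1 a0 h k
  have t8 := fun (h : X.R b0 b1) (k : X.R b1 a1) => tr b0 b1 a1 h k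
  have t9 := fun (h : X.R b0 a0) (k : X.R b0 a1) => tr a0 b0 a1 (sy _ _ h) k
  have t10 := fun (h : X.R b1 a0) (k : X.R b1 a1) => tr a0 b1 a1 (sy _ _ h) k
  have t11 := fun (h : X.R b0 a0) (k : X.R b1 a0) => tr b0 a0 b1 h (sy _ _ k)
  have t12 := fun (h : X.R b0 a1) (k : X.R b1 a1) => tr b0 a1 b1 h (sy _ _ k)
  have c1 := ch b0 a0
  have c2 := ch b0 a1
  have c3 := ch b1 a0
  have c4 := ch b1 a1
  have c5 := ch a0 a1
  have c6 := ch b0 b1
  clear ch tr sy s00 s01 s10 s11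
  revert t1 t2 t3 t4 t5 t6 t7 t8 t9 t10 t11 t12 c1 c2 c3 c4 c5 c6
  generalize X.R b0 a0 = p1
  generalize X.R b0 a1 = p2
  generalize X.R b1 a0 = p3
  generalize X.R b1 a1 = p4
  generalize X.R a0 a1 = p5
  generalize X.R b0 b1 = p6
  generalize X.χ a0 = x1
  generalize X.χ a1 = x2
  generalize X.χ b0 = x3
  generalize X.χ b1 = x4
  intro t1 t2 t3 t4 t5 t6 t7 t8 t9 t10 t11 t12 c1 c2 c3 c4 c5 c6 J
  by_cases h1 : p1 <;> by_cases h2 : p2 <;> by_cases h3 : p3 <;> by_cases h4 : p4 <;>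
    by_cases h5 : p5 <;> by_cases h6 : p6 <;>
    simp only [h1, h2, h3, h4, h5, h6, true_or, or_true, or_false, false_or, and_true, and_false,
      true_and, false_and, if_true, if_false, forall_const, imp_false, not_true, not_false_iff,
      false_imp_iff, true_imp_iff] at * <;> omega

theorem SM_comm (X : RW) {a b : ℕ} (hab : a ≠ b) (ha : a ∈ X.w.ord) (hb : b ∈ X.w.ord)
    (J : X.M a (en b false) ∨ X.M a (en b true)) :
    (X.dl a).S (en b false) ∪ (X.dl a).S (en b true) =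
      X.S (en a false) ∪ X.S (en a true) ∪ (X.S (en b false) ∪ X.S (en b true)) := by
  have _ha := ha
  have hb0 : ∀ e, en b e ∈ (X.w.dl a).x := fun e => by
    rw [mem_dl, offA_en]
    exact ⟨(PW.mem_ord' e).1 hb, fun h => hab h.symm⟩
  have sub : ∀ e, X.M a (en b e) → X.S (en b e) ⊆ X.S (en a false) ∪ X.S (en a true) := by
    rintro e (h | h)
    · rw [X.S_eq _ _ h]; exact Finset.subset_union_left
    · rw [X.S_eq _ _ h]; exact Finset.subset_union_right
  by_cases h0 : X.M a (en b false)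
  · rw [dl_S_pos X a (hb0 _) h0]
    have s0 := sub _ h0
    by_cases h1 : X.M a (en b true)
    · rw [dl_S_pos X a (hb0 _) h1]
      have s1 := sub _ h1
      rw [Finset.union_self, Finset.union_eq_left.2 (Finset.union_subset s0 s1)]
    · rw [dl_S_neg X a (hb0 _) h1, ← Finset.union_assoc, Finset.union_eq_left.2 s0]
  · have h1 : X.M a (en b true) := J.resolve_left h0
    have s1 := sub _ h1
    rw [dl_S_pos X a (hb0 _) h1, dl_S_neg X a (hb0 _) h0]
    ext n
    have := @s1 n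
    simp only [Finset.mem_union] at this ⊢
    tauto

theorem χM_far (X : RW) {a b : ℕ} (hab : a ≠ b) (hb : b ∈ X.w.ord)
    (J : ¬ (X.M a (en b false) ∨ X.M a (en b true))) : (X.dl a).χM b = X.χM b := by
  have hb0 : ∀ e, en b e ∈ (X.w.dl a).x := fun e => by
    rw [mem_dl, offA_en]
    exact ⟨(PW.mem_ord' e).1 hb, fun h => hab h.symm⟩
  rw [not_or] at J
  have rb : (X.dl a).R (en b false) (en b true) ↔ X.R (en b false) (en b true) := by
    rw [dl_R]
    constructor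
    · rintro ⟨_, _, h | h⟩
      · exact h
      · exact absurd h.1 J.1
    · intro h
      exact ⟨hb0 _, hb0 _, Or.inl h⟩
  by_cases h : X.R (en b false) (en b true)
  · rw [χM_pos _ _ (rb.2 h), χM_pos _ _ h, dl_χ_neg X a (hb0 _) J.1]
  · rw [χM_neg _ _ (fun h' => h (rb.1 h')), χM_neg _ _ h, dl_χ_neg X a (hb0 _) J.1,
      dl_χ_neg X a (hb0 _) J.2]

theorem SM_far (X : RW) {a b : ℕ} (hab : a ≠ b) (hb : b ∈ X.w.ord)
    (J : ¬ (X.M a (en b false) ∨ X.M a (en b true))) (e : Bool) :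
    (X.dl a).S (en b e) = X.S (en b e) := by
  have hb0 : ∀ e, en b e ∈ (X.w.dl a).x := fun e => by
    rw [mem_dl, offA_en]
    exact ⟨(PW.mem_ord' e).1 hb, fun h => hab h.symm⟩
  rw [not_or] at J
  cases e
  · exact dl_S_neg X a (hb0 _) J.1
  · exact dl_S_neg X a (hb0 _) J.2

theorem prop_aux {a1 a2 b1 b2 R As At Bs Bt J : Prop} (h1 : a1) (h2 : a2) (h3 : b1) (h4 : b2) :
    ((a1 ∧ a2 ∧ (R ∨ As ∧ At)) ∨ (Bs ∨ As ∧ J) ∧ (Bt ∨ At ∧ J)) ↔
      ((b1 ∧ b2 ∧ (R ∨ Bs ∧ Bt)) ∨ (As ∨ Bs ∧ J) ∧ (At ∨ Bt ∧ J)) := by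
  simp only [h1, h2, h3, h4, true_and]
  by_cases hJ : J
  · simp only [hJ, and_true]
    constructor
    · rintro ((h | ⟨h, h'⟩) | ⟨h, h'⟩)
      · exact Or.inl (Or.inl h)
      · exact Or.inr ⟨Or.inl h, Or.inl h'⟩
      · exact Or.inr ⟨h.symm, h'.symm⟩
    · rintro ((h | ⟨h, h'⟩) | ⟨h, h'⟩)
      · exact Or.inl (Or.inl h)
      · exact Or.inr ⟨Or.inl h, Or.inl h'⟩
      · exact Or.inr ⟨h.symm, h'.symm⟩
  · simp only [hJ, and_false, or_false]
    constructor
    · rintro ((h | h) | h)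
      · exact Or.inl (Or.inl h)
      · exact Or.inr h
      · exact Or.inl (Or.inr h)
    · rintro ((h | h) | h)
      · exact Or.inl (Or.inl h)
      · exact Or.inr h
      · exact Or.inl (Or.inr h)

theorem dl_comm_aux (X : RW) {a b : ℕ} (hab : a ≠ b) (ha : a ∈ X.w.ord) (hb : b ∈ X.w.ord) :
    (X.dl a).dl b = (X.dl b).dl a := by
  have hw : (X.w.dl a).dl b = (X.w.dl b).dl a := PW.dl_comm X.w a b
  have hJ := J_symm X a b
  have mem : ∀ s, s ∈ ((X.w.dl a).dl b).x → s ∈ (X.w.dl a).x ∧ s ∈ (X.w.dl b).x := by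
    intro s hs
    refine ⟨(mem_dl.1 hs).1, ?_⟩
    rw [hw] at hs
    exact (mem_dl.1 hs).1
  -- no symbol is adjacent to both arcs if they are far from each other
  have far : ¬ (X.M a (en b false) ∨ X.M a (en b true)) → ∀ s, X.M a s → ¬ X.M b s := by
    intro J s h1 h2
    rcases h2 with h2 | h2
    · exact J (Or.inl ((RW.M_congr h2).1 h1))
    · exact J (Or.inr ((RW.M_congr h2).1 h1))
  refine rw_ext hw (fun s t => ?_) (fun s => ?_) (fun s => ?_)
  · rw [dl_R (X.dl a) b, dl_R (X.dl b) a, dl_w, dl_w, ← hw]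
    refine and_congr_right fun hs => and_congr_right fun ht => ?_
    obtain ⟨hs1, hs2⟩ := mem s hs
    obtain ⟨ht1, ht2⟩ := mem t ht
    rw [dl_M X hab hb hs1, dl_M X hab hb ht1, dl_M X hab.symm ha hs2, dl_M X hab.symm ha ht2,
      ← hJ, dl_R X a s t, dl_R X b s t]
    exact prop_aux hs1 ht1 hs2 ht2
  · by_cases hs : s ∈ ((X.w.dl a).dl b).x
    · obtain ⟨hs1, hs2⟩ := mem s hs
      have hs' : s ∈ ((X.w.dl b).dl a).x := by rwa [← hw]
      have m1 := dl_M X hab hb hs1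
      have m2 := dl_M X hab.symm ha hs2
      rw [← hJ] at m2
      by_cases J : X.M a (en b false) ∨ X.M a (en b true)
      · by_cases h : X.M a s ∨ X.M b s
        · have k1 : (X.dl a).M b s := m1.2 (h.elim (fun h => Or.inr ⟨h, J⟩) Or.inl)
          have k2 : (X.dl b).M a s := m2.2 (h.elim Or.inl (fun h => Or.inr ⟨h, J⟩))
          rw [dl_χ_pos (X.dl a) b hs k1, dl_χ_pos (X.dl b) a hs' k2]
          exact χM_comm X hab ha hb J
        · rw [not_or] at h
          have k1 : ¬ (X.dl a).M b s := fun k => (m1.1 k).elim h.2 (fun k => h.1 k.1)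
          have k2 : ¬ (X.dl b).M a s := fun k => (m2.1 k).elim h.1 (fun k => h.2 k.1)
          rw [dl_χ_neg (X.dl a) b hs k1, dl_χ_neg (X.dl b) a hs' k2, dl_χ_neg X a hs1 h.1,
            dl_χ_neg X b hs2 h.2]
      · by_cases h1 : X.M a s
        · have h2 := far J s h1
          have k1 : ¬ (X.dl a).M b s := fun k => (m1.1 k).elim h2 (fun k => J k.2)
          have k2 : (X.dl b).M a s := m2.2 (Or.inl h1)
          rw [dl_χ_neg (X.dl a) b hs k1, dl_χ_pos (X.dl b) a hs' k2, dl_χ_pos X a hs1 h1]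
          exact (χM_far X hab.symm ha (fun k => J (hJ.2 k))).symm
        · by_cases h2 : X.M b s
          · have k1 : (X.dl a).M b s := m1.2 (Or.inl h2)
            have k2 : ¬ (X.dl b).M a s := fun k => (m2.1 k).elim h1 (fun k => J k.2)
            rw [dl_χ_pos (X.dl a) b hs k1, dl_χ_neg (X.dl b) a hs' k2, dl_χ_pos X b hs2 h2]
            exact χM_far X hab hb J
          · have k1 : ¬ (X.dl a).M b s := fun k => (m1.1 k).elim h2 (fun k => J k.2)
            have k2 : ¬ (X.dl b).M a s := fun k => (m2.1 k).elim h1 (fun k => J k.2)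
            rw [dl_χ_neg (X.dl a) b hs k1, dl_χ_neg (X.dl b) a hs' k2, dl_χ_neg X a hs1 h1,
              dl_χ_neg X b hs2 h2]
    · rw [((X.dl a).dl b).χ_off s hs, ((X.dl b).dl a).χ_off s (by
        show s ∉ ((X.w.dl b).dl a).x
        rwa [← hw])]
  · by_cases hs : s ∈ ((X.w.dl a).dl b).x
    · obtain ⟨hs1, hs2⟩ := mem s hs
      have hs' : s ∈ ((X.w.dl b).dl a).x := by rwa [← hw]
      have m1 := dl_M X hab hb hs1
      have m2 := dl_M X hab.symm ha hs2
      rw [← hJ] at m2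
      by_cases J : X.M a (en b false) ∨ X.M a (en b true)
      · by_cases h : X.M a s ∨ X.M b s
        · have k1 : (X.dl a).M b s := m1.2 (h.elim (fun h => Or.inr ⟨h, J⟩) Or.inl)
          have k2 : (X.dl b).M a s := m2.2 (h.elim Or.inl (fun h => Or.inr ⟨h, J⟩))
          rw [dl_S_pos (X.dl a) b hs k1, dl_S_pos (X.dl b) a hs' k2, SM_comm X hab ha hb J,
            SM_comm X hab.symm hb ha (hJ.1 J), Finset.union_comm]
        · rw [not_or] at h
          have k1 : ¬ (X.dl a).M b s := fun k => (m1.1 k).elim h.2 (fun k => h.1 k.1)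
          have k2 : ¬ (X.dl b).M a s := fun k => (m2.1 k).elim h.1 (fun k => h.2 k.1)
          rw [dl_S_neg (X.dl a) b hs k1, dl_S_neg (X.dl b) a hs' k2, dl_S_neg X a hs1 h.1,
            dl_S_neg X b hs2 h.2]
      · by_cases h1 : X.M a s
        · have h2 := far J s h1
          have k1 : ¬ (X.dl a).M b s := fun k => (m1.1 k).elim h2 (fun k => J k.2)
          have k2 : (X.dl b).M a s := m2.2 (Or.inl h1)
          rw [dl_S_neg (X.dl a) b hs k1, dl_S_pos (X.dl b) a hs' k2, dl_S_pos X a hs1 h1,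
            SM_far X hab.symm ha (fun k => J (hJ.2 k)), SM_far X hab.symm ha (fun k => J (hJ.2 k))]
        · by_cases h2 : X.M b s
          · have k1 : (X.dl a).M b s := m1.2 (Or.inl h2)
            have k2 : ¬ (X.dl b).M a s := fun k => (m2.1 k).elim h1 (fun k => J k.2)
            rw [dl_S_pos (X.dl a) b hs k1, dl_S_neg (X.dl b) a hs' k2, dl_S_pos X b hs2 h2,
              SM_far X hab hb J, SM_far X hab hb J]
          · have k1 : ¬ (X.dl a).M b s := fun k => (m1.1 k).elim h2 (fun k => J k.2)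
            have k2 : ¬ (X.dl b).M a s := fun k => (m2.1 k).elim h1 (fun k => J k.2)
            rw [dl_S_neg (X.dl a) b hs k1, dl_S_neg (X.dl b) a hs' k2, dl_S_neg X a hs1 h1,
              dl_S_neg X b hs2 h2]
    · rw [((X.dl a).dl b).S_off s hs, ((X.dl b).dl a).S_off s (by
        show s ∉ ((X.w.dl b).dl a).x
        rwa [← hw])]

theorem dl_comm (X : RW) (a b : ℕ) : (X.dl a).dl b = (X.dl b).dl a := by
  by_cases hab : a = b
  · rw [hab]
  by_cases ha : a ∈ X.w.ord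
  · by_cases hb : b ∈ X.w.ord
    · exact dl_comm_aux X hab ha hb
    · rw [dl_not_mem X b hb, dl_not_mem (X.dl a) b]
      rw [dl_w, PW.ord_dl]
      exact fun h => hb (List.mem_of_mem_erase h)
  · rw [dl_not_mem X a ha, dl_not_mem (X.dl b) a]
    rw [dl_w, PW.ord_dl]
    exact fun h => ha (List.mem_of_mem_erase h)

theorem rn_one (X : RW) : X.rn 1 = X := by
  have h : ∀ s, (rnS 1).symm s = s := by
    intro s
    cases s <;> rfl
  refine rw_ext (PW.rn_one _) (fun s t => ?_) (fun s => ?_) (fun s => ?_)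
  · show X.R ((rnS 1).symm s) ((rnS 1).symm t) ↔ _
    rw [h, h]
  · show X.χ ((rnS 1).symm s) = _
    rw [h]
  · show X.S ((rnS 1).symm s) = _
    rw [h]

theorem rn_mul (π σ : Perm ℕ) (X : RW) : X.rn (π * σ) = (X.rn σ).rn π := by
  have h : ∀ s, (rnS (π * σ)).symm s = (rnS σ).symm ((rnS π).symm s) := by
    intro s
    cases s <;> rfl
  refine rw_ext (PW.rn_mul _ _ _) (fun s t => ?_) (fun s => ?_) (fun s => ?_)
  · show X.R ((rnS (π * σ)).symm s) ((rnS (π * σ)).symm t) ↔ _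
    rw [h, h]; rfl
  · show X.χ ((rnS (π * σ)).symm s) = _
    rw [h]; rfl
  · show X.S ((rnS (π * σ)).symm s) = _
    rw [h]; rfl

theorem rn_M (π : Perm ℕ) (X : RW) (a : ℕ) (s : Sy) :
    (X.rn π).M (π a) s ↔ X.M a ((rnS π).symm s) := by
  have h : ∀ e, (rnS π).symm (en (π a) e) = en a e := by
    intro e
    rw [Equiv.symm_apply_eq]; rfl
  show (X.R ((rnS π).symm s) ((rnS π).symm (en (π a) false)) ∨
    X.R ((rnS π).symm s) ((rnS π).symm (en (π a) true))) ↔ _
  rw [h, h]; rfl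

theorem rn_χM (π : Perm ℕ) (X : RW) (a : ℕ) : (X.rn π).χM (π a) = X.χM a := by
  have h : ∀ e, (rnS π).symm (en (π a) e) = en a e := by
    intro e
    rw [Equiv.symm_apply_eq]; rfl
  by_cases hR : X.R (en a false) (en a true)
  · have hR' : (X.rn π).R (en (π a) false) (en (π a) true) := by
      show X.R ((rnS π).symm _) ((rnS π).symm _)
      rwa [h, h]
    rw [χM_pos _ _ hR, χM_pos _ _ hR']
    show X.χ ((rnS π).symm _) - 1 = _
    rw [h]
  · have hR' : ¬ (X.rn π).R (en (π a) false) (en (π a) true) := by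
      show ¬ X.R ((rnS π).symm _) ((rnS π).symm _)
      rwa [h, h]
    rw [χM_neg _ _ hR, χM_neg _ _ hR']
    show X.χ ((rnS π).symm _) + X.χ ((rnS π).symm _) - 1 = _
    rw [h, h]

theorem dl_rn (π : Perm ℕ) (X : RW) (a : ℕ) : (X.rn π).dl (π a) = (X.dl a).rn π := by
  have h : ∀ e, (rnS π).symm (en (π a) e) = en a e := by
    intro e
    rw [Equiv.symm_apply_eq]; rfl
  have hmem : ∀ s, s ∈ ((X.w.rn π).dl (π a)).x ↔ (rnS π).symm s ∈ (X.w.dl a).x := by
    intro s
    rw [PW.dl_rn]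
    show s ∈ (X.w.dl a).x.map (rnS π) ↔ _
    rw [List.mem_map]
    constructor
    · rintro ⟨t, ht, rfl⟩
      rwa [Equiv.symm_apply_apply]
    · intro hs
      exact ⟨_, hs, Equiv.apply_symm_apply _ _⟩
  refine rw_ext (PW.dl_rn _ _ _) (fun s t => ?_) (fun s => ?_) (fun s => ?_)
  · rw [dl_R, show (X.rn π).w = X.w.rn π from rfl, hmem, hmem, rn_M, rn_M]
    exact Iff.rfl
  · show _ = (X.dl a).χ ((rnS π).symm s)
    by_cases hs : s ∈ ((X.w.rn π).dl (π a)).x
    · have hs' := (hmem s).1 hs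
      by_cases hM : X.M a ((rnS π).symm s)
      · rw [dl_χ_pos (X.rn π) (π a) hs ((rn_M π X a s).2 hM), dl_χ_pos X a hs' hM, rn_χM]
      · rw [dl_χ_neg (X.rn π) (π a) hs (fun k => hM ((rn_M π X a s).1 k)), dl_χ_neg X a hs' hM]
        rfl
    · rw [((X.rn π).dl (π a)).χ_off s hs, (X.dl a).χ_off _ (fun k => hs ((hmem s).2 k))]
  · show _ = (X.dl a).S ((rnS π).symm s)
    by_cases hs : s ∈ ((X.w.rn π).dl (π a)).x
    · have hs' := (hmem s).1 hs
      by_cases hM : X.M a ((rnS π).symm s)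
      · rw [dl_S_pos (X.rn π) (π a) hs ((rn_M π X a s).2 hM), dl_S_pos X a hs' hM]
        show X.S ((rnS π).symm _) ∪ X.S ((rnS π).symm _) = _
        rw [h, h]
      · rw [dl_S_neg (X.rn π) (π a) hs (fun k => hM ((rn_M π X a s).1 k)), dl_S_neg X a hs' hM]
        rfl
    · rw [((X.rn π).dl (π a)).S_off s hs, (X.dl a).S_off _ (fun k => hs ((hmem s).2 k))]

theorem rn_congr (π σ : Perm ℕ) (X : RW) (h : ∀ a ∈ X.w.ord, π a = σ a) : X.rn π = X.rn σ := by
  have key : ∀ (π σ : Perm ℕ), (∀ a ∈ X.w.ord, π a = σ a) → ∀ s, (rnS π).symm s ∈ X.w.x →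
      (rnS σ).symm s = (rnS π).symm s := by
    intro π σ h s hs
    rw [Equiv.symm_apply_eq]
    generalize hu : (rnS π).symm s = u at hs
    rw [Equiv.symm_apply_eq] at hu
    rw [hu]
    rcases u with n | ⟨a, e⟩
    · rfl
    · show en (π a) e = en (σ a) e
      rw [h a ((PW.mem_ord' e).2 hs)]
  have h' : ∀ a ∈ X.w.ord, σ a = π a := fun a ha => (h a ha).symm
  refine rw_ext (PW.rn_congr _ _ _ h) (fun s t => ?_) (fun s => ?_) (fun s => ?_)
  · show X.R ((rnS π).symm s) ((rnS π).symm t) ↔ X.R ((rnS σ).symm s) ((rnS σ).symm t)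
    constructor
    · intro hR
      rw [key π σ h s (X.mem' _ _ hR), key π σ h t (X.mem' _ _ (X.symm' _ _ hR))]
      exact hR
    · intro hR
      rw [key σ π h' s (X.mem' _ _ hR), key σ π h' t (X.mem' _ _ (X.symm' _ _ hR))]
      exact hR
  · show X.χ ((rnS π).symm s) = X.χ ((rnS σ).symm s)
    by_cases hs : (rnS π).symm s ∈ X.w.x
    · rw [key π σ h s hs]
    · by_cases hs' : (rnS σ).symm s ∈ X.w.x
      · rw [key σ π h' s hs']
      · rw [X.χ_off _ hs, X.χ_off _ hs']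
  · show X.S ((rnS π).symm s) = X.S ((rnS σ).symm s)
    by_cases hs : (rnS π).symm s ∈ X.w.x
    · rw [key π σ h s hs]
    · by_cases hs' : (rnS σ).symm s ∈ X.w.x
      · rw [key σ π h' s hs']
      · rw [X.S_off _ hs, X.S_off _ hs']

end Pool.Agent.TH286.J834
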