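import Pool.Agent.TH547.Arc.Region

/-!
# Restriction of cells to a set of arcs (job 835 of MP_e5080e_gt)
-/

set_option autoImplicit false
namespace Pool.Agent.TH286.J835
open Pool.Agent.TH547.Arc
open Finset Equiv
namespace Sys
variable {S : Sys}

theorem nm_foldl (l : List ℕ) (X : S.C) : S.nm (l.foldl S.dl X) = S.nm X \ l.toFinset := by
  induction l generalizing X with
  | nil => simp
  | cons a l ih =>
    rw [List.foldl_cons, ih, Sys.nm_dl]
    ext b
    simp only [Finset.mem_sdiff, Finset.mem_erase, List.toFinset_cons, Finset.mem_insert,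
      List.mem_toFinset]
    tauto

theorem foldl_perm {l l' : List ℕ} (h : l.Perm l') (X : S.C) :
    l.foldl S.dl X = l'.foldl S.dl X := by
  have : RightCommutative S.dl := ⟨fun X a b => S.dl_comm X a b⟩
  exact h.foldl_eq X

/-- the iterated deletion depends only on the deleted set of arcs of the cell -/
theorem foldl_eq {l l' : List ℕ} {X : S.C} (h : ∀ a ∈ S.nm X, a ∈ l ↔ a ∈ l') :
    l.foldl S.dl X = l'.foldl S.dl X := by
  induction hn : (S.nm X).card using Nat.strong_induction_on generalizing X l l' with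
  | _ n ih =>
  by_cases hex : ∃ a ∈ S.nm X, a ∈ l
  · obtain ⟨a, ha, hal⟩ := hex
    have hal' := (h a ha).1 hal
    obtain ⟨m, hm⟩ : ∃ m, l.Perm (a :: m) := ⟨_, List.perm_cons_erase hal⟩
    obtain ⟨m', hm'⟩ : ∃ m, l'.Perm (a :: m) := ⟨_, List.perm_cons_erase hal'⟩
    rw [foldl_perm hm, foldl_perm hm', List.foldl_cons, List.foldl_cons]
    refine ih (S.nm (S.dl X a)).card ?_ ?_ rfl
    · rw [Sys.nm_dl, ← hn]
      exact Finset.card_erase_lt_of_mem ha
    · intro b hb
      rw [Sys.nm_dl, Finset.mem_erase] at hb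
      have h1 := hm.mem_iff (a := b)
      have h2 := hm'.mem_iff (a := b)
      have h3 := h b hb.2
      simp only [List.mem_cons] at h1 h2
      have h4 := hb.1
      tauto
  · push Not at hex
    have key : ∀ l : List ℕ, (∀ a ∈ l, a ∉ S.nm X) → l.foldl S.dl X = X := by
      intro l
      induction l with
      | nil => intro _; rfl
      | cons a l ihl =>
        intro hl
        rw [List.foldl_cons, S.dl_not_mem X a (fun h' => hl a (by simp) (Sys.mem_nm.2 h'))]
        exact ihl (fun b hb => hl b (by simp [hb]))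
    rw [key l (fun a ha h' => hex a h' ha), key l' (fun a ha h' => hex a h' ((h a h').2 ha))]

theorem res_def (N : Finset ℕ) (X : S.C) :
    S.res N X = ((S.nm X \ N).sort (· ≤ ·)).foldl S.dl X := rfl

theorem res_of_subset {N : Finset ℕ} {X : S.C} (h : S.nm X ⊆ N) : S.res N X = X := by
  rw [res_def, Finset.sdiff_eq_empty_iff_subset.2 h]
  simp

theorem res_dl (N : Finset ℕ) (X : S.C) (a : ℕ) : S.res N (S.dl X a) = S.res (N.erase a) X := by
  rw [res_def, res_def, ← List.foldl_cons]
  apply foldl_eq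
  intro b hb
  simp only [List.mem_cons, Finset.mem_sort, Finset.mem_sdiff, Sys.nm_dl, Finset.mem_erase]
  tauto

theorem res_dl' {N : Finset ℕ} (X : S.C) {a : ℕ} (h : a ∉ N) :
    S.res N (S.dl X a) = S.res N X := by
  rw [res_dl, Finset.erase_eq_of_notMem h]

theorem dl_res (N : Finset ℕ) (X : S.C) (a : ℕ) : S.dl (S.res N X) a = S.res (N.erase a) X := by
  have h1 : S.dl (S.res N X) a = (((S.nm X \ N).sort (· ≤ ·)) ++ [a]).foldl S.dl X := by
    rw [List.foldl_append, res_def]; rfl
  rw [h1, res_def]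
  apply foldl_eq
  intro b hb
  simp only [List.mem_append, List.mem_cons, List.not_mem_nil, or_false, Finset.mem_sort,
    Finset.mem_sdiff, Finset.mem_erase]
  tauto

theorem nm_res (N : Finset ℕ) (X : S.C) : S.nm (S.res N X) = S.nm X ∩ N := by
  rw [res_def, nm_foldl]
  ext b
  simp only [Finset.mem_sdiff, List.mem_toFinset, Finset.mem_sort, Finset.mem_inter]
  tauto

theorem ord_foldl (l : List ℕ) (X : S.C) :
    S.ord (l.foldl S.dl X) = (S.ord X).filter (fun a => decide (a ∉ l)) := by
  induction l generalizing X with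
  | nil => simp
  | cons a l ih =>
    rw [List.foldl_cons, ih, S.ord_dl, (S.nodup X).erase_eq_filter, List.filter_filter]
    refine List.filter_congr fun b _ => ?_
    rw [Bool.eq_iff_iff]
    simp only [Bool.and_eq_true, decide_eq_true_eq, bne_iff_ne, List.mem_cons, not_or]
    tauto

theorem ord_res (N : Finset ℕ) (X : S.C) :
    S.ord (S.res N X) = (S.ord X).filter (fun a => decide (a ∈ N)) := by
  rw [res_def, ord_foldl]
  refine List.filter_congr fun b hb => ?_
  have hb' : b ∈ S.nm X := Sys.mem_nm.2 hb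
  rw [Bool.eq_iff_iff]
  simp only [decide_eq_true_eq, Finset.mem_sort, Finset.mem_sdiff, not_and, not_not]
  exact ⟨fun h => h hb', fun h _ => h⟩

theorem res_res (N M : Finset ℕ) (X : S.C) : S.res N (S.res M X) = S.res (N ∩ M) X := by
  have h1 : S.res N (S.res M X) = (((S.nm X \ M).sort (· ≤ ·)) ++
      ((S.nm (S.res M X) \ N).sort (· ≤ ·))).foldl S.dl X := by
    rw [List.foldl_append, res_def N, res_def M]
  rw [h1, res_def (N ∩ M)]
  apply foldl_eq
  intro b hb
  rw [nm_res]
  simp only [List.mem_append, Finset.mem_sort, Finset.mem_sdiff, Finset.mem_inter]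
  tauto

theorem rn_foldl (π : Perm ℕ) (l : List ℕ) (X : S.C) :
    S.rn π (l.foldl S.dl X) = (l.map π).foldl S.dl (S.rn π X) := by
  induction l generalizing X with
  | nil => rfl
  | cons a l ih => rw [List.foldl_cons, ih, List.map_cons, List.foldl_cons, S.dl_rn]

theorem res_rn (N : Finset ℕ) (π : Perm ℕ) (X : S.C) :
    S.res (N.map π.toEmbedding) (S.rn π X) = S.rn π (S.res N X) := by
  rw [res_def, res_def, rn_foldl]
  apply foldl_eq
  intro b hb
  rw [Sys.nm_rn] at hb ⊢
  obtain ⟨a, ha, rfl⟩ := Finset.mem_map.1 hb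
  simp only [Finset.mem_sort, Finset.mem_sdiff, List.mem_map]
  constructor
  · rintro ⟨_, h2⟩
    exact ⟨a, ⟨ha, fun h => h2 (Finset.mem_map_of_mem _ h)⟩, rfl⟩
  · rintro ⟨a', ⟨h1, h2⟩, h3⟩
    have : a' = a := π.injective h3
    subst this
    refine ⟨Finset.mem_map_of_mem _ ha, fun h => h2 ?_⟩
    obtain ⟨c, hc, hc'⟩ := Finset.mem_map.1 h
    have : c = a' := π.injective hc'
    rwa [← this]

theorem res_rn_fix {N : Finset ℕ} {π : Perm ℕ} (h : ∀ a ∈ N, π a = a) (X : S.C) :
    S.res N (S.rn π X) = S.rn π (S.res N X) := by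
  have hN : N.map π.toEmbedding = N := by
    ext b
    rw [Finset.mem_map]
    constructor
    · rintro ⟨a, ha, rfl⟩
      have : π.toEmbedding a = a := h a ha
      rwa [this]
    · intro hb
      exact ⟨b, hb, h b hb⟩
  rw [← res_rn, hN]

theorem res_congr {N M : Finset ℕ} {X : S.C} (h : S.nm X ∩ N = S.nm X ∩ M) :
    S.res N X = S.res M X := by
  rw [res_def, res_def]
  apply foldl_eq
  intro b hb
  have := Finset.ext_iff.1 h b
  simp only [Finset.mem_inter] at this
  simp only [Finset.mem_sort, Finset.mem_sdiff]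
  tauto

theorem foldl_ind {N : Finset ℕ} {p : S.C → Prop} (h : ∀ Y, p Y → ∀ a ∈ S.nm Y \ N, p (S.dl Y a))
    (l : List ℕ) (hl : l.Nodup) (X : S.C) (h0 : p X) (hX : ∀ a ∈ l, a ∈ S.nm X \ N) :
    p (l.foldl S.dl X) := by
  induction l generalizing X with
  | nil => exact h0
  | cons a l ih =>
    rw [List.nodup_cons] at hl
    rw [List.foldl_cons]
    refine ih hl.2 _ (h X h0 a (hX a (by simp))) fun b hb => ?_
    have h1 := hX b (by simp [hb])
    rw [Finset.mem_sdiff] at h1 ⊢
    rw [Sys.nm_dl, Finset.mem_erase]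
    exact ⟨⟨fun e => hl.1 (e ▸ hb), h1.1⟩, h1.2⟩

theorem res_ind {N : Finset ℕ} {p : S.C → Prop} {X : S.C} (h0 : p X)
    (h : ∀ Y, p Y → ∀ a ∈ S.nm Y \ N, p (S.dl Y a)) : p (S.res N X) := by
  rw [res_def]
  refine foldl_ind h _ (Finset.sort_nodup _ _) X h0 fun a ha => ?_
  rwa [Finset.mem_sort] at ha

end Sys

theorem W_foldl (l : List ℕ) (X : PW) : (l.foldl PW.dl X).x =
    X.x.filter (fun s => decide (∀ a ∈ l, offA a s = true)) := by
  induction l generalizing X with
  | nil => simp
  | cons a l ih =>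
    rw [List.foldl_cons, ih]
    show (X.x.filter (offA a)).filter _ = _
    rw [List.filter_filter]
    refine List.filter_congr fun s _ => ?_
    rw [Bool.eq_iff_iff]
    simp only [Bool.and_eq_true, decide_eq_true_eq, List.mem_cons, forall_eq_or_imp]
    tauto

/-- for words the restriction is a filter -/
theorem W_res (N : Finset ℕ) (X : PW) : W.res N X = (⟨X.x.filter (fun s => match s with
    | mr _ => true
    | en a _ => decide (a ∈ N)), X.nd.filter _, by
      intro b e hb
      rw [List.mem_filter] at hb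
      have hbN : b ∈ N := by simpa using hb.2
      have h := (X.pair b e hb.1).filter (fun s => match s with
        | mr _ => true
        | en a _ => decide (a ∈ N))
      rwa [List.filter_cons_of_pos (by simpa using hbN),
        List.filter_cons_of_pos (by simpa using hbN), List.filter_nil] at h⟩ : PW) := by
  apply PW.ext
  show (((W.nm X \ N).sort (· ≤ ·)).foldl PW.dl X).x = _
  rw [W_foldl]
  refine List.filter_congr fun s hs => ?_
  rw [Bool.eq_iff_iff]
  rcases s with n | ⟨a, e⟩
  · simp
  · simp only [decide_eq_true_eq, Finset.mem_sort, Finset.mem_sdiff, offA_en]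
    have ha : a ∈ W.nm X := Sys.mem_nm.2 ((PW.mem_ord' e).2 hs)
    constructor
    · intro h
      by_contra hN
      exact h a ⟨ha, hN⟩ rfl
    · rintro h b ⟨_, hb⟩ rfl
      exact hb h

end Pool.Agent.TH286.J835
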