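import Pool.Agent.TH806.N4.Defs2

set_option autoImplicit false

/-!
Common part of the jobs N4-TB0 and N4-TW2: the quadratic form of a Dirichlet polynomial with a multiplier, its torus
representation, and the passage from the torus to the twisted second moment.
-/

namespace Pool.Agent.TH286.N4_Q

open Finset Filter Topology MeasureTheory Complex MonoidAlgebra
open Pool.Agent.W184.NZ Pool.Agent.TH806 Pool.Agent.TH806.N4
open Pool.Agent.H306R2.SM (om cl Yf)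
open Pool.Agent.H262R4.TM (Rng Ck)
open Pool.Agent.H448R2.GC (cu cs ker XX)

noncomputable section

variable {N : ℕ}

/-- the quadratic form -/
def QF (f : ℕ → ℂ) (M : ℕ) (G : DA) (z : ℂ) : ℂ :=
  ∑ x ∈ G.coeff.support, (G.coeff x : ℂ) * ∑ h ∈ Icc 1 M, ∑ l ∈ Icc 1 M,
    (f h * (starRingEnd ℂ) (f l)) * wz' z (h * x.1, l * x.2)

lemma QF_hasDeriv (f : ℕ → ℂ) (M : ℕ) (G : DA) (z : ℂ) : HasDerivAt (QF f M G)
    (∑ x ∈ G.coeff.support, (G.coeff x : ℂ) * ∑ h ∈ Icc 1 M, ∑ l ∈ Icc 1 M,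
      (f h * (starRingEnd ℂ) (f l)) *
        (-(Real.log (((h * x.1 : ℕ) : ℝ) * ((l * x.2 : ℕ) : ℝ) / (Nat.gcd (h * x.1) (l * x.2) : ℝ) ^ 2) : ℝ) *
          wz' z (h * x.1, l * x.2))) z := by
  unfold QF
  refine HasDerivAt.fun_sum fun x _ => HasDerivAt.const_mul _ ?_
  refine HasDerivAt.fun_sum fun h _ => HasDerivAt.fun_sum fun l _ => HasDerivAt.const_mul _ ?_
  exact wz'_deriv (h * x.1, l * x.2) z

lemma QF_diff (f : ℕ → ℂ) (M : ℕ) (G : DA) : Differentiable ℂ (QF f M G) :=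
  fun z => (QF_hasDeriv f M G z).differentiableAt

/-- the main term through the quadratic form -/
lemma main_eqF (κ : ℕ) (T : ℝ) (f : ℕ → ℂ) (M : ℕ) (G : DA) :
    ∑ x ∈ G.coeff.support, (G.coeff x : ℂ) * BF κ T f M x =
      ((Real.log (Yf κ T) + Ck κ : ℝ) : ℂ) * QF f M G 0 + deriv (QF f M G) 0 := by
  rw [(QF_hasDeriv f M G 0).deriv]
  unfold QF BF
  rw [mul_sum, ← sum_add_distrib]
  refine sum_congr rfl fun x _ => ?_
  rw [mul_left_comm, ← mul_add]
  congr 1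
  rw [mul_sum, ← sum_add_distrib]
  refine sum_congr rfl fun h _ => ?_
  rw [mul_sum, ← sum_add_distrib]
  refine sum_congr rfl fun l _ => ?_
  rw [wz'_zero]
  unfold Mn wl
  push_cast
  ring

/-- the Dirichlet polynomial on the torus -/
def SS (f : ℕ → ℂ) (M : ℕ) (θ : Ix N → ℝ) : ℂ := ∑ m ∈ Icc 1 M, f m * ((m : ℂ) ^ (-(1 / 2) : ℂ) * chi θ m)

/-- the torus representation -/
theorem QF_int {z : ℂ} (hz : ∀ p : Ix N, ‖ap N z p‖ < 1) (f : ℕ → ℂ) (M : ℕ) {B : ℕ} {G : DA} (hG : Bd B G)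
    (hN : M * B < N) :
    QF f M G z = ∫ θ, ((‖SS f M θ‖ ^ 2 : ℝ) : ℂ) * evt θ G * PP (ap N z) θ ∂(TT N) := by
  have hPc := PP_cont hz
  obtain ⟨BP, hBP0, hBP⟩ := PP_bdd hz
  have hint : ∀ x : ℕ × ℕ, x.1 ≠ 0 → x.2 ≠ 0 → Integrable (fun θ : Ix N → ℝ => mt θ x * PP (ap N z) θ) (TT N) := by
    intro x h1 h2
    refine Integrable.of_bound (C := BP) ((mt_cont x).mul hPc).aestronglyMeasurable
      (Filter.Eventually.of_forall fun θ => ?_)
    rw [norm_mul]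
    calc _ ≤ 1 * BP := mul_le_mul (mt_norm_le θ h1 h2) (hBP θ) (norm_nonneg _) zero_le_one
      _ = BP := one_mul _
  have e1 : ∀ θ : Ix N → ℝ, ((‖SS f M θ‖ ^ 2 : ℝ) : ℂ) * evt θ G * PP (ap N z) θ =
      ∑ x ∈ G.coeff.support, ∑ h ∈ Icc 1 M, ∑ l ∈ Icc 1 M,
        ((G.coeff x : ℂ) * (f h * (starRingEnd ℂ) (f l))) *
          (mt θ (h * x.1, l * x.2) * PP (ap N z) θ) := by
    intro θ
    unfold SS
    rw [Complex.ofReal_pow, ← Complex.mul_conj', map_sum, sum_mul_sum, evt_apply, mul_sum, sum_mul]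
    refine sum_congr rfl fun x _ => ?_
    rw [sum_mul, sum_mul]
    refine sum_congr rfl fun h hh => ?_
    rw [sum_mul, sum_mul]
    refine sum_congr rfl fun l hl => ?_
    rw [Finset.mem_Icc] at hh hl
    have e3 : mt θ (h * x.1, l * x.2) = mt θ (h, l) * mt θ x := by
      rw [← map_mul]; rfl
    rw [e3, mt_apply θ (h, l), map_mul, map_mul, natCast_half (by omega : l ≠ 0), Complex.conj_ofReal]
    ring
  have e4 : ∀ x ∈ G.coeff.support, ∀ h ∈ Icc 1 M, ∀ l ∈ Icc 1 M,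
      (h * x.1 ≠ 0 ∧ l * x.2 ≠ 0) ∧ h * x.1 < N ∧ l * x.2 < N := by
    intro x hx h hh l hl
    rw [Finset.mem_Icc] at hh hl
    obtain ⟨⟨h1, h2⟩, h3, h4⟩ := hG x hx
    have h3' : x.1 ≤ B := by exact_mod_cast h3
    have h4' : x.2 ≤ B := by exact_mod_cast h4
    refine ⟨⟨Nat.mul_ne_zero (by omega) h1, Nat.mul_ne_zero (by omega) h2⟩, ?_, ?_⟩
    · exact lt_of_le_of_lt (Nat.mul_le_mul hh.2 h3') hN
    · exact lt_of_le_of_lt (Nat.mul_le_mul hl.2 h4') hN
  simp_rw [e1]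
  unfold QF
  rw [integral_finsetSum _ fun x hx => integrable_finsetSum _ fun h hh => integrable_finsetSum _ fun l hl =>
    (hint _ (e4 x hx h hh l hl).1.1 (e4 x hx h hh l hl).1.2).const_mul _]
  refine sum_congr rfl fun x hx => ?_
  rw [integral_finsetSum _ fun h hh => integrable_finsetSum _ fun l hl =>
    (hint _ (e4 x hx h hh l hl).1.1 (e4 x hx h hh l hl).1.2).const_mul _, mul_sum]
  refine sum_congr rfl fun h hh => ?_
  rw [integral_finsetSum _ fun l hl => (hint _ (e4 x hx h hh l hl).1.1 (e4 x hx h hh l hl).1.2).const_mul _, mul_sum]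
  refine sum_congr rfl fun l hl => ?_
  obtain ⟨⟨a1, a2⟩, a3, a4⟩ := e4 x hx h hh l hl
  rw [integral_const_mul, int_mt hz (x := (h * x.1, l * x.2)) a1 a2 a3 a4]
  ring

/-- the real product of the multiplier -/
def gtp (y : ℝ) (J : ℕ) (φ : ℕ → ℂ → ℝ) (θ : Ix N → ℝ) : ℝ := ∏ i ∈ range J, φ i (PT θ (II y i))

lemma gtp_nonneg {c y : ℝ} {J Rs : ℕ} {a : ℝ} {g : ℕ → DA} {φ : ℕ → ℂ → ℝ} {G : DA} (h : MG c y J Rs a g φ G)
    (θ : Ix N → ℝ) : 0 ≤ gtp y J φ θ := prod_nonneg fun i _ => (h.blk i).nn _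

lemma evt_MG {c y : ℝ} {J Rs : ℕ} {a : ℝ} {g : ℕ → DA} {φ : ℕ → ℂ → ℝ} {G : DA} (h : MG c y J Rs a g φ G)
    (θ : Ix N → ℝ) : evt θ G = ((gtp y J φ θ : ℝ) : ℂ) := by
  rw [h.eq, map_prod]
  unfold gtp
  rw [Complex.ofReal_prod]
  exact prod_congr rfl fun i _ => (h.blk i).evt N θ

/-- a lower bound for the main order -/
lemma EV_ge {c y : ℝ} {J : ℕ} (h : BL c y J) {a L : ℝ} (ha : |a| ≤ 1 / 16) (hL : 1 ≤ L) (hyL : Real.log y ≤ L) :
    Real.exp (-c) / L ≤ EV J y a := by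
  obtain ⟨hα1, hα2⟩ := abs_le.mp ha
  have hy := h.y1
  have hc := h.c0
  have hly : 1 < Real.log y := by
    have := Real.exp_one_lt_d9
    rw [Real.lt_log_iff_exp_lt (by linarith)]; linarith
  have hV0 : 0 ≤ ∑ i ∈ range J, vI (II y i) := sum_nonneg fun _ _ => vI_nonneg _
  have hV1 : ∑ i ∈ range J, vI (II y i) ≤ Real.log L + c := by
    have h1 := (abs_le.mp h.vv).2
    have h2 : Real.log (Real.log y) ≤ Real.log L := Real.log_le_log (by linarith) hyL
    linarith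
  have h3 : -1 ≤ 4 * a + a ^ 2 := by nlinarith
  have e : Real.exp (-c) / L = Real.exp (-(Real.log L + c)) := by
    rw [neg_add, Real.exp_add, Real.exp_neg (Real.log L), Real.exp_log (by linarith)]
    field_simp
  rw [e]
  unfold EV
  apply Real.exp_le_exp.mpr
  nlinarith

lemma EV_pos (J : ℕ) (y a : ℝ) : 0 < EV J y a := Real.exp_pos _

/-- the choice of the number `N` -/
lemma exists_N {L : ℝ} (hL : 400 ≤ L) : ∃ N : ℕ, (∀ p : ℕ, p < N → Real.log p ≤ 3 * L) ∧ Real.exp L < N := by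
  refine ⟨⌊Real.exp (3 * L)⌋₊, ?_, ?_⟩
  · intro p hp
    rcases Nat.eq_zero_or_pos p with h0 | h0
    · rw [h0]; simp; linarith
    · have hp0 : (0:ℝ) < p := by exact_mod_cast h0
      rw [Real.log_le_iff_le_exp hp0]
      have h1 : (p:ℝ) ≤ ⌊Real.exp (3 * L)⌋₊ := by exact_mod_cast hp.le
      exact h1.trans (Nat.floor_le (Real.exp_pos _).le)
  · have h1 : Real.exp (3 * L) < ⌊Real.exp (3 * L)⌋₊ + 1 := Nat.lt_floor_add_one _
    have h2 : Real.exp (3 * L) = Real.exp L * Real.exp L * Real.exp L := by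
      rw [← Real.exp_add, ← Real.exp_add]; congr 1; ring
    have h3 : L + 1 ≤ Real.exp L := Real.add_one_le_exp L
    have h4 : Real.exp L * 400 ≤ Real.exp L * Real.exp L :=
      mul_le_mul_of_nonneg_left (by linarith) (Real.exp_pos _).le
    have h5 : Real.exp L * Real.exp L * 400 ≤ Real.exp L * Real.exp L * Real.exp L :=
      mul_le_mul_of_nonneg_left (by linarith) (by positivity)
    linarith

/-- the integer bound for the multiplier -/
lemma ceil_le {L X : ℝ} (hX : X ≤ Real.exp (1 / 200 * L)) (hX0 : 0 ≤ X) (hL : 2000 ≤ L) :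
    ((⌈X⌉₊ : ℕ) : ℝ) ≤ Real.exp (11 / 2000 * L) := by
  have h1 : ((⌈X⌉₊ : ℕ) : ℝ) < X + 1 := Nat.ceil_lt_add_one hX0
  have h3 : Real.exp (11 / 2000 * L) = Real.exp (1 / 200 * L) * Real.exp (1 / 2000 * L) := by
    rw [← Real.exp_add]; congr 1; ring
  have h4 : 1 + 1 / 2000 * L ≤ Real.exp (1 / 2000 * L) := by linarith [Real.add_one_le_exp (1 / 2000 * L)]
  have h5 : 1 + 1 / 200 * L ≤ Real.exp (1 / 200 * L) := by linarith [Real.add_one_le_exp (1 / 200 * L)]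
  have h6 : (2:ℝ) ≤ Real.exp (1 / 2000 * L) := by linarith
  have h7 : Real.exp (1 / 200 * L) * 2 ≤ Real.exp (1 / 200 * L) * Real.exp (1 / 2000 * L) :=
    mul_le_mul_of_nonneg_left h6 (Real.exp_pos _).le
  rw [h3]; linarith

lemma Rng_one {T : ℝ} {κ : ℕ} (h : Rng T κ) (hL : 1 ≤ Real.log T) : 1 ≤ κ := by
  have h1 := h.1
  have h2 : (1:ℝ) ≤ Real.log T ^ 2 := one_le_pow₀ hL
  have : (1:ℝ) ≤ κ := h2.trans h1
  exact_mod_cast this

lemma yf2 {κ : ℕ} (hκ : 1 ≤ κ) {T : ℝ} (hT : 0 < T) (hL : 2 ≤ Real.log T) :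
    |Real.log (Yf κ T) + Ck κ| ≤ 2 * Real.log T := by
  have h1 := abs_sub_abs_le_abs_sub (Real.log (Yf κ T) + Ck κ) (Real.log T)
  rw [abs_of_pos (by linarith : 0 < Real.log T)] at h1
  have := yf_bound hκ hT
  linarith

/-- the size of the error term -/
lemma err_le {η L T l E c X : ℝ} (hT : 0 < T) (hLT : Real.log T = L) (hL : 1 ≤ L) (hl : l ≤ X)
    (hX : X ≤ Real.exp (η / 2 * L)) (hE : Real.exp (-c) / L ≤ E) (hη : 0 < η) :
    2 * T ^ (-η) * l ≤ 2 * Real.exp c * L * E := by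
  have hL0 : 0 < L := by linarith
  have e2 : T ^ (-η) = Real.exp (-(η * L)) := by
    rw [Real.rpow_def_of_pos hT, hLT]; congr 1; ring
  have h1 : Real.exp (-(η * L)) * Real.exp (η / 2 * L) = Real.exp (-(η / 2 * L)) := by
    rw [← Real.exp_add]; congr 1; ring
  have h2 : Real.exp (-(η / 2 * L)) ≤ 1 := by
    rw [Real.exp_le_one_iff]
    have : 0 ≤ η / 2 * L := by positivity
    linarith
  have h5 : Real.exp c * L * (Real.exp (-c) / L) ≤ Real.exp c * L * E :=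
    mul_le_mul_of_nonneg_left hE (by positivity)
  have h6 : Real.exp c * L * (Real.exp (-c) / L) = 1 := by
    rw [Real.exp_neg]
    field_simp
  rw [e2]
  calc 2 * Real.exp (-(η * L)) * l ≤ 2 * Real.exp (-(η * L)) * Real.exp (η / 2 * L) := by
        have := hl.trans hX
        gcongr
    _ = 2 * Real.exp (-(η / 2 * L)) := by rw [mul_assoc, h1]
    _ ≤ 2 * 1 := by linarith
    _ ≤ _ := by linarith

end

end Pool.Agent.TH286.N4_Q
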