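import Pool.Agent.TH286.N4_Q

set_option autoImplicit false

/-!
Job N4-TB0 (helper806): the absolute bound for `|ζ|² |smoothed sum|²` times the multiplier.
-/

namespace Pool.Agent.TH286.N4_TB0

open Finset Filter Topology MeasureTheory Complex MonoidAlgebra
open Pool.Agent.W184.NZ Pool.Agent.TH806 Pool.Agent.TH806.N4 Pool.Agent.TH286.N4_Q
open Pool.Agent.H306R2.SM (om cl Yf)
open Pool.Agent.H262R4.TM (Rng Ck)
open Pool.Agent.H448R2.GC (cu cs ker XX scale_integral scale_integrable)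

noncomputable section

variable {N : ℕ}

/-- the bound for the quadratic form -/
theorem QG_bound (hTA : P_TA) (c η B : ℝ) (k : ℕ) (hη : 0 < η) (hB : 1 ≤ B) (hk : 2 ≤ k) :
    ∃ C : ℝ, 0 < C ∧ ∀ (y L a D : ℝ) (z : ℂ) (N J Rs M : ℕ) (g : ℕ → DA) (φ : ℕ → ℂ → ℝ) (G : DA),
    MG c y J Rs a g φ G → 1 ≤ Rs → |a| ≤ 1 / 16 → (∀ p : ℕ, p < N → Real.log p ≤ 3 * L) → 1 ≤ L →
    ‖z‖ ≤ 1 / (20 * L) → Real.log y ≤ L → y < N → |D| ≤ B * L →
    Bd M G → MS k (η * L / k) D * M < N → MS k (η * L / k) D < N →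
    ‖QF (fS k (η * L / k) D (1 / 2 : ℂ)) (MS k (η * L / k) D) G z‖ ≤ C * L ^ 3 * EV J y a := by
  obtain ⟨C1, hC10, hC1⟩ := SF_sq η B k hη hB (by omega)
  obtain ⟨C2, hC20, hC2⟩ := hTA c
  refine ⟨C1 * (C2 * 2), by positivity, ?_⟩
  intro y L a D z N J Rs M g φ G hMG hRs ha hN hL hz hyL hyN hD hBd hMN hMN'
  have hL0 : 0 < L := by linarith
  have hLinv : 0 < 1 / L := by positivity
  have hPar : ∀ τ : ℝ, Par L N z (1 / L) τ := fun τ =>
    ⟨hL, hN, hz, by positivity, by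
      have : 2 / L = 1 / L + 1 / L := by ring
      linarith⟩
  have hzp : ∀ p : Ix N, ‖ap N z p‖ < 1 := fun p => by linarith [ap_lt (hPar 0) p]
  have hev : ∀ θ : Ix N → ℝ, evt θ G = ((gtp y J φ θ : ℝ) : ℂ) := fun θ => evt_MG hMG θ
  obtain ⟨BP, hBP0, hBP⟩ := PP_bdd hzp
  set Φ : (Ix N → ℝ) → ℝ := fun θ => ‖PP (ap N z) θ‖ * gtp y J φ θ with hΦ
  have hgtc : Continuous fun θ : Ix N → ℝ => gtp y J φ θ := by
    have h1 := Complex.continuous_re.comp (evt_cont (N := N) G)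
    refine h1.congr fun θ => ?_
    simp only [Function.comp]
    rw [hev θ, Complex.ofReal_re]
  have hgtb : ∀ θ : Ix N → ℝ, |gtp y J φ θ| ≤ l1 G := by
    intro θ
    have h1 := evt_norm_le hBd θ
    rw [hev θ, Complex.norm_real, Real.norm_eq_abs] at h1
    exact h1
  have hg0 : ∀ θ : Ix N → ℝ, 0 ≤ gtp y J φ θ := fun θ => gtp_nonneg hMG θ
  have hΦc : Continuous Φ := (PP_cont hzp).norm.mul hgtc
  have hΦb : ∀ θ, |Φ θ| ≤ BP * l1 G := by
    intro θ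
    rw [hΦ]; simp only
    rw [abs_mul, abs_norm]
    exact mul_le_mul (hBP θ) (hgtb θ) (abs_nonneg _) hBP0
  have hΦ0 : ∀ θ, 0 ≤ Φ θ := fun θ => mul_nonneg (norm_nonneg _) (hg0 _)
  rw [QF_int hzp _ _ hBd hMN]
  have hw1 : 0 < ((1 / 2 : ℂ) + ((1 / L : ℝ) : ℂ)).re := by
    rw [Complex.add_re, Complex.ofReal_re]
    have : ((1 / 2 : ℂ)).re = 1 / 2 := by norm_num
    rw [this]; linarith
  have hfub := fub_int hL (k := k) (by omega) hw1 hΦc hΦb
  have hSS : ∀ θ : Ix N → ℝ, SS (fS k (η * L / k) D (1 / 2 : ℂ)) (MS k (η * L / k) D) θ =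
      SF k (η * L / k) D (1 / 2 : ℂ) θ := by
    intro θ
    unfold SF SS MS
    refine sum_congr rfl fun m hm => ?_
    rw [Finset.mem_Icc] at hm
    rw [← mul_assoc, ← mul_assoc, fS_mul k _ D (1 / 2 : ℂ) (by omega : m ≠ 0)]
  have hSF : ∀ θ : Ix N → ℝ, ‖SF k (η * L / k) D (1 / 2 : ℂ) θ‖ ^ 2 ≤ C1 * ∫ v : ℝ, L / (1 + L * |v|) ^ (k + 1) *
      ‖ZT ((1 / 2 : ℂ) + ((1 / L : ℝ) : ℂ) + (v : ℂ) * I) θ‖ ^ 2 := by
    intro θ
    have hkk : (k:ℝ) * (η * L / k) = η * L := by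
      have : (k:ℝ) ≠ 0 := by exact_mod_cast (by omega : k ≠ 0)
      field_simp
    have h1 := hC1 L D (1 / 2 : ℂ) N θ hL hD (by norm_num) (by unfold MS at hMN'; rwa [hkk] at hMN')
    simp_rw [add_assoc (1 / 2 : ℂ)]
    exact h1
  have step1 : ‖∫ θ, ((‖SS (fS k (η * L / k) D (1 / 2 : ℂ)) (MS k (η * L / k) D) θ‖ ^ 2 : ℝ) : ℂ) *
      evt θ G * PP (ap N z) θ ∂(TT N)‖ ≤
      ∫ θ, (C1 * (∫ v : ℝ, Φ θ * (L / (1 + L * |v|) ^ (k + 1) *
        ‖ZT ((1 / 2 : ℂ) + ((1 / L : ℝ) : ℂ) + (v : ℂ) * I) θ‖ ^ 2))) ∂(TT N) := by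
    refine norm_integral_le_of_norm_le (hfub.integral_prod_left.const_mul _)
      (Filter.Eventually.of_forall fun θ => ?_)
    rw [hSS, norm_mul, norm_mul, hev θ, Complex.norm_real, Complex.norm_real, Real.norm_eq_abs, Real.norm_eq_abs,
      abs_of_nonneg (sq_nonneg _), abs_of_nonneg (hg0 _), integral_const_mul]
    calc ‖SF k (η * L / k) D (1 / 2 : ℂ) θ‖ ^ 2 * gtp y J φ θ * ‖PP (ap N z) θ‖ =
        Φ θ * ‖SF k (η * L / k) D (1 / 2 : ℂ) θ‖ ^ 2 := by rw [hΦ]; ring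
      _ ≤ Φ θ * (C1 * ∫ v : ℝ, L / (1 + L * |v|) ^ (k + 1) *
          ‖ZT ((1 / 2 : ℂ) + ((1 / L : ℝ) : ℂ) + (v : ℂ) * I) θ‖ ^ 2) :=
            mul_le_mul_of_nonneg_left (hSF θ) (hΦ0 θ)
      _ = _ := by ring
  refine step1.trans ?_
  rw [integral_const_mul]
  have hfin : ∫ θ, (∫ v : ℝ, Φ θ * (L / (1 + L * |v|) ^ (k + 1) *
        ‖ZT ((1 / 2 : ℂ) + ((1 / L : ℝ) : ℂ) + (v : ℂ) * I) θ‖ ^ 2)) ∂(TT N) ≤
      (C2 * L ^ 3 * EV J y a) * 2 := by
    rw [integral_integral_swap hfub]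
    have hE0 : 0 < EV J y a := EV_pos J y a
    have step2 : ∀ v : ℝ, ∫ θ, Φ θ * (L / (1 + L * |v|) ^ (k + 1) *
          ‖ZT ((1 / 2 : ℂ) + ((1 / L : ℝ) : ℂ) + (v : ℂ) * I) θ‖ ^ 2) ∂(TT N) ≤
        (C2 * L ^ 3 * EV J y a) * (L / (1 + L * |v|) ^ (k + 1)) := by
      intro v
      have h0 : 0 ≤ L * |v| := by positivity
      have e1 : ∀ θ : Ix N → ℝ, Φ θ * (L / (1 + L * |v|) ^ (k + 1) *
          ‖ZT ((1 / 2 : ℂ) + ((1 / L : ℝ) : ℂ) + (v : ℂ) * I) θ‖ ^ 2) =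
          (L / (1 + L * |v|) ^ (k + 1)) * (‖PP (ap N z) θ‖ * ‖ZT (wp (1 / L) v) θ‖ ^ 2 * (evt θ G).re) := by
        intro θ
        have : (1 / 2 : ℂ) + ((1 / L : ℝ) : ℂ) + (v : ℂ) * I = wp (1 / L) v := by
          unfold wp; push_cast; ring
        rw [this, hΦ, hev θ, Complex.ofReal_re]; ring
      simp_rw [e1]
      rw [integral_const_mul]
      have h1 := hC2 y L a (1 / L) v z N J Rs g φ G hMG hRs ha (hPar _) hyL hyN
      have h3 : 0 ≤ L / (1 + L * |v|) ^ (k + 1) := by positivity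
      calc L / (1 + L * |v|) ^ (k + 1) * _ ≤ L / (1 + L * |v|) ^ (k + 1) * (C2 * L ^ 3 * EV J y a) :=
            mul_le_mul_of_nonneg_left h1 h3
        _ = _ := by ring
    have hgk := scale_integrable L (k + 1) hL (by omega)
    have hg2 := scale_integral L (k + 1) hL (by omega)
    calc ∫ v : ℝ, ∫ θ, Φ θ * (L / (1 + L * |v|) ^ (k + 1) *
          ‖ZT ((1 / 2 : ℂ) + ((1 / L : ℝ) : ℂ) + (v : ℂ) * I) θ‖ ^ 2) ∂(TT N) ≤
        ∫ v : ℝ, (C2 * L ^ 3 * EV J y a) * (L / (1 + L * |v|) ^ (k + 1)) := by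
          refine integral_mono_of_nonneg (Filter.Eventually.of_forall fun v => ?_) (hgk.const_mul _)
            (Filter.Eventually.of_forall step2)
          refine integral_nonneg fun θ => mul_nonneg (hΦ0 θ) (mul_nonneg ?_ (sq_nonneg _))
          have h0 : 0 ≤ L * |v| := by positivity
          positivity
      _ ≤ (C2 * L ^ 3 * EV J y a) * 2 := by
          rw [integral_const_mul]
          exact mul_le_mul_of_nonneg_left hg2 (by positivity)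
  calc C1 * _ ≤ C1 * ((C2 * L ^ 3 * EV J y a) * 2) := mul_le_mul_of_nonneg_left hfin hC10.le
    _ = _ := by ring

theorem t_TB0 (hTA : P_TA) : P_TB0 := by
  obtain ⟨η, hη, hG⟩ := tw_G (518 / 1000) (by norm_num)
  refine ⟨min (η / 2) (1 / 200), lt_min (by positivity) (by norm_num), min_le_right _ _, fun k η1 c hk hη1 hη1' => ?_⟩
  obtain ⟨C, hC0, hC⟩ := QG_bound hTA c η1 1 k hη1 le_rfl hk
  refine ⟨22 * C + 2 * Real.exp c, by positivity, fun Rs hRs => ?_⟩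
  have hkp : (0:ℝ) < k := by exact_mod_cast (by omega : 0 < k)
  filter_upwards [hG, eventually_gt_atTop (3:ℝ), Real.tendsto_log_atTop.eventually_ge_atTop 2000] with
    T hGT hTgt hL κ hκ y a D J g φ G hMG ha hy1 hD0 hD1
  set L := Real.log T with hLd
  have hBL := hMG.bl
  have hL1 : 1 ≤ L := by linarith
  have hL0 : 0 < L := by linarith
  have hT0 : 0 < T := by linarith
  have hy := hBL.y1
  have hRs1 : (1:ℝ) ≤ Rs := by exact_mod_cast hRs
  have hly : 1 < Real.log y := by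
    have := Real.exp_one_lt_d9
    rw [Real.lt_log_iff_exp_lt (by linarith)]; linarith
  have hm1 : min (η / 2) (1 / 200) ≤ η / 2 := min_le_left _ _
  have hm2 : min (η / 2) (1 / 200) ≤ 1 / 200 := min_le_right _ _
  have hlen1 : 320 * ((Rs:ℝ) + 1) * Real.log y ≤ 1 / 200 * L := hy1.trans (mul_le_mul_of_nonneg_right hm2 hL0.le)
  have hlen2 : 320 * ((Rs:ℝ) + 1) * Real.log y ≤ η / 2 * L := hy1.trans (mul_le_mul_of_nonneg_right hm1 hL0.le)
  have hyL : Real.log y ≤ L := by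
    have : 1 * Real.log y ≤ 320 * ((Rs:ℝ) + 1) * Real.log y :=
      mul_le_mul_of_nonneg_right (by linarith) (by linarith)
    linarith
  have hk1 : 1 ≤ κ := Rng_one hκ hL1
  set c0 := η1 * L / k with hc0
  have hc0p : 0 < c0 := by positivity
  have hkc0 : (k:ℝ) * c0 = η1 * L := by rw [hc0]; field_simp
  set M := MS k c0 D with hM
  -- sizes
  have hMle : (M:ℝ) ≤ Real.exp (41 / 80 * L) := by
    rw [hM]; unfold MS
    refine (Nat.floor_le (Real.exp_pos _).le).trans (Real.exp_le_exp.mpr ?_)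
    rw [hkc0]; linarith
  set B := ⌈Real.exp (Real.log y * (320 * ((Rs:ℝ) + 1)))⌉₊ with hB
  have hBle : (B:ℝ) ≤ Real.exp (11 / 2000 * L) :=
    ceil_le (Real.exp_le_exp.mpr (by linarith)) (Real.exp_pos _).le hL
  have hBd : Bd (B:ℝ) G := hMG.bd.mono (Nat.le_ceil _)
  have hMB : ((M * B : ℕ) : ℝ) ≤ T ^ (518 / 1000 : ℝ) := by
    rw [Real.rpow_def_of_pos hT0, ← hLd]
    push_cast
    calc (M:ℝ) * B ≤ Real.exp (41 / 80 * L) * Real.exp (11 / 2000 * L) := by gcongr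
      _ = Real.exp (L * (518 / 1000)) := by rw [← Real.exp_add]; congr 1; ring
  have hf : ∀ n, n ≠ 0 → ‖fS k c0 D (1 / 2 : ℂ) n‖ ≤ 1 := fun n hn => fS_norm k hc0p D (by norm_num) n hn
  have hmain := hGT κ hκ M B (fS k c0 D (1 / 2 : ℂ)) hf hMB G hBd
  have e1 : ∀ t : ℝ, wz κ T t * (‖DP (fS k c0 D (1 / 2 : ℂ)) M t‖ ^ 2 * (ev t G).re) = wz κ T t *
      (‖cs k c0 D (cl t)‖ ^ 2 * (ev t G).re) := by
    intro t
    have h1 := DP_cs k c0 D 0 0 t
    have h2 : (((1 / 2 + 0 : ℝ) : ℂ) + ((0:ℝ) : ℂ) * I) = (1 / 2 : ℂ) := by push_cast; ring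
    have h3 : (((1 / 2 + 0 : ℝ) : ℂ) + ((t + 0 : ℝ) : ℂ) * I) = cl t := by unfold cl; push_cast; ring
    rw [h2, h3] at h1
    rw [hM, h1]
  simp_rw [e1] at hmain
  rw [main_eqF] at hmain
  -- the number N
  obtain ⟨N, hNlog, hN2⟩ := exists_N (by linarith : 400 ≤ L)
  have hyN : y < N := by
    refine lt_of_le_of_lt ?_ hN2
    rw [← Real.log_le_iff_le_exp (by linarith)]; exact hyL
  have hMBN : M * B < N := by
    have h1 : ((M * B : ℕ) : ℝ) < N := by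
      refine lt_of_le_of_lt hMB (lt_of_le_of_lt ?_ hN2)
      rw [Real.rpow_def_of_pos hT0, ← hLd]
      exact Real.exp_le_exp.mpr (by linarith)
    exact_mod_cast h1
  have hB1 : 1 ≤ B := Nat.one_le_ceil_iff.mpr (Real.exp_pos _)
  have hMN : M < N := lt_of_le_of_lt (Nat.le_mul_of_pos_right _ (by omega)) hMBN
  have hQ : ∀ z : ℂ, ‖z‖ ≤ 1 / (20 * L) → ‖QF (fS k c0 D (1 / 2 : ℂ)) M G z‖ ≤ C * L ^ 3 * EV J y a := by
    intro z hz
    exact hC y L a D z N J Rs B g φ G hMG hRs ha hNlog hL1 hz hyL hyN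
      (by rw [abs_of_nonneg hD0]; linarith [mul_pos hη1 hL0]) hBd hMBN hMN
  set E := EV J y a with hE
  have hE0 : 0 < E := EV_pos J y a
  have hQ0 := hQ 0 (by rw [norm_zero]; positivity)
  have hdQ : ‖deriv (QF (fS k c0 D (1 / 2 : ℂ)) M G) 0‖ ≤ C * L ^ 3 * E / (1 / (20 * L)) := by
    refine Complex.norm_deriv_le_of_forall_mem_sphere_norm_le (by positivity) (QF_diff _ _ _).diffContOnCl ?_
    intro z hz
    rw [mem_sphere_zero_iff_norm] at hz
    exact hQ z hz.le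
  have hyf2 := yf2 hk1 hT0 (by rw [← hLd]; linarith)
  rw [← hLd] at hyf2
  set P := C * L ^ 3 * E with hP
  have hP0 : 0 ≤ P := by rw [hP]; positivity
  have hre : ((((Real.log (Yf κ T) + Ck κ : ℝ) : ℂ)) * QF (fS k c0 D (1 / 2 : ℂ)) M G 0 +
      deriv (QF (fS k c0 D (1 / 2 : ℂ)) M G) 0).re ≤ 22 * L * P := by
    refine (Complex.re_le_norm _).trans ((norm_add_le _ _).trans ?_)
    rw [norm_mul, Complex.norm_real, Real.norm_eq_abs]
    have h1 : |Real.log (Yf κ T) + Ck κ| * ‖QF (fS k c0 D (1 / 2 : ℂ)) M G 0‖ ≤ 2 * L * P :=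
      mul_le_mul hyf2 hQ0 (norm_nonneg _) (by positivity)
    have h2 : P / (1 / (20 * L)) = 20 * L * P := by field_simp
    rw [h2] at hdQ
    linarith
  have herr : 2 * T ^ (-η) * l1 G ≤ 2 * Real.exp c * L * E :=
    err_le hT0 hLd.symm hL1 hMG.l1 (Real.exp_le_exp.mpr (by linarith)) (EV_ge hBL ha hL1 hyL) hη
  have h9 := (abs_le.mp hmain).2
  calc _ ≤ 22 * L * P + 2 * Real.exp c * L * E := by linarith
    _ ≤ (22 * C + 2 * Real.exp c) * L ^ 4 * E := by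
        rw [hP]
        have h12 : L ≤ L ^ 4 := by
          calc L = L ^ 1 := (pow_one L).symm
            _ ≤ L ^ 4 := pow_le_pow_right₀ hL1 (by norm_num)
        have h13 : 2 * Real.exp c * L * E ≤ 2 * Real.exp c * L ^ 4 * E := by gcongr
        calc 22 * L * (C * L ^ 3 * E) + 2 * Real.exp c * L * E ≤
            22 * L * (C * L ^ 3 * E) + 2 * Real.exp c * L ^ 4 * E := by linarith
          _ = _ := by ring

end

end Pool.Agent.TH286.N4_TB0
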