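import Pool.Agent.TH286.N4_Q

set_option autoImplicit false

/-!
Job N4-TW2 (helper806): decoupling of the multiplier in the twisted second moment.
-/

namespace Pool.Agent.TH286.N4_TW2

open Finset Filter Topology MeasureTheory Complex MonoidAlgebra
open Pool.Agent.W184.NZ Pool.Agent.TH806 Pool.Agent.TH806.N4 Pool.Agent.TH286.N4_Q
open Pool.Agent.H306R2.SM (om cl Yf)
open Pool.Agent.H262R4.TM (Rng Ck)
open Pool.Agent.H448R2.GC (cu cs ker XX scale_integral scale_integrable)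

noncomputable section

variable {N : ℕ}

lemma KRep.integrable {L : ℝ} {k : ℕ} {CK : ℝ} {f : ℕ → ℂ} {M : ℕ} {K : ℝ → ℂ} (hK : KRep L k CK f M K)
    (hL : 1 ≤ L) (hk : 1 ≤ k) : Integrable K := by
  refine ((scale_integrable L (k + 1) hL (by omega)).const_mul CK).mono' hK.Kc.aestronglyMeasurable
    (Filter.Eventually.of_forall fun v => hK.Kb v)

/-- the kernel representation and the theorem of Fubini -/
theorem QF_F2 {L : ℝ} {k : ℕ} {CK : ℝ} {f : ℕ → ℂ} {M : ℕ} {K : ℝ → ℂ} (hK : KRep L k CK f M K)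
    (hL : 1 ≤ L) (hk : 1 ≤ k) {z : ℂ} (hz : ∀ p : Ix N, ‖ap N z p‖ < 1) {B : ℕ} {G : DA} (hG : Bd B G)
    (hN : M * B < N) (hMN : M < N) :
    Integrable (fun v : ℝ × ℝ => K v.1 * (starRingEnd ℂ) (K v.2) * F2 N L z v.1 v.2 G) ∧
    QF f M G z = (1 / (2 * Real.pi) : ℂ) ^ 2 *
      ∫ v : ℝ × ℝ, K v.1 * (starRingEnd ℂ) (K v.2) * F2 N L z v.1 v.2 G := by
  have hL0 : 0 < L := by linarith
  have hKi := KRep.integrable hK hL hk
  have hKc := hK.Kc
  obtain ⟨BP, hBP0, hBP⟩ := PP_bdd hz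
  have hPc := PP_cont hz
  have hσ : (0:ℝ) < 1 / 2 + 1 / L := by positivity
  obtain ⟨B0, hB00, hB0⟩ := ZT_bdd (N := N) (σ := 1 / 2 + 1 / L) hσ
  have hZb : ∀ (v : ℝ) (θ : Ix N → ℝ), ‖ZT (wp (1 / L) v) θ‖ ≤ B0 := fun v θ => hB0 _ (by unfold wp; simp) θ
  have hZc : Continuous fun vθ : ℝ × (Ix N → ℝ) => ZT (wp (1 / L) vθ.1) vθ.2 := by
    unfold wp
    exact ZT_cont (N := N) (w := ((1 / 2 + 1 / L : ℝ) : ℂ)) (by rw [Complex.ofReal_re]; exact hσ)
  set F : (Ix N → ℝ) → ℝ × ℝ → ℂ := fun θ v => K v.1 * (starRingEnd ℂ) (K v.2) *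
    (ZT (wp (1 / L) v.1) θ * (starRingEnd ℂ) (ZT (wp (1 / L) v.2) θ) * PP (ap N z) θ * evt θ G) with hF
  have hZ1 : Continuous fun q : (Ix N → ℝ) × (ℝ × ℝ) => ZT (wp (1 / L) q.2.1) q.1 := by
    have h : Continuous fun q : (Ix N → ℝ) × (ℝ × ℝ) => ((q.2.1, q.1) : ℝ × (Ix N → ℝ)) :=
      (continuous_fst.comp continuous_snd).prodMk continuous_fst
    exact Continuous.comp (g := fun vθ : ℝ × (Ix N → ℝ) => ZT (wp (1 / L) vθ.1) vθ.2)
      (f := fun q : (Ix N → ℝ) × (ℝ × ℝ) => ((q.2.1, q.1) : ℝ × (Ix N → ℝ))) hZc h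
  have hZ2 : Continuous fun q : (Ix N → ℝ) × (ℝ × ℝ) => ZT (wp (1 / L) q.2.2) q.1 := by
    have h : Continuous fun q : (Ix N → ℝ) × (ℝ × ℝ) => ((q.2.2, q.1) : ℝ × (Ix N → ℝ)) :=
      (continuous_snd.comp continuous_snd).prodMk continuous_fst
    exact Continuous.comp (g := fun vθ : ℝ × (Ix N → ℝ) => ZT (wp (1 / L) vθ.1) vθ.2)
      (f := fun q : (Ix N → ℝ) × (ℝ × ℝ) => ((q.2.2, q.1) : ℝ × (Ix N → ℝ))) hZc h
  have hFc : Continuous (Function.uncurry F) := by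
    have h1 : Continuous fun q : (Ix N → ℝ) × (ℝ × ℝ) => K q.2.1 := hKc.comp (by fun_prop)
    have h2 : Continuous fun q : (Ix N → ℝ) × (ℝ × ℝ) => (starRingEnd ℂ) (K q.2.2) :=
      Complex.continuous_conj.comp (hKc.comp (by fun_prop))
    have h3 : Continuous fun q : (Ix N → ℝ) × (ℝ × ℝ) => (starRingEnd ℂ) (ZT (wp (1 / L) q.2.2) q.1) :=
      Complex.continuous_conj.comp hZ2
    have h4 : Continuous fun q : (Ix N → ℝ) × (ℝ × ℝ) => PP (ap N z) q.1 := hPc.comp continuous_fst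
    have h5 : Continuous fun q : (Ix N → ℝ) × (ℝ × ℝ) => evt q.1 G := (evt_cont G).comp continuous_fst
    exact (h1.mul h2).mul (((hZ1.mul h3).mul h4).mul h5)
  have hFi : Integrable (Function.uncurry F) ((TT N).prod (volume : Measure (ℝ × ℝ))) := by
    have hdom : Integrable (fun q : (Ix N → ℝ) × (ℝ × ℝ) => (B0 * B0 * BP * l1 G) * (‖K q.2.1‖ * ‖K q.2.2‖))
        ((TT N).prod (volume : Measure (ℝ × ℝ))) :=
      (integrable_const (B0 * B0 * BP * l1 G)).mul_prod (hKi.norm.mul_prod hKi.norm)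
    refine hdom.mono' hFc.aestronglyMeasurable (Filter.Eventually.of_forall fun q => ?_)
    simp only [Function.uncurry, hF]
    rw [norm_mul, norm_mul, norm_mul, norm_mul, norm_mul, Complex.norm_conj, Complex.norm_conj]
    have a1 := hZb q.2.1 q.1
    have a2 := hZb q.2.2 q.1
    have a3 := hBP q.1
    have a4 := evt_norm_le hG q.1
    have a5 : 0 ≤ ‖K q.2.1‖ * ‖K q.2.2‖ := by positivity
    calc ‖K q.2.1‖ * ‖K q.2.2‖ * (‖ZT (wp (1 / L) q.2.1) q.1‖ * ‖ZT (wp (1 / L) q.2.2) q.1‖ *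
          ‖PP (ap N z) q.1‖ * ‖evt q.1 G‖) ≤ ‖K q.2.1‖ * ‖K q.2.2‖ * (B0 * B0 * BP * l1 G) := by
          gcongr
      _ = _ := by ring
  have hF2 : ∀ v : ℝ × ℝ, ∫ θ, F θ v ∂(TT N) = K v.1 * (starRingEnd ℂ) (K v.2) * F2 N L z v.1 v.2 G := by
    intro v
    rw [hF]
    simp only
    rw [integral_const_mul]
    rfl
  constructor
  · have h := hFi.integral_prod_right
    refine h.congr (Filter.Eventually.of_forall fun v => ?_)
    exact hF2 v
  · rw [QF_int hz f M hG hN]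
    have e1 : ∀ θ : Ix N → ℝ, ((‖SS f M θ‖ ^ 2 : ℝ) : ℂ) * evt θ G * PP (ap N z) θ =
        (1 / (2 * Real.pi) : ℂ) ^ 2 * ∫ v : ℝ × ℝ, F θ v := by
      intro θ
      have h1 : SS f M θ = (1 / (2 * Real.pi)) * ∫ v : ℝ, K v * ZT (wp (1 / L) v) θ := hK.rep N hMN θ
      have h2 : (starRingEnd ℂ) (SS f M θ) = (1 / (2 * Real.pi)) *
          ∫ v : ℝ, (starRingEnd ℂ) (K v) * (starRingEnd ℂ) (ZT (wp (1 / L) v) θ) := by
        rw [h1, map_mul, ← integral_conj]
        congr 1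
        · rw [map_div₀, map_one, map_mul, Complex.conj_ofReal, map_ofNat]
        · refine integral_congr_ae (Filter.Eventually.of_forall fun v => ?_)
          simp only
          rw [map_mul]
      have h3 : ∫ v : ℝ × ℝ, F θ v = ((∫ v : ℝ, K v * ZT (wp (1 / L) v) θ) *
          ∫ v : ℝ, (starRingEnd ℂ) (K v) * (starRingEnd ℂ) (ZT (wp (1 / L) v) θ)) * (PP (ap N z) θ * evt θ G) := by
        rw [← integral_prod_mul (μ := (volume : Measure ℝ)) (ν := (volume : Measure ℝ)), ← integral_mul_const]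
        refine integral_congr_ae (Filter.Eventually.of_forall fun v => ?_)
        simp only [hF]
        ring
      rw [h3, Complex.ofReal_pow, ← Complex.mul_conj', h2, h1]
      ring
    simp_rw [e1]
    rw [integral_const_mul]
    congr 1
    rw [integral_integral_swap hFi]
    exact integral_congr_ae (Filter.Eventually.of_forall fun v => hF2 v)

/-- the difference of two quadratic forms -/
theorem QF_sub_bound {L : ℝ} {k : ℕ} {CK : ℝ} {f : ℕ → ℂ} {M : ℕ} {K : ℝ → ℂ} (hK : KRep L k CK f M K)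
    (hL : 1 ≤ L) (hk : 2 ≤ k) {z : ℂ} (hz : ∀ p : Ix N, ‖ap N z p‖ < 1) {B : ℕ} (hB : 1 ≤ B) {G : DA} (hG : Bd B G)
    (hN : M * B < N) (lm : ℂ) {X : ℝ}
    (hX : ∀ v1 v2 : ℝ, ‖F2 N L z v1 v2 G - lm * F2 N L z v1 v2 1‖ ≤ X * ((1 + L * |v1|) * (1 + L * |v2|))) :
    ‖QF f M G z - lm * QF f M 1 z‖ ≤ 4 * CK ^ 2 * X := by
  have hL0 : 0 < L := by linarith
  have hMN : M < N := lt_of_le_of_lt (Nat.le_mul_of_pos_right _ (by omega)) hN
  have h1B : Bd (B:ℝ) (1 : DA) := Bd.one.mono (by exact_mod_cast hB)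
  obtain ⟨i1, e1⟩ := QF_F2 hK hL (by omega) hz hG hN hMN
  obtain ⟨i2, e2⟩ := QF_F2 hK hL (by omega) hz h1B hN hMN
  have hX0 : 0 ≤ X := by
    have h := (norm_nonneg _).trans (hX 0 0)
    simpa using h
  have hCK0 : 0 ≤ CK := by
    have h := (norm_nonneg _).trans (hK.Kb 0)
    simp only [abs_zero, mul_zero, add_zero, one_pow, div_one] at h
    by_contra hneg
    push Not at hneg
    nlinarith
  have e3 : QF f M G z - lm * QF f M 1 z = (1 / (2 * Real.pi) : ℂ) ^ 2 *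
      ∫ v : ℝ × ℝ, K v.1 * (starRingEnd ℂ) (K v.2) * (F2 N L z v.1 v.2 G - lm * F2 N L z v.1 v.2 1) := by
    rw [e1, e2]
    have : ∀ v : ℝ × ℝ, K v.1 * (starRingEnd ℂ) (K v.2) * (F2 N L z v.1 v.2 G - lm * F2 N L z v.1 v.2 1) =
        K v.1 * (starRingEnd ℂ) (K v.2) * F2 N L z v.1 v.2 G -
          lm * (K v.1 * (starRingEnd ℂ) (K v.2) * F2 N L z v.1 v.2 1) := by intro v; ring
    simp_rw [this]
    rw [integral_sub i1 (i2.const_mul lm), integral_const_mul]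
    ring
  have hgk := scale_integrable L k hL hk
  have hg2 := scale_integral L k hL hk
  have hg0 : 0 ≤ ∫ v : ℝ, L / (1 + L * |v|) ^ k := integral_nonneg fun v => by
    have : 0 ≤ L * |v| := by positivity
    positivity
  have h5 : ‖(1 / (2 * Real.pi) : ℂ)‖ ≤ 1 := by
    rw [norm_div, norm_one, norm_mul, Complex.norm_ofNat, Complex.norm_real, Real.norm_eq_abs,
      abs_of_pos Real.pi_pos, div_le_one (by positivity)]
    have := Real.pi_gt_three
    linarith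
  have h6 : ‖∫ v : ℝ × ℝ, K v.1 * (starRingEnd ℂ) (K v.2) * (F2 N L z v.1 v.2 G - lm * F2 N L z v.1 v.2 1)‖ ≤
      ∫ v : ℝ × ℝ, (CK ^ 2 * X) * ((L / (1 + L * |v.1|) ^ k) * (L / (1 + L * |v.2|) ^ k)) := by
    refine norm_integral_le_of_norm_le ((hgk.mul_prod hgk).const_mul _) (Filter.Eventually.of_forall fun v => ?_)
    rw [norm_mul, norm_mul, Complex.norm_conj]
    have a1 := hK.Kb v.1
    have a2 := hK.Kb v.2
    have a3 := hX v.1 v.2
    have b1 : 0 ≤ L * |v.1| := by positivity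
    have b2 : 0 ≤ L * |v.2| := by positivity
    calc ‖K v.1‖ * ‖K v.2‖ * ‖F2 N L z v.1 v.2 G - lm * F2 N L z v.1 v.2 1‖ ≤
        (CK * (L / (1 + L * |v.1|) ^ (k + 1))) * (CK * (L / (1 + L * |v.2|) ^ (k + 1))) *
          (X * ((1 + L * |v.1|) * (1 + L * |v.2|))) := by
          gcongr
      _ = _ := by
          rw [pow_succ, pow_succ]
          field_simp
  rw [e3, norm_mul, norm_pow]
  calc ‖(1 / (2 * Real.pi) : ℂ)‖ ^ 2 * _ ≤ 1 ^ 2 * ((CK ^ 2 * X) * (2 * 2)) := by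
        refine mul_le_mul (pow_le_pow_left₀ (norm_nonneg _) h5 2) (h6.trans ?_) (norm_nonneg _) (by norm_num)
        rw [integral_const_mul]
        refine mul_le_mul_of_nonneg_left ?_ (by positivity)
        have e := integral_prod_mul (μ := (volume : Measure ℝ)) (ν := (volume : Measure ℝ))
          (fun v : ℝ => L / (1 + L * |v|) ^ k) (fun v : ℝ => L / (1 + L * |v|) ^ k)
        have e' : ∫ v : ℝ × ℝ, (L / (1 + L * |v.1|) ^ k) * (L / (1 + L * |v.2|) ^ k) =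
          (∫ v : ℝ, L / (1 + L * |v|) ^ k) * ∫ v : ℝ, L / (1 + L * |v|) ^ k := e
        rw [e']
        exact mul_le_mul hg2 hg2 hg0 (by norm_num)
    _ = _ := by ring

theorem t_TW2 (hDL : P_DL) : P_TW2 := by
  obtain ⟨η, hη, hG⟩ := tw_G (518 / 1000) (by norm_num)
  refine ⟨min (η / 2) (1 / 200), lt_min (by positivity) (by norm_num), min_le_right _ _, fun k c B CK hk => ?_⟩
  obtain ⟨C, hC0, hC⟩ := hDL c B
  refine ⟨22 * (4 * CK ^ 2 * C) + 2 * Real.exp c + 2 * |B|, by positivity, fun Rs hRs => ?_⟩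
  filter_upwards [hG, eventually_gt_atTop (3:ℝ), Real.tendsto_log_atTop.eventually_ge_atTop 2000] with
    T hGT hTgt hL κ hκ y a J g φ G f M K hMG ha hlam hy1 hK hM
  set L := Real.log T with hLd
  have hBL := hMG.bl
  have hL1 : 1 ≤ L := by linarith
  have hL0 : 0 < L := by linarith
  have hT0 : 0 < T := by linarith
  have hy := hBL.y1
  have hRs1 : (1:ℝ) ≤ Rs := by exact_mod_cast hRs
  have hly : 1 < Real.log y := by
    have := Real.exp_one_lt_d9
    rw [Real.lt_log_iff_exp_lt (by linarith)]; linarith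
  have hm1 : min (η / 2) (1 / 200) ≤ η / 2 := min_le_left _ _
  have hm2 : min (η / 2) (1 / 200) ≤ 1 / 200 := min_le_right _ _
  have hlen1 : 320 * ((Rs:ℝ) + 1) * Real.log y ≤ 1 / 200 * L := hy1.trans (mul_le_mul_of_nonneg_right hm2 hL0.le)
  have hlen2 : 320 * ((Rs:ℝ) + 1) * Real.log y ≤ η / 2 * L := hy1.trans (mul_le_mul_of_nonneg_right hm1 hL0.le)
  have hyL : Real.log y ≤ L := by
    have : 1 * Real.log y ≤ 320 * ((Rs:ℝ) + 1) * Real.log y :=
      mul_le_mul_of_nonneg_right (by linarith) (by linarith)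
    linarith
  have hk1 : 1 ≤ κ := Rng_one hκ hL1
  -- sizes
  set B' := ⌈Real.exp (Real.log y * (320 * ((Rs:ℝ) + 1)))⌉₊ with hB'
  have hBle : (B':ℝ) ≤ Real.exp (11 / 2000 * L) :=
    ceil_le (Real.exp_le_exp.mpr (by linarith)) (Real.exp_pos _).le hL
  have hBd : Bd (B':ℝ) G := hMG.bd.mono (Nat.le_ceil _)
  have hB1 : 1 ≤ B' := Nat.one_le_ceil_iff.mpr (Real.exp_pos _)
  have hB1d : Bd (B':ℝ) (1 : DA) := Bd.one.mono (by exact_mod_cast hB1)
  have hMB : ((M * B' : ℕ) : ℝ) ≤ T ^ (518 / 1000 : ℝ) := by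
    rw [Real.rpow_def_of_pos hT0, ← hLd] at hM ⊢
    push_cast
    calc (M:ℝ) * B' ≤ Real.exp (L * (41 / 80)) * Real.exp (11 / 2000 * L) := by gcongr
      _ = Real.exp (L * (518 / 1000)) := by rw [← Real.exp_add]; congr 1; ring
  have hmain := hGT κ hκ M B' f hK.fb hMB G hBd
  have hmain1 := hGT κ hκ M B' f hK.fb hMB 1 hB1d
  rw [main_eqF] at hmain hmain1
  simp only [map_one, Complex.one_re, mul_one, l1_one] at hmain1
  -- the number N
  obtain ⟨N, hNlog, hN2⟩ := exists_N (by linarith : 400 ≤ L)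
  have hyN : y < N := by
    refine lt_of_le_of_lt ?_ hN2
    rw [← Real.log_le_iff_le_exp (by linarith)]; exact hyL
  have hMBN : M * B' < N := by
    have h1 : ((M * B' : ℕ) : ℝ) < N := by
      refine lt_of_le_of_lt hMB (lt_of_le_of_lt ?_ hN2)
      rw [Real.rpow_def_of_pos hT0, ← hLd]
      exact Real.exp_le_exp.mpr (by linarith)
    exact_mod_cast h1
  set E := EV J y a with hE
  have hE0 : 0 < E := EV_pos J y a
  set lm : ℝ := lam w2 G with hlm
  have hDLv := hC y L a N J Rs g φ G hMG hRs ha hlam hL1 hyL hNlog hyN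
  set X := C * Real.log y * L ^ 2 * E with hX
  have hX0 : 0 ≤ X := by rw [hX]; positivity
  have hQ : ∀ z : ℂ, ‖z‖ ≤ 1 / (20 * L) → ‖QF f M G z - (lm : ℂ) * QF f M 1 z‖ ≤ 4 * CK ^ 2 * X := by
    intro z hz
    have hPar : Par L N z (1 / L) 0 := ⟨hL1, hNlog, hz, by positivity, by
      have : 2 / L = 1 / L + 1 / L := by ring
      have : 0 < 1 / L := by positivity
      linarith⟩
    have hzp : ∀ p : Ix N, ‖ap N z p‖ < 1 := fun p => by linarith [ap_lt hPar p]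
    exact QF_sub_bound hK hL1 (by omega) hzp hB1 hBd hMBN (lm : ℂ) fun v1 v2 => (hDLv v1 v2).2 z hz
  have hQ0 := hQ 0 (by rw [norm_zero]; positivity)
  have hdiff : Differentiable ℂ (fun z => QF f M G z - (lm : ℂ) * QF f M 1 z) :=
    (QF_diff f M G).sub ((QF_diff f M 1).const_mul _)
  have hdQ : ‖deriv (fun z => QF f M G z - (lm : ℂ) * QF f M 1 z) 0‖ ≤ 4 * CK ^ 2 * X / (1 / (20 * L)) := by
    refine Complex.norm_deriv_le_of_forall_mem_sphere_norm_le (by positivity) hdiff.diffContOnCl ?_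
    intro z hz
    rw [mem_sphere_zero_iff_norm] at hz
    exact hQ z hz.le
  have hderiv : deriv (fun z => QF f M G z - (lm : ℂ) * QF f M 1 z) 0 =
      deriv (QF f M G) 0 - (lm : ℂ) * deriv (QF f M 1) 0 := by
    have h1 := (QF_diff f M G 0).hasDerivAt
    have h2 := ((QF_diff f M 1 0).hasDerivAt).const_mul (lm : ℂ)
    exact (h1.sub h2).deriv
  rw [hderiv] at hdQ
  have hyf2 := yf2 hk1 hT0 (by rw [← hLd]; linarith)
  rw [← hLd] at hyf2
  set Y : ℝ := Real.log (Yf κ T) + Ck κ with hY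
  set P := 4 * CK ^ 2 * X with hP
  have hP0 : 0 ≤ P := by rw [hP]; positivity
  have hre : |((Y : ℂ) * QF f M G 0 + deriv (QF f M G) 0).re - lm * ((Y : ℂ) * QF f M 1 0 + deriv (QF f M 1) 0).re| ≤
      22 * L * P := by
    have e : ((Y : ℂ) * QF f M G 0 + deriv (QF f M G) 0).re - lm * ((Y : ℂ) * QF f M 1 0 + deriv (QF f M 1) 0).re =
        ((Y : ℂ) * (QF f M G 0 - (lm : ℂ) * QF f M 1 0) +
          (deriv (QF f M G) 0 - (lm : ℂ) * deriv (QF f M 1) 0)).re := by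
      rw [← Complex.re_ofReal_mul, ← Complex.sub_re]
      congr 1; ring
    rw [e]
    refine (Complex.abs_re_le_norm _).trans ((norm_add_le _ _).trans ?_)
    rw [norm_mul, Complex.norm_real, Real.norm_eq_abs]
    have h1 : |Y| * ‖QF f M G 0 - (lm : ℂ) * QF f M 1 0‖ ≤ 2 * L * P :=
      mul_le_mul hyf2 hQ0 (norm_nonneg _) (by positivity)
    have h2 : P / (1 / (20 * L)) = 20 * L * P := by field_simp
    rw [h2] at hdQ
    linarith
  have herr : 2 * T ^ (-η) * l1 G ≤ 2 * Real.exp c * L * E :=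
    err_le hT0 hLd.symm hL1 hMG.l1 (Real.exp_le_exp.mpr (by linarith)) (EV_ge hBL ha hL1 hyL) hη
  have hTη : T ^ (-η) ≤ 1 := Real.rpow_le_one_of_one_le_of_nonpos (by linarith) (by linarith)
  have hTη0 : 0 ≤ T ^ (-η) := by positivity
  have hlamB : |lm| ≤ |B| * E := hlam.trans (mul_le_mul_of_nonneg_right (le_abs_self B) hE0.le)
  set I1 := ∫ t in Set.Ioi (0:ℝ), wz κ T t * (‖DP f M t‖ ^ 2 * (ev t G).re) with hI1
  set I2 := ∫ t in Set.Ioi (0:ℝ), wz κ T t * ‖DP f M t‖ ^ 2 with hI2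
  set A1 := ((Y : ℂ) * QF f M G 0 + deriv (QF f M G) 0).re with hA1
  set A2 := ((Y : ℂ) * QF f M 1 0 + deriv (QF f M 1) 0).re with hA2
  have h3 : |lm * (A2 - I2)| ≤ 2 * |B| * E := by
    rw [abs_mul, abs_sub_comm]
    calc |lm| * |I2 - A2| ≤ (|B| * E) * (2 * 1) := by
          refine mul_le_mul hlamB (hmain1.trans ?_) (abs_nonneg _) (by positivity)
          linarith
      _ = _ := by ring
  have h4 : I1 - lm * I2 = (I1 - A1) + (A1 - lm * A2) + lm * (A2 - I2) := by ring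
  have h5 : |I1 - lm * I2| ≤ 2 * Real.exp c * L * E + 22 * L * P + 2 * |B| * E := by
    rw [h4]
    refine (abs_add_le _ _).trans (add_le_add ((abs_add_le _ _).trans (add_le_add (hmain.trans herr) hre)) h3)
  refine h5.trans ?_
  have hL3 : L ≤ Real.log y * L ^ 3 := by
    have : L ≤ L ^ 3 := by
      calc L = L ^ 1 := (pow_one L).symm
        _ ≤ L ^ 3 := pow_le_pow_right₀ hL1 (by norm_num)
    calc L ≤ 1 * L ^ 3 := by rw [one_mul]; exact this
      _ ≤ Real.log y * L ^ 3 := mul_le_mul_of_nonneg_right hly.le (by positivity)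
  have hL4 : 1 ≤ Real.log y * L ^ 3 := hL1.trans hL3
  have b1 : 2 * Real.exp c * L * E ≤ 2 * Real.exp c * (Real.log y * L ^ 3) * E := by gcongr
  have b2 : 2 * |B| * E ≤ 2 * |B| * E * (Real.log y * L ^ 3) := by
    have h0 : 0 ≤ 2 * |B| * E := by positivity
    exact le_mul_of_one_le_right h0 hL4
  have b3 : 22 * L * P = 22 * (4 * CK ^ 2 * C) * (Real.log y * L ^ 3) * E := by rw [hP, hX]; ring
  calc _ ≤ 2 * Real.exp c * (Real.log y * L ^ 3) * E + 22 * (4 * CK ^ 2 * C) * (Real.log y * L ^ 3) * E +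
        2 * |B| * E * (Real.log y * L ^ 3) := by linarith
    _ = _ := by ring

end

end Pool.Agent.TH286.N4_TW2
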